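import Mathlib

/-! Negative powers of polynomials are integrable on polydiscs, with a bound that depends only on
the degree and on one coefficient. -/

set_option autoImplicit false

namespace Pool.Agent.Lib.MP_5c318e_ag.N

open MeasureTheory Set Metric
open scoped ENNReal

lemma rpow_neg_anti {x y : ℝ≥0∞} {c : ℝ} (hc : 0 ≤ c) (h : x ≤ y) : y ^ (-c) ≤ x ^ (-c) := by
  rw [ENNReal.rpow_neg, ENNReal.rpow_neg]
  exact ENNReal.inv_le_inv.2 (ENNReal.rpow_le_rpow h hc)

lemma rpow_neg_le_of_le_mul {a x A : ℝ≥0∞} {c : ℝ} (hc : 0 ≤ c) (hA0 : A ≠ 0) (hA : A ≠ ⊤)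
    (h : a ≤ A * x) : x ^ (-c) ≤ A ^ c * a ^ (-c) := by
  have h1 := rpow_neg_anti hc h
  have h2 : x ^ (-c) = A ^ c * (A * x) ^ (-c) := by
    have hp0 : A ^ c ≠ 0 := (ENNReal.rpow_pos (pos_iff_ne_zero.2 hA0) hA).ne'
    have hpt : A ^ c ≠ ⊤ := ENNReal.rpow_ne_top_of_nonneg hc hA
    rw [ENNReal.rpow_neg, ENNReal.rpow_neg, ENNReal.mul_rpow_of_nonneg _ _ hc,
      ENNReal.mul_inv (Or.inl hp0) (Or.inl hpt), ← mul_assoc, ENNReal.mul_inv_cancel hp0 hpt,
      one_mul]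
  rw [h2]
  gcongr

lemma lint_ker {s : ℝ} (hs0 : 0 ≤ s) (hs : s < 2) (R : ℝ) :
    ∃ C : ℝ≥0∞, C ≠ ⊤ ∧ ∀ w : ℂ, ∫⁻ z in closedBall (0 : ℂ) R, ‖z - w‖ₑ ^ (-s) ≤ C := by
  have hI : ∫⁻ z in ball (0 : ℂ) 1, ‖z‖ₑ ^ (-s) ≠ ⊤ := by
    have h1 : IntegrableOn (fun z : ℂ => ‖z‖ ^ (-s)) (ball 0 1) volume := by
      refine integrableOn_ball_of_norm_le_rpow (C := 1) (α := s) (by simp) (by simpa using hs)
        (Filter.Eventually.of_forall fun z => ?_)
        (measurable_norm.pow_const _).aestronglyMeasurable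
      rw [one_mul, Real.norm_of_nonneg (Real.rpow_nonneg (norm_nonneg _) _)]
    refine ne_top_of_le_ne_top h1.2.ne (le_of_eq (lintegral_congr_ae ?_))
    have h0 : ∀ᵐ z : ℂ, z ≠ 0 := by simp [ae_iff]
    filter_upwards [ae_restrict_of_ae h0] with z hz
    rw [Real.enorm_of_nonneg (Real.rpow_nonneg (norm_nonneg _) _),
      ← ENNReal.ofReal_rpow_of_pos (norm_pos_iff.2 hz), ofReal_norm]
  refine ⟨(∫⁻ z in ball (0 : ℂ) 1, ‖z‖ₑ ^ (-s)) + volume (closedBall (0 : ℂ) R),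
    ENNReal.add_ne_top.2 ⟨hI, measure_closedBall_lt_top.ne⟩, fun w => ?_⟩
  have hm : Measurable fun z : ℂ => ‖z‖ₑ ^ (-s) := by fun_prop
  calc ∫⁻ z in closedBall (0 : ℂ) R, ‖z - w‖ₑ ^ (-s)
      ≤ ∫⁻ z in closedBall (0 : ℂ) R,
          ((ball (0 : ℂ) 1).indicator (fun z => ‖z‖ₑ ^ (-s)) (z - w) + 1) := by
        refine lintegral_mono fun z => ?_
        by_cases hz : z - w ∈ ball (0 : ℂ) 1
        · simp [indicator_of_mem hz]
        · rw [indicator_of_notMem hz, zero_add]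
          have h1 : (1 : ℝ≥0∞) ≤ ‖z - w‖ₑ := by
            rw [← ofReal_norm, ENNReal.one_le_ofReal]
            simpa using hz
          simpa using rpow_neg_anti hs0 h1
    _ ≤ _ := by
        rw [lintegral_add_right _ measurable_const]
        refine add_le_add ?_ ?_
        · refine (lintegral_mono' Measure.restrict_le_self le_rfl).trans (le_of_eq ?_)
          rw [lintegral_sub_right_eq_self (fun z => (ball (0 : ℂ) 1).indicator
            (fun z => ‖z‖ₑ ^ (-s)) z) w, lintegral_indicator measurableSet_ball]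
        · simp

lemma exists_min (s : Multiset ℝ) : ∃ t : ℝ, t ≤ 1 ∧ (∀ x ∈ s, t ≤ x) ∧ (t = 1 ∨ t ∈ s) := by
  induction s using Multiset.induction_on with
  | empty => exact ⟨1, le_rfl, by simp, Or.inl rfl⟩
  | cons a s ih =>
    obtain ⟨t, h1, h2, h3⟩ := ih
    rcases le_total t a with h | h
    · exact ⟨t, h1, by simpa [h] using h2, h3.imp id fun h4 => by simp [h4]⟩
    · refine ⟨a, h.trans h1, fun x hx => ?_, Or.inr (by simp)⟩
      rcases Multiset.mem_cons.1 hx with rfl | hx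
      · exact le_rfl
      · exact h.trans (h2 x hx)

lemma prod_le_prod_dist {R t : ℝ} (hR : 0 ≤ R) (ht0 : 0 ≤ t) (ht1 : t ≤ 1) {z : ℂ} (hz : ‖z‖ ≤ R)
    (s : Multiset ℂ) (hs : ∀ w ∈ s, t ≤ ‖z - w‖) :
    (s.map fun a => max 1 ‖a‖).prod * (t / (R + 1)) ^ s.card ≤ (s.map fun w => ‖z - w‖).prod := by
  induction s using Multiset.induction_on with
  | empty => simp
  | cons a s ih =>
    have h1 := ih fun w hw => hs w (Multiset.mem_cons_of_mem hw)
    have h2 : max 1 ‖a‖ * (t / (R + 1)) ≤ ‖z - a‖ := by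
      have hR1 : 0 < R + 1 := by linarith
      rw [← mul_div_assoc, div_le_iff₀ hR1]
      have h3 := hs a (Multiset.mem_cons_self _ _)
      rcases le_total ‖a‖ (R + 1) with h | h
      · have : max 1 ‖a‖ ≤ R + 1 := max_le (by linarith) h
        nlinarith
      · have h4 : ‖a‖ - R ≤ ‖z - a‖ := by
          have := norm_sub_norm_le a z
          rw [norm_sub_rev] at this
          linarith
        rw [max_eq_right (by linarith)]
        nlinarith
    simp only [Multiset.map_cons, Multiset.prod_cons, Multiset.card_cons]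
    calc max 1 ‖a‖ * (s.map fun a => max 1 ‖a‖).prod * (t / (R + 1)) ^ (s.card + 1)
        = (max 1 ‖a‖ * (t / (R + 1))) *
          ((s.map fun a => max 1 ‖a‖).prod * (t / (R + 1)) ^ s.card) := by ring
      _ ≤ _ := by
        refine mul_le_mul h2 h1 (mul_nonneg ?_ (by positivity)) (norm_nonneg _)
        exact zero_le_one.trans (Multiset.one_le_prod (by simp))

open Polynomial in
lemma coeff_mul_le {R t : ℝ} (hR : 0 ≤ R) (ht0 : 0 ≤ t) (ht1 : t ≤ 1) {z : ℂ} (hz : ‖z‖ ≤ R)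
    {d : ℕ} (p : ℂ[X]) (hp : p.natDegree ≤ d) (hs : ∀ w ∈ p.roots, t ≤ ‖z - w‖) (k : ℕ) :
    ‖p.coeff k‖ * t ^ d ≤ (2 * (R + 1)) ^ d * ‖p.eval z‖ := by
  have hR1 : 0 < R + 1 := by linarith
  have h1 := norm_coeff_le_choose_mul_mahlerMeasure k p
  have h2 : ((p.natDegree.choose k : ℕ) : ℝ) ≤ 2 ^ d := by
    have := (Nat.choose_le_two_pow p.natDegree k).trans (Nat.pow_le_pow_right two_pos hp)
    exact_mod_cast this
  have h3 := prod_le_prod_dist hR ht0 ht1 hz p.roots hs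
  have h4 : ‖p.eval z‖ = ‖p.leadingCoeff‖ * (p.roots.map fun w => ‖z - w‖).prod := by
    rw [(IsAlgClosed.splits p).eval_eq_prod_roots, norm_mul]
    congr 1
    have := map_multiset_prod (normHom : ℂ →*₀ ℝ) (p.roots.map fun w => z - w)
    simpa using this
  have h5 : (t / (R + 1)) ^ d ≤ (t / (R + 1)) ^ p.roots.card :=
    pow_le_pow_of_le_one (by positivity) ((div_le_one hR1).2 (by linarith))
      ((card_roots' p).trans hp)
  have h6 : p.mahlerMeasure * (t / (R + 1)) ^ d ≤ ‖p.eval z‖ := by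
    rw [h4, mahlerMeasure_eq_leadingCoeff_mul_prod_roots, mul_assoc]
    refine mul_le_mul_of_nonneg_left (le_trans ?_ h3) (norm_nonneg _)
    exact mul_le_mul_of_nonneg_left h5 (zero_le_one.trans (one_le_prod_max_one_norm_roots p))
  have h7 : t ^ d = (R + 1) ^ d * (t / (R + 1)) ^ d := by
    rw [← mul_pow]; congr 1; field_simp
  have h8 := p.mahlerMeasure_nonneg
  calc ‖p.coeff k‖ * t ^ d ≤ 2 ^ d * p.mahlerMeasure * t ^ d := by
        gcongr
        exact h1.trans (by gcongr)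
    _ = (2 * (R + 1)) ^ d * (p.mahlerMeasure * (t / (R + 1)) ^ d) := by rw [h7, mul_pow]; ring
    _ ≤ _ := by gcongr

open Polynomial in
/-- one variable -/
theorem pol_one {c R : ℝ} {d : ℕ} (hc : 0 < c) (hcd : c * d < 2) (hR : 0 ≤ R) :
    ∃ C : ℝ≥0∞, C ≠ ⊤ ∧ ∀ p : ℂ[X], p.natDegree ≤ d → ∀ k,
      ∫⁻ z in closedBall (0 : ℂ) R, ‖p.eval z‖ₑ ^ (-c) ≤ C * ‖p.coeff k‖ₑ ^ (-c) := by
  obtain ⟨C, hC, hk⟩ := lint_ker (s := c * d) (by positivity) hcd R
  set A : ℝ≥0∞ := ENNReal.ofReal ((2 * (R + 1)) ^ d) with hA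
  have hA0 : A ≠ 0 := by
    rw [hA, ne_eq, ENNReal.ofReal_eq_zero, not_le]; positivity
  have hAc : A ^ c ≠ ⊤ := ENNReal.rpow_ne_top_of_nonneg hc.le ENNReal.ofReal_ne_top
  have hAc0 : A ^ c ≠ 0 := (ENNReal.rpow_pos (pos_iff_ne_zero.2 hA0) ENNReal.ofReal_ne_top).ne'
  refine ⟨A ^ c * (volume (closedBall (0 : ℂ) R) + d * C), ENNReal.mul_ne_top hAc
    (ENNReal.add_ne_top.2 ⟨measure_closedBall_lt_top.ne, ENNReal.mul_ne_top (by simp) hC⟩),
    fun p hp k => ?_⟩
  have hsum : ∀ s : Multiset ℂ,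
      Measurable (fun z : ℂ => (s.map fun w => ‖z - w‖ₑ ^ (-(c * d))).sum) ∧
      ∫⁻ z in closedBall (0 : ℂ) R, (s.map fun w => ‖z - w‖ₑ ^ (-(c * d))).sum ≤ s.card * C := by
    intro s
    induction s using Multiset.induction_on with
    | empty => simp
    | cons a s ih =>
      have hm : Measurable fun z : ℂ => ‖z - a‖ₑ ^ (-(c * d)) := by fun_prop
      simp only [Multiset.map_cons, Multiset.sum_cons, Multiset.card_cons]
      refine ⟨hm.add ih.1, ?_⟩
      rw [lintegral_add_left hm, Nat.cast_succ, add_mul, one_mul, add_comm]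
      exact add_le_add ih.2 (hk a)
  have hpt : ∀ z ∈ closedBall (0 : ℂ) R, ‖p.eval z‖ₑ ^ (-c) ≤ A ^ c * ‖p.coeff k‖ₑ ^ (-c) *
      (1 + (p.roots.map fun w => ‖z - w‖ₑ ^ (-(c * d))).sum) := by
    intro z hz
    obtain ⟨t, h1, h2, h3⟩ := exists_min (p.roots.map fun w => ‖z - w‖)
    have ht0 : 0 ≤ t := by
      rcases h3 with h3 | h3
      · linarith
      · obtain ⟨w, -, hw⟩ := Multiset.mem_map.1 h3
        exact hw ▸ norm_nonneg _
    have h4 := coeff_mul_le hR ht0 h1 (by simpa using hz) p hp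
      (fun w hw => h2 _ (Multiset.mem_map_of_mem _ hw)) k
    have h5 : ‖p.coeff k‖ₑ * ENNReal.ofReal t ^ d ≤ A * ‖p.eval z‖ₑ := by
      rw [← ofReal_norm, ← ofReal_norm, hA, ← ENNReal.ofReal_pow ht0,
        ← ENNReal.ofReal_mul (norm_nonneg _), ← ENNReal.ofReal_mul (by positivity)]
      exact ENNReal.ofReal_le_ofReal h4
    refine (rpow_neg_le_of_le_mul hc.le hA0 ENNReal.ofReal_ne_top h5).trans ?_
    rw [ENNReal.mul_rpow_of_ne_top enorm_ne_top (ENNReal.pow_ne_top ENNReal.ofReal_ne_top),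
      ← mul_assoc, ← ENNReal.rpow_natCast_mul]
    gcongr
    rcases h3 with h3 | h3
    · simp [h3]
    · obtain ⟨w, hw, hw'⟩ := Multiset.mem_map.1 h3
      refine le_add_left ?_
      have e : (d : ℝ) * -c = -(c * d) := by ring
      rw [← hw', ofReal_norm, e]
      exact Multiset.single_le_sum (fun _ _ => zero_le) _ (Multiset.mem_map_of_mem _ hw)
  refine (setLIntegral_mono' measurableSet_closedBall hpt).trans ?_
  rw [lintegral_const_mul _ ((hsum _).1.const_add 1),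
    lintegral_add_left measurable_const, mul_right_comm]
  gcongr
  · simp
  · refine (hsum _).2.trans ?_
    gcongr
    exact (card_roots' p).trans hp

/-- Tonelli for the first coordinate of a power -/
lemma lintegral_pi_succ {Ω : Type*} [MeasurableSpace Ω] {μ : Measure Ω} [SigmaFinite μ] {n : ℕ}
    {F : (Fin (n + 1) → Ω) → ℝ≥0∞} (hF : Measurable F) :
    ∫⁻ z, F z ∂(Measure.pi fun _ => μ) =
      ∫⁻ s, ∫⁻ y, F (Fin.cons y s) ∂μ ∂(Measure.pi fun _ : Fin n => μ) := by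
  have hme := (measurePreserving_piFinSuccAbove (fun _ : Fin (n + 1) => μ) 0).symm
  rw [← hme.lintegral_comp hF]
  refine (lintegral_prod_symm _ (hF.comp hme.measurable).aemeasurable).trans ?_
  refine lintegral_congr fun s => lintegral_congr fun y => ?_
  simp [MeasurableEquiv.piFinSuccAbove, Fin.consEquiv]

open MvPolynomial in
lemma measurable_eval {ι : Type*} [Fintype ι] (P : MvPolynomial ι ℂ) :
    Measurable fun z : ι → ℂ => eval z P := (continuous_eval P).measurable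

open MvPolynomial in
/-- several variables, product measure form -/
theorem pol_pi {c : ℝ} {d : ℕ} {μ : Measure ℂ} [SigmaFinite μ] {C : ℝ≥0∞}
    (h : ∀ p : Polynomial ℂ, p.natDegree ≤ d → ∀ k,
      ∫⁻ z, ‖p.eval z‖ₑ ^ (-c) ∂μ ≤ C * ‖p.coeff k‖ₑ ^ (-c)) (n : ℕ) :
    ∀ P : MvPolynomial (Fin n) ℂ, (∀ j, degreeOf j P ≤ d) → ∀ m,
      ∫⁻ z, ‖eval z P‖ₑ ^ (-c) ∂(Measure.pi fun _ : Fin n => μ) ≤
        C ^ n * ‖coeff m P‖ₑ ^ (-c) := by
  induction n with
  | zero =>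
    intro P _ m
    obtain ⟨a, rfl⟩ := MvPolynomial.C_surjective (Fin 0) P
    have hm : m = 0 := Subsingleton.elim _ _
    simp [hm]
  | succ n ih =>
    intro P hP m
    have hF : Measurable fun z : Fin (n + 1) → ℂ => ‖eval z P‖ₑ ^ (-c) :=
      (measurable_eval P).enorm.pow_const _
    rw [lintegral_pi_succ hF]
    set Q := Polynomial.coeff (finSuccEquiv ℂ n P) (m 0) with hQ
    calc _ ≤ ∫⁻ s, C * ‖eval s Q‖ₑ ^ (-c) ∂(Measure.pi fun _ : Fin n => μ) := by
          refine lintegral_mono fun s => ?_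
          have h1 := h (Polynomial.map (eval s) (finSuccEquiv ℂ n P))
            (Polynomial.natDegree_map_le.trans ((natDegree_finSuccEquiv P).trans_le (hP 0))) (m 0)
          rw [Polynomial.coeff_map] at h1
          refine le_trans (le_of_eq (lintegral_congr fun y => ?_)) h1
          rw [← eval_eq_eval_mv_eval']
      _ ≤ _ := by
          rw [lintegral_const_mul _ ((measurable_eval Q).enorm.pow_const _), pow_succ', mul_assoc]
          gcongr
          refine (ih Q (fun j => (degreeOf_coeff_finSuccEquiv P j _).trans (hP _)) m.tail).trans ?_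
          rw [hQ, finSuccEquiv_coeff_coeff, Finsupp.cons_tail]

open MvPolynomial in
/-- negative powers of polynomials on polydiscs -/
theorem pol_fin {c R : ℝ} {d : ℕ} (hc : 0 < c) (hcd : c * d < 2) (hR : 0 ≤ R) (n : ℕ) :
    ∃ C : ℝ≥0∞, C ≠ ⊤ ∧ ∀ P : MvPolynomial (Fin n) ℂ, (∀ j, degreeOf j P ≤ d) → ∀ m,
      ∫⁻ z in closedBall (0 : Fin n → ℂ) R, ‖eval z P‖ₑ ^ (-c) ≤ C * ‖coeff m P‖ₑ ^ (-c) := by
  obtain ⟨C, hC, h⟩ := pol_one hc hcd hR
  refine ⟨C ^ n, ENNReal.pow_ne_top hC, fun P hP m => ?_⟩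
  have := pol_pi h n P hP m
  rw [← Measure.restrict_pi_pi, ← volume_pi] at this
  rwa [closedBall_pi (0 : Fin n → ℂ) hR]

open MvPolynomial in
/-- the same for any finite index type -/
theorem pol {ι : Type*} [Fintype ι] {c R : ℝ} {d : ℕ} (hc : 0 < c) (hcd : c * d < 2) (hR : 0 ≤ R) :
    ∃ C : ℝ≥0∞, C ≠ ⊤ ∧ ∀ P : MvPolynomial ι ℂ, P.totalDegree ≤ d → ∀ m,
      ∫⁻ z in closedBall (0 : ι → ℂ) R, ‖eval z P‖ₑ ^ (-c) ≤ C * ‖coeff m P‖ₑ ^ (-c) := by
  obtain ⟨C, hC, h⟩ := pol_fin hc hcd hR (Fintype.card ι)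
  refine ⟨C, hC, fun P hP m => ?_⟩
  set e := Fintype.equivFin ι
  have h1 := h (rename e P) (fun j => (degreeOf_le_totalDegree _ j).trans
    ((totalDegree_rename_le _ _).trans hP)) (m.mapDomain e)
  rw [coeff_rename_mapDomain _ e.injective] at h1
  refine le_trans (le_of_eq ?_) h1
  have hme := volume_measurePreserving_piCongrLeft (fun _ : ι => ℂ) e.symm
  have hpre : (MeasurableEquiv.piCongrLeft (fun _ : ι => ℂ) e.symm) ⁻¹' closedBall 0 R =
      closedBall 0 R := by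
    ext z
    simp only [mem_preimage, mem_closedBall_zero_iff, pi_norm_le_iff_of_nonneg hR]
    refine ⟨fun h j => ?_, fun h i => ?_⟩
    · simpa [MeasurableEquiv.piCongrLeft, Equiv.piCongrLeft_apply_eq_cast] using h (e.symm j)
    · simpa [MeasurableEquiv.piCongrLeft, Equiv.piCongrLeft_apply_eq_cast] using h (e i)
  rw [← (hme.restrict_preimage measurableSet_closedBall).lintegral_comp
    ((measurable_eval P).enorm.pow_const _), hpre]
  refine lintegral_congr fun z => ?_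
  have : (MeasurableEquiv.piCongrLeft (fun _ : ι => ℂ) e.symm) z = z ∘ e := by
    ext i
    simp [MeasurableEquiv.piCongrLeft, Equiv.piCongrLeft_apply_eq_cast]
  rw [eval_rename, this]

end Pool.Agent.Lib.MP_5c318e_ag.N
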