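import Pool.Agent.Lib.MP_5c318e_ag.N.ChartU

/-! The determinant of the values of a frame at `r` points: upper and lower bounds for the integral
of its positive powers, integrability of its negative powers. -/

set_option autoImplicit false

namespace Pool.Agent.Lib.MP_5c318e_ag.N

open MeasureTheory Set Matrix
open scoped ENNReal

lemma enorm_le_pi_enorm {κ : Type*} [Fintype κ] (v : κ → ℂ) (i : κ) : ‖v i‖ₑ ≤ ‖v‖ₑ := by
  rw [← ofReal_norm, ← ofReal_norm]
  exact ENNReal.ofReal_le_ofReal (norm_le_pi_norm v i)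

lemma measurable_prod_apply {Ω α : Type*} [MeasurableSpace Ω] [Fintype α] {g : α → Ω → ℝ≥0∞}
    (hg : ∀ j, Measurable (g j)) : Measurable fun x : α → Ω => ∏ j, g j (x j) :=
  Finset.measurable_prod _ fun j _ => (hg j).comp (measurable_pi_apply j)

section Minor

variable {r j : ℕ}

/-- the largest maximal minor of `j` vectors -/
noncomputable def mm (w : Fin j → Fin r → ℂ) : ℝ≥0∞ :=
  ⨆ f : Fin j → Fin r, ‖(Matrix.of fun a b => w a (f b)).det‖ₑ

lemma mm_step (hj : j < r) (w : Fin j → Fin r → ℂ) :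
    ∃ ξ : Fin r → ℂ, mm w ≤ ‖ξ‖ₑ ∧ ∀ u, ‖ξ ⬝ᵥ u‖ₑ ≤ mm (Fin.cons u w : Fin (j + 1) → Fin r → ℂ) := by
  have : Nonempty (Fin r) := ⟨⟨j, hj⟩⟩
  obtain ⟨f, hf⟩ := Finite.exists_max
    fun f : Fin j → Fin r => ‖(Matrix.of fun a b => w a (f b)).det‖ₑ
  have hmm : mm w ≤ ‖(Matrix.of fun a b => w a (f b)).det‖ₑ := iSup_le hf
  obtain ⟨i0, hi0⟩ : ∃ i0, i0 ∉ Set.range f := by
    by_contra h
    push Not at h
    have := Fintype.card_le_of_surjective f h
    simp at this
    omega
  set f' : Fin (j + 1) → Fin r := Fin.cons i0 f with hf'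
  set mi : Fin (j + 1) → ℂ := fun b =>
    (-1) ^ (b : ℕ) * (Matrix.of fun a c => w a (f' (b.succAbove c))).det with hmi
  refine ⟨fun i => ∑ b, if f' b = i then mi b else 0, hmm.trans ?_, fun u => ?_⟩
  · refine le_trans (le_of_eq ?_) (enorm_le_pi_enorm _ i0)
    congr 1
    rw [Fin.sum_univ_succ, Finset.sum_eq_zero (f := fun b : Fin j =>
      if f' b.succ = i0 then mi b.succ else 0) fun b _ => if_neg (fun h => hi0 ⟨b, h⟩)]
    simp [hf', hmi]
  · refine le_trans (le_of_eq ?_) (le_iSup (fun g : Fin (j + 1) → Fin r => ‖(Matrix.of fun a b =>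
      (Fin.cons u w : Fin (j + 1) → Fin r → ℂ) a (g b)).det‖ₑ) f')
    congr 1
    rw [det_succ_row_zero]
    simp only [dotProduct, Finset.sum_mul, ite_mul, zero_mul]
    rw [Finset.sum_comm]
    refine Finset.sum_congr rfl fun b _ => ?_
    rw [Finset.sum_ite_eq, if_pos (Finset.mem_univ _), hmi]
    simp only [of_apply, Fin.cons_zero]
    rw [mul_right_comm]
    congr 2

lemma mm_top (w : Fin r → Fin r → ℂ) : mm w = ‖(Matrix.of w).det‖ₑ := by
  refine le_antisymm (iSup_le fun f => ?_) (le_iSup (fun f : Fin r → Fin r =>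
    ‖(Matrix.of fun a b => w a (f b)).det‖ₑ) id)
  by_cases hf : Function.Injective f
  · have := det_permute' (Equiv.ofBijective f (Finite.injective_iff_bijective.1 hf)) (Matrix.of w)
    refine le_of_eq ((congrArg enorm this).trans ?_)
    rcases Int.units_eq_one_or (Equiv.Perm.sign
      (Equiv.ofBijective f (Finite.injective_iff_bijective.1 hf))) with h | h <;> simp [h]
  · obtain ⟨a, b, h1, h2⟩ := Function.not_injective_iff.1 hf
    rw [det_zero_of_column_eq h2 fun k => by simp [h1]]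
    simp

lemma mm_perm (w : Fin j → Fin r → ℂ) (σ : Equiv.Perm (Fin j)) : mm (fun a => w (σ a)) = mm w := by
  refine iSup_congr fun f => ?_
  have := det_permute σ (Matrix.of fun a b => w a (f b))
  refine (congrArg enorm this).trans ?_
  rcases Int.units_eq_one_or (Equiv.Perm.sign σ) with h | h <;> simp [h]

lemma mm_zero (w : Fin 0 → Fin r → ℂ) : mm w = 1 := by simp [mm]

lemma le_mm_one (w : Fin 1 → Fin r → ℂ) : ‖w 0‖ₑ ≤ mm w := by
  rw [← ofReal_norm, ENNReal.ofReal_le_iff_le_toReal, pi_norm_le_iff_of_nonneg ENNReal.toReal_nonneg]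
  · intro i
    rw [← toReal_enorm]
    refine ENNReal.toReal_mono ?_ (le_trans (le_of_eq (by simp)) (le_iSup (fun f : Fin 1 → Fin r =>
      ‖(Matrix.of fun a b => w a (f b)).det‖ₑ) fun _ => i))
    exact (iSup_lt_iff.2 ⟨∑ f : Fin 1 → Fin r, ‖(Matrix.of fun a b => w a (f b)).det‖ₑ,
      ENNReal.sum_lt_top.2 fun _ _ => enorm_lt_top, fun f => Finset.single_le_sum
        (f := fun f : Fin 1 → Fin r => ‖(Matrix.of fun a b => w a (f b)).det‖ₑ)
        (fun _ _ => zero_le) (Finset.mem_univ f)⟩).ne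
  · exact (iSup_lt_iff.2 ⟨∑ f : Fin 1 → Fin r, ‖(Matrix.of fun a b => w a (f b)).det‖ₑ,
      ENNReal.sum_lt_top.2 fun _ _ => enorm_lt_top, fun f => Finset.single_le_sum
        (f := fun f : Fin 1 → Fin r => ‖(Matrix.of fun a b => w a (f b)).det‖ₑ)
        (fun _ _ => zero_le) (Finset.mem_univ f)⟩).ne

lemma measurable_det {α n : Type*} [MeasurableSpace α] [Fintype n] [DecidableEq n]
    {A : α → n → n → ℂ} (h : ∀ a b, Measurable fun x => A x a b) :
    Measurable fun x => (Matrix.of (A x)).det := by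
  simp only [det_apply', of_apply]
  exact Finset.measurable_sum _ fun σ _ =>
    (Finset.measurable_prod _ fun i _ => h _ _).const_mul _

lemma measurable_mm {α : Type*} [MeasurableSpace α] {w : α → Fin j → Fin r → ℂ}
    (h : ∀ a b, Measurable fun x => w x a b) : Measurable fun x => mm (w x) :=
  Measurable.iSup fun f => (measurable_det (A := fun x a b => w x a (f b)) fun _ _ => h _ _).enorm

/-- crude Hadamard bound -/
lemma enorm_det_le {n : Type*} [Fintype n] [DecidableEq n] (w : n → n → ℂ) :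
    ‖(Matrix.of w).det‖ₑ ≤ (Fintype.card n).factorial * ∏ a, ‖w a‖ₑ := by
  rw [← det_transpose, det_apply']
  refine (enorm_sum_le _ _).trans ((Finset.sum_le_card_nsmul _ _ (∏ a, ‖w a‖ₑ) fun σ _ => ?_).trans
    (le_of_eq (by simp [Fintype.card_perm])))
  have h1 : ‖((Equiv.Perm.sign σ : ℤ) : ℂ)‖ₑ = 1 := by
    rcases Int.units_eq_one_or (Equiv.Perm.sign σ) with h | h <;> simp [h]
  rw [enorm_mul, h1, one_mul, ← ofReal_norm, norm_prod,
    ENNReal.ofReal_prod_of_nonneg fun _ _ => norm_nonneg _]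
  refine Finset.prod_le_prod' fun a _ => ?_
  rw [ofReal_norm]
  exact enorm_le_pi_enorm (w a) (σ a)

end Minor

variable {Ω : Type*} [MeasurableSpace Ω] {ν : Measure Ω} [SigmaFinite ν]

lemma lintegral_pi_prod_fin {n : ℕ} (g : Fin n → Ω → ℝ≥0∞) (hg : ∀ j, Measurable (g j)) :
    ∫⁻ x, ∏ j, g j (x j) ∂(Measure.pi fun _ => ν) = ∏ j, ∫⁻ y, g j y ∂ν := by
  induction n with
  | zero => simp
  | succ n ih =>
    rw [lintegral_pi_succ (measurable_prod_apply hg)]
    simp only [Fin.prod_univ_succ, Fin.cons_zero, Fin.cons_succ]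
    simp_rw [lintegral_mul_const _ (hg 0)]
    rw [lintegral_const_mul _ (measurable_prod_apply (g := fun j : Fin n => g j.succ)
      fun j => hg _), ih _ fun j => hg _]

/-- change of the index type of a power -/
lemma lintegral_pi_equiv {α β : Type*} [Fintype α] [Fintype β] (e : α ≃ β)
    {F : (β → Ω) → ℝ≥0∞} (hF : Measurable F) :
    ∫⁻ x, F x ∂(Measure.pi fun _ => ν) =
      ∫⁻ x : α → Ω, F (fun b => x (e.symm b)) ∂(Measure.pi fun _ => ν) := by
  rw [← (measurePreserving_piCongrLeft (fun _ : β => ν) e).lintegral_comp hF]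
  refine lintegral_congr fun x => ?_
  congr 1
  ext b
  simp [MeasurableEquiv.piCongrLeft, Equiv.piCongrLeft_apply_eq_cast]

lemma lintegral_pi_prod {α : Type*} [Fintype α] (g : α → Ω → ℝ≥0∞) (hg : ∀ j, Measurable (g j)) :
    ∫⁻ x, ∏ j, g j (x j) ∂(Measure.pi fun _ => ν) = ∏ j, ∫⁻ y, g j y ∂ν := by
  set e := (Fintype.equivFin α).symm
  rw [lintegral_pi_equiv e (measurable_prod_apply hg), ← e.prod_comp,
    ← lintegral_pi_prod_fin (fun j => g (e j)) fun j => hg _]
  refine lintegral_congr fun x => ?_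
  rw [← e.prod_comp]
  simp

variable {r : ℕ}

/-- the quasi-norm -/
noncomputable def nN {κ : Type*} [Fintype κ] (ν : Measure Ω) (τ : Ω → κ → ℂ) (p : ℝ) (a : κ → ℂ) :
    ℝ≥0∞ := ∫⁻ x, ‖a ⬝ᵥ τ x‖ₑ ^ p ∂ν

/-- the mass of the frame -/
noncomputable def nB {κ : Type*} [Fintype κ] (ν : Measure Ω) (τ : Ω → κ → ℂ) (p : ℝ) : ℝ≥0∞ :=
  ∫⁻ x, ‖τ x‖ₑ ^ p ∂ν

/-- the determinant of the values at `r` points -/
noncomputable def dt (τ : Ω → Fin r → ℂ) (x : Fin r → Ω) : ℂ := (Matrix.of fun j => τ (x j)).det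

/-- the norm of the determinant line -/
noncomputable def nD (ν : Measure Ω) (τ : Ω → Fin r → ℂ) (p : ℝ) : ℝ≥0∞ :=
  ∫⁻ x, ‖dt τ x‖ₑ ^ p ∂(Measure.pi fun _ => ν)

variable {τ : Ω → Fin r → ℂ} {p c : ℝ}

omit [SigmaFinite ν] in
lemma measurable_dt (hτ : Measurable τ) : Measurable (dt τ) :=
  measurable_det (A := fun (x : Fin r → Ω) j => τ (x j)) fun a b =>
    (measurable_pi_apply b).comp (hτ.comp (measurable_pi_apply a))

theorem nD_le (hτ : Measurable τ) (hp : 0 ≤ p) :
    nD ν τ p ≤ (r.factorial : ℝ≥0∞) ^ p * nB ν τ p ^ r := by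
  have hm : Measurable fun y => ‖τ y‖ₑ ^ p := hτ.enorm.pow_const _
  calc nD ν τ p ≤ ∫⁻ x : Fin r → Ω, (r.factorial : ℝ≥0∞) ^ p * ∏ j, ‖τ (x j)‖ₑ ^ p
        ∂(Measure.pi fun _ => ν) := by
        refine lintegral_mono fun x => ?_
        rw [ENNReal.prod_rpow_of_nonneg hp, ← ENNReal.mul_rpow_of_nonneg _ _ hp]
        exact ENNReal.rpow_le_rpow (by simpa [dt] using enorm_det_le fun j => τ (x j)) hp
    _ = _ := by
        rw [lintegral_const_mul _ (measurable_prod_apply (g := fun _ y => ‖τ y‖ₑ ^ p) fun _ => hm),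
          lintegral_pi_prod (fun _ y => ‖τ y‖ₑ ^ p) fun _ => hm]
        simp [nB]

omit [MeasurableSpace Ω] in
lemma comp_cons {k : ℕ} (y : Ω) (s : Fin k → Ω) :
    (fun j => τ ((Fin.cons y s : Fin (k + 1) → Ω) j)) =
      (Fin.cons (τ y) fun j => τ (s j) : Fin (k + 1) → Fin r → ℂ) := by
  ext1 j
  refine Fin.cases rfl (fun _ => rfl) j

theorem le_nD (hτ : Measurable τ) (hp : 0 ≤ p) {C : ℝ≥0∞}
    (h : ∀ a, C * ‖a‖ₑ ^ p ≤ nN ν τ p a) : C ^ r ≤ nD ν τ p := by
  have hm : ∀ k, Measurable fun x : Fin k → Ω => mm (fun j => τ (x j)) ^ p := fun k =>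
    (measurable_mm fun a b =>
      (measurable_pi_apply b).comp (hτ.comp (measurable_pi_apply a))).pow_const _
  have key : ∀ k, k ≤ r →
      C ^ k ≤ ∫⁻ x : Fin k → Ω, mm (fun j => τ (x j)) ^ p ∂(Measure.pi fun _ => ν) := by
    intro k
    induction k with
    | zero => intro _; simp [mm_zero]
    | succ k ih =>
      intro hk
      rw [lintegral_pi_succ (hm _), pow_succ']
      refine (mul_le_mul_right (ih (by omega)) C).trans ?_
      rw [← lintegral_const_mul _ (hm _)]
      refine lintegral_mono fun s => ?_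
      obtain ⟨ξ, h1, h2⟩ := mm_step (by omega : k < r) fun j => τ (s j)
      refine (mul_le_mul_right (ENNReal.rpow_le_rpow h1 hp) C).trans ((h ξ).trans ?_)
      refine lintegral_mono fun y => ?_
      rw [comp_cons]
      exact ENNReal.rpow_le_rpow (h2 _) hp
  simpa only [mm_top, nD, dt] using key r le_rfl

omit [SigmaFinite ν] in
/-- one more point -/
lemma Lct.step {C : ℝ≥0∞} (hc : 0 < c) (hC : C ≠ 0) (h : Lct ν τ p c C) {j : ℕ} (hj : j < r)
    (w : Fin j → Fin r → ℂ) :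
    ∫⁻ y, ‖τ y‖ₑ ^ (p + c) * mm (Fin.cons (τ y) w : Fin (j + 1) → Fin r → ℂ) ^ (-c) ∂ν ≤
      C * mm w ^ (-c) := by
  obtain ⟨ξ, h1, h2⟩ := mm_step hj w
  by_cases h0 : ξ = 0
  · have : mm w = 0 := by simpa [h0] using h1
    simp [this, ENNReal.zero_rpow_of_neg (neg_lt_zero.2 hc), hC]
  refine le_trans (lintegral_mono fun y => ?_)
    ((h ξ h0).trans (mul_le_mul_right (rpow_neg_anti hc.le h1) _))
  exact mul_le_mul_right (rpow_neg_anti hc.le (h2 _)) _

/-- negative powers of the determinant -/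
theorem Lct.det {C : ℝ≥0∞} (hτ : Measurable τ) (hc : 0 < c) (hC : C ≠ 0) (h : Lct ν τ p c C) :
    ∫⁻ x : Fin r → Ω, (∏ j, ‖τ (x j)‖ₑ ^ (p + c)) * ‖dt τ x‖ₑ ^ (-c) ∂(Measure.pi fun _ => ν) ≤
      C ^ r := by
  have hm : ∀ k, Measurable fun x : Fin k → Ω =>
      (∏ j, ‖τ (x j)‖ₑ ^ (p + c)) * mm (fun j => τ (x j)) ^ (-c) := fun k =>
    (Finset.measurable_prod _ fun j _ =>
      (hτ.comp (measurable_pi_apply j)).enorm.pow_const _).mul ((measurable_mm fun a b =>
      (measurable_pi_apply b).comp (hτ.comp (measurable_pi_apply a))).pow_const _)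
  have key : ∀ k, k ≤ r → ∫⁻ x : Fin k → Ω, (∏ j, ‖τ (x j)‖ₑ ^ (p + c)) *
      mm (fun j => τ (x j)) ^ (-c) ∂(Measure.pi fun _ => ν) ≤ C ^ k := by
    intro k
    induction k with
    | zero => intro _; simp [mm_zero]
    | succ k ih =>
      intro hk
      rw [lintegral_pi_succ (hm _), pow_succ']
      refine le_trans ?_ (mul_le_mul_right (ih (by omega)) C)
      rw [← lintegral_const_mul _ (hm _)]
      refine lintegral_mono fun s => ?_
      have h1 := h.step hc hC (by omega : k < r) fun j => τ (s j)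
      have hm1 : Measurable fun y => ‖τ y‖ₑ ^ (p + c) *
          mm (Fin.cons (τ y) fun j => τ (s j) : Fin (k + 1) → Fin r → ℂ) ^ (-c) :=
        (hτ.enorm.pow_const _).mul ((measurable_mm fun a b => by
          refine Fin.cases ?_ (fun _ => measurable_const) a
          exact (measurable_pi_apply b).comp hτ).pow_const _)
      rw [mul_left_comm]
      refine le_trans (le_of_eq ?_) (mul_le_mul_right h1 _)
      rw [← lintegral_const_mul _ hm1]
      refine lintegral_congr fun y => ?_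
      rw [comp_cons, Fin.prod_univ_succ]
      simp only [Fin.cons_zero, Fin.cons_succ]
      ring
  simpa only [mm_top, nD, dt] using key r le_rfl

/-- the same with the first vector fixed -/
theorem Lct.det_cons {k : ℕ} {τ : Ω → Fin (k + 1) → ℂ} {C : ℝ≥0∞} (hτ : Measurable τ) (hc : 0 < c)
    (hC : C ≠ 0) (h : Lct ν τ p c C) (v : Fin (k + 1) → ℂ) :
    ∫⁻ x : Fin k → Ω, (∏ j, ‖τ (x j)‖ₑ ^ (p + c)) *
      ‖(Matrix.of (Fin.cons v fun j => τ (x j) : Fin (k + 1) → Fin (k + 1) → ℂ)).det‖ₑ ^ (-c)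
      ∂(Measure.pi fun _ => ν) ≤ C ^ k * ‖v‖ₑ ^ (-c) := by
  have hms : ∀ (l : ℕ) (a : Fin (l + 1)) (b : Fin (k + 1)), Measurable fun x : Fin l → Ω =>
      (Fin.snoc (fun j => τ (x j)) v : Fin (l + 1) → Fin (k + 1) → ℂ) a b := by
    intro l a b
    refine Fin.lastCases ?_ (fun a => ?_) a
    · simp only [Fin.snoc_last]
      exact measurable_const
    · simp only [Fin.snoc_castSucc]
      exact (measurable_pi_apply b).comp (hτ.comp (measurable_pi_apply a))
  have hm : ∀ l, Measurable fun x : Fin l → Ω => (∏ j, ‖τ (x j)‖ₑ ^ (p + c)) *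
      mm (Fin.snoc (fun j => τ (x j)) v : Fin (l + 1) → Fin (k + 1) → ℂ) ^ (-c) := fun l =>
    (Finset.measurable_prod _ fun j _ => (hτ.comp (measurable_pi_apply j)).enorm.pow_const _).mul
      ((measurable_mm (hms l)).pow_const _)
  have key : ∀ l, l ≤ k → ∫⁻ x : Fin l → Ω, (∏ j, ‖τ (x j)‖ₑ ^ (p + c)) *
      mm (Fin.snoc (fun j => τ (x j)) v : Fin (l + 1) → Fin (k + 1) → ℂ) ^ (-c)
      ∂(Measure.pi fun _ => ν) ≤ C ^ l * ‖v‖ₑ ^ (-c) := by
    intro l
    induction l with
    | zero =>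
      intro _
      simp only [Finset.univ_eq_empty, Finset.prod_empty, one_mul, pow_zero]
      refine (lintegral_mono fun x => rpow_neg_anti hc.le (y := mm _) (x := ‖v‖ₑ) ?_).trans
        (by simp)
      exact le_mm_one (Fin.snoc (fun j => τ (x j)) v)
    | succ l ih =>
      intro hl
      rw [lintegral_pi_succ (hm _), pow_succ', mul_assoc]
      refine le_trans ?_ (mul_le_mul_right (ih (by omega)) C)
      rw [← lintegral_const_mul _ (hm _)]
      refine lintegral_mono fun s => ?_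
      have h1 := h.step hc hC (by omega : l + 1 < k + 1) (Fin.snoc (fun j => τ (s j)) v)
      have hm1 : Measurable fun y => ‖τ y‖ₑ ^ (p + c) * mm (Fin.cons (τ y)
          (Fin.snoc (fun j => τ (s j)) v) : Fin (l + 1 + 1) → Fin (k + 1) → ℂ) ^ (-c) :=
        (hτ.enorm.pow_const _).mul ((measurable_mm fun a b => by
          refine Fin.cases ?_ (fun _ => measurable_const) a
          exact (measurable_pi_apply b).comp hτ).pow_const _)
      rw [mul_left_comm]
      refine le_trans (le_of_eq ?_) (mul_le_mul_right h1 _)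
      rw [← lintegral_const_mul _ hm1]
      refine lintegral_congr fun y => ?_
      rw [comp_cons, Fin.prod_univ_succ, ← Fin.cons_snoc_eq_snoc_cons]
      simp only [Fin.cons_zero, Fin.cons_succ]
      ring
  refine le_trans (le_of_eq (lintegral_congr fun x => ?_)) (key k le_rfl)
  rw [Fin.snoc_eq_cons_rotate, mm_perm, mm_top]

end Pool.Agent.Lib.MP_5c318e_ag.N
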