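import Pool.Agent.Lib.MP_5c318e_ag.N.Det

/-! Change of frame, normalised frames, Hoelder bounds with a negative power, Gram determinants. -/

set_option autoImplicit false

namespace Pool.Agent.Lib.MP_5c318e_ag.N

open MeasureTheory Set Matrix Metric Filter Topology
open scoped ENNReal

variable {Ω : Type*} [MeasurableSpace Ω] {ν : Measure Ω} {p : ℝ}

section General

variable {κ : Type*} [Fintype κ] {τ : Ω → κ → ℂ}

omit [MeasurableSpace Ω] in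
lemma enorm_dot_le (a v : κ → ℂ) : ‖a ⬝ᵥ v‖ₑ ≤ Fintype.card κ * ‖a‖ₑ * ‖v‖ₑ := by
  refine (enorm_sum_le _ _).trans ((Finset.sum_le_card_nsmul _ _ (‖a‖ₑ * ‖v‖ₑ) fun i _ => ?_).trans
    (le_of_eq (by simp [mul_assoc])))
  rw [enorm_mul]
  exact mul_le_mul' (enorm_le_pi_enorm a i) (enorm_le_pi_enorm v i)

lemma measurable_dot (hτ : Measurable τ) (a : κ → ℂ) : Measurable fun x => a ⬝ᵥ τ x :=
  Finset.measurable_sum _ fun i _ => ((measurable_pi_apply i).comp hτ).const_mul _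

lemma nN_le (hp : 0 ≤ p) (a : κ → ℂ) :
    nN ν τ p a ≤ (Fintype.card κ * ‖a‖ₑ) ^ p * nB ν τ p := by
  rw [nB, ← lintegral_const_mul' _ _ (ENNReal.rpow_ne_top_of_nonneg hp
    (ENNReal.mul_ne_top (by simp) enorm_ne_top))]
  refine lintegral_mono fun x => ?_
  rw [← ENNReal.mul_rpow_of_nonneg _ _ hp]
  exact ENNReal.rpow_le_rpow (enorm_dot_le _ _) hp

lemma nN_ne_top (hp : 0 ≤ p) (hB : nB ν τ p ≠ ⊤) (a : κ → ℂ) : nN ν τ p a ≠ ⊤ :=
  ne_top_of_le_ne_top (ENNReal.mul_ne_top (ENNReal.rpow_ne_top_of_nonneg hp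
    (ENNReal.mul_ne_top (by simp) enorm_ne_top)) hB) (nN_le hp a)

lemma nN_smul (hp : 0 ≤ p) (s : ℂ) (a : κ → ℂ) : nN ν τ p (s • a) = ‖s‖ₑ ^ p * nN ν τ p a := by
  rw [nN, nN, ← lintegral_const_mul' _ _ (ENNReal.rpow_ne_top_of_nonneg hp enorm_ne_top)]
  refine lintegral_congr fun x => ?_
  rw [smul_dotProduct, enorm_smul, ENNReal.mul_rpow_of_nonneg _ _ hp]

lemma nB_le_sum [DecidableEq κ] (hτ : Measurable τ) (hp : 0 < p) :
    nB ν τ p ≤ ∑ i, nN ν τ p (Pi.single i 1) := by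
  simp only [nN, nB]
  rw [← lintegral_finsetSum _ fun i _ => (measurable_dot hτ _).enorm.pow_const _]
  refine lintegral_mono fun x => ?_
  rcases isEmpty_or_nonempty κ with h | h
  · simp [Subsingleton.elim (τ x) 0, ENNReal.zero_rpow_of_pos hp]
  obtain ⟨i, hi⟩ := Finite.exists_max fun i => ‖τ x i‖
  refine le_trans ?_ (Finset.single_le_sum
    (f := fun i => ‖(Pi.single i 1 : κ → ℂ) ⬝ᵥ τ x‖ₑ ^ p) (fun _ _ => zero_le) (Finset.mem_univ i))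
  refine ENNReal.rpow_le_rpow ?_ hp.le
  rw [single_one_dotProduct, ← ofReal_norm, ← ofReal_norm]
  exact ENNReal.ofReal_le_ofReal ((pi_norm_le_iff_of_nonneg (norm_nonneg _)).2 hi)

lemma continuous_nN (hτ : Measurable τ) (hp : 0 ≤ p) (hB : nB ν τ p ≠ ⊤) :
    Continuous (nN ν τ p) := by
  refine continuous_iff_continuousAt.2 fun a => ?_
  refine tendsto_lintegral_filter_of_dominated_convergence
    (fun x => (Fintype.card κ * (‖a‖ₑ + 1)) ^ p * ‖τ x‖ₑ ^ p)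
    (Eventually.of_forall fun b => (measurable_dot hτ b).enorm.pow_const _) ?_ ?_
    (Eventually.of_forall fun x => ?_)
  · have : ∀ᶠ b in 𝓝 a, ‖b‖ₑ < ‖a‖ₑ + 1 :=
      continuous_enorm.continuousAt.eventually
        (gt_mem_nhds (ENNReal.lt_add_right enorm_ne_top one_ne_zero))
    filter_upwards [this] with b hb
    refine Eventually.of_forall fun x => ?_
    rw [← ENNReal.mul_rpow_of_nonneg _ _ hp]
    refine ENNReal.rpow_le_rpow ((enorm_dot_le _ _).trans ?_) hp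
    gcongr
  · have h1 : (Fintype.card κ * (‖a‖ₑ + 1) : ℝ≥0∞) ^ p ≠ ⊤ := ENNReal.rpow_ne_top_of_nonneg hp
      (ENNReal.mul_ne_top (by simp) (by simp))
    rw [lintegral_const_mul' _ _ h1]
    exact ENNReal.mul_ne_top h1 hB
  · have : Continuous fun b : κ → ℂ => ‖b ⬝ᵥ τ x‖ₑ ^ p :=
      ENNReal.continuous_rpow_const.comp
        ((continuous_id.dotProduct continuous_const).enorm)
    exact this.continuousAt

lemma exists_le_nN (hτ : Measurable τ) (hp : 0 < p) (hB : nB ν τ p ≠ ⊤)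
    (hN : ∀ a, a ≠ 0 → nN ν τ p a ≠ 0) :
    ∃ ε : ℝ≥0∞, ε ≠ 0 ∧ ∀ a, ε * ‖a‖ₑ ^ p ≤ nN ν τ p a := by
  obtain ⟨ε, h0, h1⟩ : ∃ ε : ℝ≥0∞, ε ≠ 0 ∧ ∀ a ∈ sphere (0 : κ → ℂ) 1, ε ≤ nN ν τ p a := by
    rcases (sphere (0 : κ → ℂ) 1).eq_empty_or_nonempty with h | h
    · exact ⟨1, one_ne_zero, by simp [h]⟩
    obtain ⟨a, ha, hm⟩ := (isCompact_sphere (0 : κ → ℂ) 1).exists_isMinOn h
      (continuous_nN hτ hp.le hB).continuousOn
    exact ⟨_, hN a (by rintro rfl; simp at ha), fun b hb => hm hb⟩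
  refine ⟨ε, h0, fun a => ?_⟩
  by_cases ha : a = 0
  · simp [ha, ENNReal.zero_rpow_of_pos hp]
  have hn : 0 < ‖a‖ := norm_pos_iff.2 ha
  have h2 := h1 (((‖a‖ : ℂ))⁻¹ • a) (by
    rw [mem_sphere_zero_iff_norm, norm_smul, norm_inv, Complex.norm_real, norm_norm,
      inv_mul_cancel₀ hn.ne'])
  have h3 : a = (‖a‖ : ℂ) • ((‖a‖ : ℂ))⁻¹ • a := by
    rw [smul_inv_smul₀ (by exact_mod_cast hn.ne')]
  conv_rhs => rw [h3, nN_smul hp.le]
  rw [mul_comm, ← ofReal_norm (‖a‖ : ℂ), Complex.norm_real, norm_norm, ofReal_norm]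
  gcongr

/-- Hoelder inequality against a negative power of a weight -/
lemma holder_neg {F W : Ω → ℝ≥0∞} (hF : AEMeasurable F ν) (hW : AEMeasurable W ν)
    (hWt : ∀ x, W x ≠ ⊤) {q : ℝ} (hp : 0 < p) (hpq : p ≤ q)
    (h0 : ∀ᵐ x ∂ν, W x = 0 → F x = 0 ∨ ∫⁻ y, W y ^ p ∂ν ≠ 0) :
    ∫⁻ x, F x ^ p ∂ν ≤
      (∫⁻ x, F x ^ q * W x ^ (-(q - p)) ∂ν) ^ (p / q) * (∫⁻ x, W x ^ p ∂ν) ^ (1 - p / q) := by
  have hq : 0 < q := hp.trans_le hpq
  rcases hpq.eq_or_lt with rfl | hlt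
  · simp [hp.ne']
  have h1 : 0 < p / q := div_pos hp hq
  have h2 : 0 < 1 - p / q := sub_pos.2 ((div_lt_one hq).2 hlt)
  have hm : AEMeasurable (fun x => F x ^ q * W x ^ (-(q - p))) ν :=
    (hF.pow_const _).mul (hW.pow_const _)
  have key : (∀ᵐ x ∂ν, W x = 0 → F x = 0) → ∫⁻ x, F x ^ p ∂ν ≤
      (∫⁻ x, F x ^ q * W x ^ (-(q - p)) ∂ν) ^ (p / q) * (∫⁻ x, W x ^ p ∂ν) ^ (1 - p / q) := by
    intro h
    refine le_trans (lintegral_mono_ae ?_) (ENNReal.lintegral_mul_norm_pow_le hm (hW.pow_const p)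
      h1.le h2.le (by ring))
    filter_upwards [h] with x hx
    by_cases hw : W x = 0
    · simp [hx hw, ENNReal.zero_rpow_of_pos hp]
    rw [ENNReal.mul_rpow_of_nonneg _ _ h1.le, ← ENNReal.rpow_mul, ← ENNReal.rpow_mul,
      ← ENNReal.rpow_mul, mul_assoc, ← ENNReal.rpow_add _ _ hw (hWt x)]
    have e1 : q * (p / q) = p := by field_simp
    have e2 : -(q - p) * (p / q) + p * (1 - p / q) = 0 := by field_simp; ring
    rw [e1, e2, ENNReal.rpow_zero, mul_one]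
  by_cases hz : ∫⁻ y, W y ^ p ∂ν = 0
  · exact key (by simpa [hz] using h0)
  by_cases ht : ∫⁻ x, F x ^ q * W x ^ (-(q - p)) ∂ν = ⊤
  · rw [ht, ENNReal.top_rpow_of_pos h1, ENNReal.top_mul
      (mt (ENNReal.rpow_eq_zero_iff_of_pos h2).1 hz)]
    exact le_top
  refine key ?_
  filter_upwards [ae_lt_top' hm ht] with x hx hw
  by_contra hf
  rw [hw, ENNReal.zero_rpow_of_neg (by linarith), ENNReal.mul_top (by simp [hf, hq, hq.le])] at hx
  exact lt_irrefl _ hx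

/-- the same after raising to the power `q / p` -/
lemma holder_neg' {F W : Ω → ℝ≥0∞} (hF : AEMeasurable F ν) (hW : AEMeasurable W ν)
    (hWt : ∀ x, W x ≠ ⊤) {q : ℝ} (hp : 0 < p) (hpq : p ≤ q)
    (h0 : ∀ᵐ x ∂ν, W x = 0 → F x = 0 ∨ ∫⁻ y, W y ^ p ∂ν ≠ 0) :
    (∫⁻ x, F x ^ p ∂ν) ^ (q / p) ≤
      (∫⁻ x, F x ^ q * W x ^ (-(q - p)) ∂ν) * (∫⁻ x, W x ^ p ∂ν) ^ (q / p - 1) := by
  have hq : 0 < q := hp.trans_le hpq
  have h1 : 0 ≤ q / p := (div_pos hq hp).le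
  refine (ENNReal.rpow_le_rpow (holder_neg hF hW hWt hp hpq h0) h1).trans (le_of_eq ?_)
  rw [ENNReal.mul_rpow_of_nonneg _ _ h1, ← ENNReal.rpow_mul, ← ENNReal.rpow_mul]
  have e1 : p / q * (q / p) = 1 := by field_simp
  have e2 : (1 - p / q) * (q / p) = q / p - 1 := by field_simp
  rw [e1, e2, ENNReal.rpow_one]

/-- a lower bound for a hermitian form bounds the determinant from below -/
lemma le_det_re [DecidableEq κ] {G : Matrix κ κ ℂ} (hG : G.IsHermitian) {k : ℝ} (hk : 0 ≤ k)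
    (h : ∀ a, k * ‖a‖ ^ 2 ≤ (star a ⬝ᵥ G *ᵥ a).re) :
    (k / Fintype.card κ) ^ Fintype.card κ ≤ G.det.re := by
  rw [hG.det_eq_prod_eigenvalues, ← RCLike.ofReal_prod]
  change _ ≤ ((∏ i, hG.eigenvalues i : ℝ) : ℂ).re
  rw [Complex.ofReal_re, ← Finset.card_univ, ← Finset.prod_const]
  refine Finset.prod_le_prod (fun _ _ => by positivity) fun i _ => ?_
  rw [hG.eigenvalues_eq]
  refine le_trans ?_ (h _)
  have h1 : (1 : ℝ) ≤ Fintype.card κ * ‖(hG.eigenvectorBasis i).ofLp‖ ^ 2 := by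
    have h2 := EuclideanSpace.norm_sq_eq (hG.eigenvectorBasis i)
    rw [hG.eigenvectorBasis.orthonormal.1 i, one_pow] at h2
    rw [h2, ← nsmul_eq_mul, ← Finset.card_univ]
    refine Finset.sum_le_card_nsmul _ _ _ fun j _ => ?_
    exact pow_le_pow_left₀ (norm_nonneg _) (norm_le_pi_norm (hG.eigenvectorBasis i).ofLp j) 2
  have h3 : (0 : ℝ) < Fintype.card κ := by exact_mod_cast Fintype.card_pos_iff.2 ⟨i⟩
  rw [Finset.card_univ, div_le_iff₀ h3]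
  nlinarith

end General

variable {r : ℕ} {τ : Ω → Fin r → ℂ}

/-- the frame `g τ` -/
noncomputable def fr (g : Matrix (Fin r) (Fin r) ℂ) (τ : Ω → Fin r → ℂ) : Ω → Fin r → ℂ :=
  fun x => g *ᵥ τ x

lemma measurable_fr (hτ : Measurable τ) (g : Matrix (Fin r) (Fin r) ℂ) : Measurable (fr g τ) :=
  measurable_pi_iff.2 fun i => measurable_dot hτ (g i)

omit [MeasurableSpace Ω] in
lemma dot_fr (g : Matrix (Fin r) (Fin r) ℂ) (a : Fin r → ℂ) (x : Ω) :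
    a ⬝ᵥ fr g τ x = (a ᵥ* g) ⬝ᵥ τ x := dotProduct_mulVec _ _ _

lemma nN_fr (g : Matrix (Fin r) (Fin r) ℂ) (a : Fin r → ℂ) :
    nN ν (fr g τ) p a = nN ν τ p (a ᵥ* g) := by simp only [nN, dot_fr]

omit [MeasurableSpace Ω] in
lemma dt_fr (g : Matrix (Fin r) (Fin r) ℂ) (x : Fin r → Ω) : dt (fr g τ) x = g.det * dt τ x := by
  rw [dt, dt, mul_comm, ← det_transpose g, ← det_mul]
  congr 1
  ext j i
  simp [fr, mul_apply, mulVec, dotProduct, mul_comm]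

lemma nD_fr [SigmaFinite ν] (hp : 0 ≤ p) (g : Matrix (Fin r) (Fin r) ℂ) :
    nD ν (fr g τ) p = ‖g.det‖ₑ ^ p * nD ν τ p := by
  rw [nD, nD, ← lintegral_const_mul' _ _ (ENNReal.rpow_ne_top_of_nonneg hp enorm_ne_top)]
  refine lintegral_congr fun x => ?_
  rw [dt_fr, enorm_mul, ENNReal.mul_rpow_of_nonneg _ _ hp]

/-- normalised frames -/
structure Good (ν : Measure Ω) (τ : Ω → Fin r → ℂ) (p : ℝ) : Prop where
  le : nB ν τ p ≤ r
  ge : ∀ a, ‖a‖ₑ ^ p ≤ nN ν τ p a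

/-- existence of a normalised frame -/
theorem exists_good (hτ : Measurable τ) (hp : 0 < p) (hB : nB ν τ p ≠ ⊤)
    (hN : ∀ a, a ≠ 0 → nN ν τ p a ≠ 0) :
    ∃ g : Matrix (Fin r) (Fin r) ℂ, g.det ≠ 0 ∧ (∀ i, nN ν τ p (g i) ≤ 1) ∧ Good ν (fr g τ) p := by
  have hc := continuous_nN hτ hp.le hB
  obtain ⟨ε, hε, hle⟩ := exists_le_nN hτ hp hB hN
  set K : Set (Fin r → ℂ) := {a | nN ν τ p a ≤ 1} with hK
  have hKc : IsCompact K := by
    refine (isCompact_closedBall (0 : Fin r → ℂ) ((ε⁻¹ ^ p⁻¹).toReal)).of_isClosed_subset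
      (isClosed_le hc continuous_const) fun a ha => ?_
    rw [mem_closedBall_zero_iff, ← toReal_enorm]
    refine ENNReal.toReal_mono (ENNReal.rpow_ne_top_of_nonneg (inv_pos.2 hp).le
      (ENNReal.inv_ne_top.2 hε)) ?_
    rw [ENNReal.le_rpow_inv_iff hp, ENNReal.le_inv_iff_mul_le, mul_comm]
    exact (hle a).trans ha
  obtain ⟨δ, hδ, hball⟩ : ∃ δ > 0, ball (0 : Fin r → ℂ) δ ⊆ K := by
    refine Metric.mem_nhds_iff.1 (mem_of_superset (hc.continuousAt.eventually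
      (gt_mem_nhds (a := 1) ?_)) fun a ha => show nN ν τ p a ≤ 1 from le_of_lt ha)
    simp [nN, ENNReal.zero_rpow_of_pos hp]
  have hg0 : (((δ / 2 : ℝ) : ℂ) • (1 : Matrix (Fin r) (Fin r) ℂ)) ∈ Set.pi univ fun _ => K := by
    intro i _
    refine hball ?_
    rw [mem_ball_zero_iff]
    refine lt_of_le_of_lt ((pi_norm_le_iff_of_nonneg (half_pos hδ).le).2 fun j => ?_)
      (half_lt_self hδ)
    by_cases hij : i = j
    · simp [hij, abs_of_pos hδ]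
    · simp [one_apply_ne hij, hδ.le, div_nonneg]
  have hcd : Continuous fun g : Matrix (Fin r) (Fin r) ℂ => ‖g.det‖ :=
    continuous_id.matrix_det.norm
  obtain ⟨g, hg, hmax⟩ := (isCompact_univ_pi fun _ : Fin r => hKc).exists_isMaxOn ⟨_, hg0⟩
    hcd.continuousOn
  have hdet : Matrix.det g ≠ 0 := by
    have h1 : ‖(((δ / 2 : ℝ) : ℂ) • (1 : Matrix (Fin r) (Fin r) ℂ)).det‖ ≤ ‖Matrix.det g‖ := hmax hg0
    refine norm_pos_iff.1 (lt_of_lt_of_le (norm_pos_iff.2 ?_) h1)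
    simp [hδ.ne']
  have hrow : ∀ i, nN ν τ p (g i) ≤ 1 := fun i => hg i trivial
  refine ⟨g, hdet, hrow, ?_, fun a => ?_⟩
  · refine (nB_le_sum (measurable_fr hτ g) hp).trans
      ((Finset.sum_le_card_nsmul _ _ 1 fun i _ => ?_).trans (by simp))
    rw [nN_fr, single_one_vecMul]
    exact hrow i
  rw [nN_fr]
  set n := nN ν τ p (a ᵥ* g) with hn
  by_cases ha : a = 0
  · simp [ha, ENNReal.zero_rpow_of_pos hp]
  have hn0 : n ≠ 0 := hN _ fun h => ha (eq_zero_of_vecMul_eq_zero hdet h)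
  have hnt : n ≠ ⊤ := nN_ne_top hp.le hB _
  set s : ℂ := (((n⁻¹ ^ p⁻¹).toReal : ℝ) : ℂ) with hs
  have hs1 : ‖s‖ₑ ^ p * n = 1 := by
    rw [hs, ← ofReal_norm, Complex.norm_real, Real.norm_of_nonneg ENNReal.toReal_nonneg,
      ENNReal.ofReal_toReal (ENNReal.rpow_ne_top_of_nonneg (inv_pos.2 hp).le
        (ENNReal.inv_ne_top.2 hn0)), ENNReal.rpow_inv_rpow hp.ne', ENNReal.inv_mul_cancel hn0 hnt]
  have hi : ∀ i, ‖s * a i‖ ≤ 1 := by
    intro i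
    have h1 : Matrix.updateRow g i (s • (a ᵥ* g)) ∈ Set.pi univ fun _ => K := by
      intro j _
      by_cases hj : j = i
      · rw [hj, updateRow_self]
        exact le_of_eq ((nN_smul hp.le _ _).trans hs1)
      · rw [updateRow_ne hj]
        exact hrow j
    have h2 : ‖(Matrix.updateRow g i (s • (a ᵥ* g))).det‖ ≤ ‖Matrix.det g‖ := hmax h1
    have h3 : a ᵥ* g = ∑ k, a k • g k := vecMul_eq_sum a g
    rw [det_updateRow_smul, h3, det_updateRow_sum, smul_eq_mul, ← mul_assoc, norm_mul] at h2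
    exact le_of_mul_le_mul_right (h2.trans_eq (one_mul _).symm) (norm_pos_iff.2 hdet)
  have h4 : ‖s‖ₑ * ‖a‖ₑ ≤ 1 := by
    rw [← enorm_smul, ← ofReal_norm, ENNReal.ofReal_le_one]
    exact (pi_norm_le_iff_of_nonneg zero_le_one).2 hi
  calc ‖a‖ₑ ^ p = (‖s‖ₑ * ‖a‖ₑ) ^ p * n := by
        rw [ENNReal.mul_rpow_of_nonneg _ _ hp.le, mul_right_comm, hs1, one_mul]
    _ ≤ 1 * n := by
        gcongr
        exact ENNReal.rpow_le_one h4 hp.le
    _ = n := one_mul n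

variable [SigmaFinite ν]

lemma Good.one_le_nD (h : Good ν τ p) (hτ : Measurable τ) (hp : 0 ≤ p) : 1 ≤ nD ν τ p := by
  simpa using le_nD (C := 1) hτ hp fun a => by simpa using h.ge a

/-- the upper bound for the determinant norm in a normalised frame -/
noncomputable def cD (r : ℕ) (p : ℝ) : ℝ≥0∞ := (r.factorial : ℝ≥0∞) ^ p * (r : ℝ≥0∞) ^ r

lemma cD_ne_top (hp : 0 ≤ p) : cD r p ≠ ⊤ :=
  ENNReal.mul_ne_top (ENNReal.rpow_ne_top_of_nonneg hp (by simp)) (by simp)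

lemma Good.nD_le (h : Good ν τ p) (hτ : Measurable τ) (hp : 0 ≤ p) : nD ν τ p ≤ cD r p :=
  (N.nD_le hτ hp).trans (mul_le_mul_right (pow_le_pow_left' h.le r) _)

lemma nD_ne_zero (hτ : Measurable τ) (hp : 0 < p) (hB : nB ν τ p ≠ ⊤)
    (hN : ∀ a, a ≠ 0 → nN ν τ p a ≠ 0) : nD ν τ p ≠ 0 := by
  obtain ⟨ε, hε, hle⟩ := exists_le_nN hτ hp hB hN
  exact ((ENNReal.pow_pos (pos_iff_ne_zero.2 hε) r).trans_le (le_nD hτ hp.le hle)).ne'

lemma nD_ne_top (hτ : Measurable τ) (hp : 0 ≤ p) (hB : nB ν τ p ≠ ⊤) : nD ν τ p ≠ ⊤ :=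
  ne_top_of_le_ne_top (ENNReal.mul_ne_top (ENNReal.rpow_ne_top_of_nonneg hp (by simp))
    (ENNReal.pow_ne_top hB)) (nD_le hτ hp)

/-- a hermitian form that dominates the quasi-norm has a determinant that dominates `nD` -/
theorem nD_le_det (hτ : Measurable τ) (hp : 0 < p) (hB : nB ν τ p ≠ ⊤)
    (hN : ∀ a, a ≠ 0 → nN ν τ p a ≠ 0) {G : Matrix (Fin r) (Fin r) ℂ} (hG : G.IsHermitian)
    {A : ℝ≥0∞} (hA0 : A ≠ 0) (hA : A ≠ ⊤)
    (h : ∀ u, nN ν τ p u ^ (2 / p) ≤ A * ENNReal.ofReal (star u ⬝ᵥ G *ᵥ u).re) :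
    nD ν τ p ^ (2 / p) ≤ cD r p ^ (2 / p) * (r * A) ^ r * ENNReal.ofReal G.det.re := by
  obtain ⟨g, hdet, -, hg⟩ := exists_good hτ hp hB hN
  have h2p : 0 ≤ 2 / p := by positivity
  have hA' : 0 < A.toReal := ENNReal.toReal_pos hA0 hA
  have h1 : ∀ u, A.toReal⁻¹ * ‖u‖ ^ 2 ≤ (star u ⬝ᵥ (gᵀᴴ * G * gᵀ) *ᵥ u).re := by
    intro u
    have e : star u ⬝ᵥ (gᵀᴴ * G * gᵀ) *ᵥ u = star (u ᵥ* g) ⬝ᵥ G *ᵥ (u ᵥ* g) := by
      rw [← mulVec_transpose, star_mulVec, ← mulVec_mulVec, ← mulVec_mulVec, dotProduct_mulVec]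
    have h2 : ‖u‖ₑ ^ 2 ≤ A * ENNReal.ofReal (star (u ᵥ* g) ⬝ᵥ G *ᵥ (u ᵥ* g)).re := by
      refine le_trans ?_ (h _)
      rw [← nN_fr]
      refine le_trans (le_of_eq ?_) (ENNReal.rpow_le_rpow (hg.ge u) h2p)
      rw [← ENNReal.rpow_mul, mul_div_cancel₀ _ hp.ne', ENNReal.rpow_two]
    rw [e, inv_mul_le_iff₀ hA']
    by_cases hu : u = 0
    · simp [hu]
    have h3 : 0 ≤ (star (u ᵥ* g) ⬝ᵥ G *ᵥ (u ᵥ* g)).re := by
      by_contra h4
      rw [ENNReal.ofReal_of_nonpos (not_le.1 h4).le, mul_zero] at h2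
      simp [hu] at h2
    have h5 := ENNReal.toReal_mono (ENNReal.mul_ne_top hA ENNReal.ofReal_ne_top) h2
    rwa [ENNReal.toReal_mul, ENNReal.toReal_ofReal h3, ENNReal.toReal_pow, toReal_enorm] at h5
  have h2 := le_det_re (isHermitian_conjTranspose_mul_mul gᵀ hG) (inv_pos.2 hA').le h1
  have h3 : (gᵀᴴ * G * gᵀ).det.re = ‖g.det‖ ^ 2 * G.det.re := by
    rw [det_mul, det_mul, det_conjTranspose, det_transpose, mul_right_comm, Complex.star_def,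
      Complex.conj_mul', ← Complex.ofReal_pow, Complex.re_ofReal_mul]
  rw [h3, Fintype.card_fin] at h2
  have h4 : (1 : ℝ≥0∞) ≤ (r * A) ^ r * (‖g.det‖ₑ ^ 2 * ENNReal.ofReal G.det.re) := by
    have h5 : (1 : ℝ) ≤ (r * A.toReal) ^ r * (‖g.det‖ ^ 2 * G.det.re) := by
      refine le_trans (le_of_eq ?_) (mul_le_mul_of_nonneg_left h2 (by positivity))
      rw [← mul_pow]
      rcases Nat.eq_zero_or_pos r with rfl | hr
      · simp
      · have : (r : ℝ) * A.toReal * (A.toReal⁻¹ / r) = 1 := by field_simp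
        rw [this, one_pow]
    refine le_trans (ENNReal.one_le_ofReal.2 h5) (le_of_eq ?_)
    rw [ENNReal.ofReal_mul (by positivity), ENNReal.ofReal_mul (by positivity),
      ENNReal.ofReal_pow (by positivity), ENNReal.ofReal_pow (norm_nonneg _), ofReal_norm,
      ENNReal.ofReal_mul (by positivity), ENNReal.ofReal_toReal hA, ENNReal.ofReal_natCast]
  have h6 : ‖g.det‖ₑ ^ 2 * nD ν τ p ^ (2 / p) ≤ cD r p ^ (2 / p) := by
    refine le_trans (le_of_eq ?_) (ENNReal.rpow_le_rpow (hg.nD_le (measurable_fr hτ g) hp.le) h2p)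
    rw [nD_fr hp.le, ENNReal.mul_rpow_of_nonneg _ _ h2p, ← ENNReal.rpow_mul,
      mul_div_cancel₀ _ hp.ne', ENNReal.rpow_two]
  calc nD ν τ p ^ (2 / p) = 1 * nD ν τ p ^ (2 / p) := (one_mul _).symm
    _ ≤ (r * A) ^ r * (‖g.det‖ₑ ^ 2 * ENNReal.ofReal G.det.re) * nD ν τ p ^ (2 / p) := by gcongr
    _ = ‖g.det‖ₑ ^ 2 * nD ν τ p ^ (2 / p) * (r * A) ^ r * ENNReal.ofReal G.det.re := by ring
    _ ≤ _ := by gcongr

end Pool.Agent.Lib.MP_5c318e_ag.N
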