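import Pool.Agent.Lib.MP_5c318e_ag.N.Chart

/-! The chart bound, uniform in a compact set of parameters. -/

set_option autoImplicit false

namespace Pool.Agent.Lib.MP_5c318e_ag.N

open MeasureTheory Set Metric MvPolynomial
open scoped ENNReal

universe v

variable {ι : Type*} [Fintype ι] {d : Type*} [Fintype d] [DecidableEq d] {κ : Type*} [Fintype κ]

/-- a bound on the unit sphere gives the homogeneous bound -/
lemma lint_neg_of_unit {Ω : Type*} [MeasurableSpace Ω] {ρ : Measure Ω} (f : Ω → κ → ℂ)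
    (w : Ω → ℝ≥0∞) {c : ℝ} {C : ℝ≥0∞}
    (unit : ∀ a : κ → ℂ, ‖a‖ = 1 → ∫⁻ x, w x * ‖a ⬝ᵥ f x‖ₑ ^ (-c) ∂ρ ≤ C) {a : κ → ℂ}
    (ha : a ≠ 0) : ∫⁻ x, w x * ‖a ⬝ᵥ f x‖ₑ ^ (-c) ∂ρ ≤ C * ‖a‖ₑ ^ (-c) := by
  have hn : 0 < ‖a‖ := norm_pos_iff.2 ha
  have h2 := unit (((‖a‖ : ℂ))⁻¹ • a) (by
    rw [norm_smul, norm_inv, Complex.norm_real, norm_norm, inv_mul_cancel₀ hn.ne'])
  have h3 : ∀ x, w x * ‖a ⬝ᵥ f x‖ₑ ^ (-c) =
      ‖a‖ₑ ^ (-c) * (w x * ‖(((‖a‖ : ℂ))⁻¹ • a) ⬝ᵥ f x‖ₑ ^ (-c)) := by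
    intro x
    rw [mul_left_comm, ← ENNReal.mul_rpow_of_ne_top enorm_ne_top enorm_ne_top]
    congr 2
    rw [← ofReal_norm, ← ofReal_norm, ← ofReal_norm, ← ENNReal.ofReal_mul hn.le, smul_dotProduct,
      norm_smul, norm_inv, Complex.norm_real, norm_norm, mul_inv_cancel_left₀ hn.ne']
  simp_rw [h3]
  rw [lintegral_const_mul' _ _ (ENNReal.rpow_ne_top_of_ne_zero (by simpa using ha) enorm_ne_top),
    mul_comm]
  gcongr

/-- the constant depends only on the family of polynomial matrices -/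
theorem lct_chart_unif {X : Type*} [TopologicalSpace X] {T : Set X} (hT : IsCompact T)
    (M : X → κ → Matrix d d (MvPolynomial ι ℂ)) (δ : X → MvPolynomial ι ℂ) {D : ℕ}
    (hM : ∀ i j k, Continuous fun q : X × (ι → ℂ) => eval q.2 (M q.1 i j k))
    (hδ : Continuous fun q : X × (ι → ℂ) => eval q.2 (δ q.1))
    (hD : ∀ y ∈ T, ∀ i j k, (M y i j k).totalDegree ≤ D)
    (hne : ∀ y ∈ T, ∀ a : κ → ℂ, a ≠ 0 → (∑ i, a i • M y i).det ≠ 0) {R : ℝ} (hR : 0 ≤ R)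
    {c : ℝ} (hc : 0 < c) (hcd : c * (Fintype.card d * D : ℕ) < 2) :
    ∃ C : ℝ≥0∞, C ≠ ⊤ ∧ ∀ y ∈ T, ∀ (Ω : Type v) [MeasurableSpace Ω] (ρ : Measure Ω)
      (u : Ω → ι → ℂ) (f : Ω → κ → ℂ) (K : ℝ≥0∞), (∀ᵐ x ∂ρ, ‖u x‖ ≤ R) →
      (∀ a : κ → ℂ, ∀ᵐ x ∂ρ, ((eval (u x) (δ y) * (a ⬝ᵥ f x)) • (1 : Matrix d d ℂ) -
        (∑ i, a i • M y i).map (eval (u x))).det = 0) →
      (∀ F : (ι → ℂ) → ℝ≥0∞, Measurable F →
        ∫⁻ x, F (u x) ∂ρ ≤ K * ∫⁻ z in closedBall (0 : ι → ℂ) R, F z) →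
      ∀ a : κ → ℂ, a ≠ 0 → ∫⁻ x, ‖a ⬝ᵥ f x‖ₑ ^ (-c) ∂ρ ≤ K * C * ‖a‖ₑ ^ (-c) := by
  have hcA : Continuous fun q : (X × (κ → ℂ)) × (ι → ℂ) =>
      ∑ i, q.1.2 i • (M q.1.1 i).map (eval q.2) := by
    refine continuous_finsetSum _ fun i _ =>
      ((continuous_apply i).comp (continuous_snd.comp continuous_fst)).smul ?_
    exact continuous_matrix fun j k =>
      (hM i j k).comp ((continuous_fst.comp continuous_fst).prodMk continuous_snd)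
  have hTS := hT.prod (isCompact_sphere (0 : κ → ℂ) 1)
  obtain ⟨C1, hC1, h1⟩ := pol_family hTS
    (fun q => (∑ i, q.2 i • M q.1 i).det) (d := Fintype.card d * D)
    (fun q hq => totalDegree_det_le fun j k => by
      rw [Matrix.sum_apply]
      exact totalDegree_finsetSum_le fun i _ =>
        (totalDegree_smul_le _ _).trans (hD q.1 hq.1 i j k))
    (fun z => by
      have := (hcA.comp (continuous_id.prodMk (continuous_const (y := z)))).matrix_det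
      refine (this.congr fun a => ?_).continuousOn
      rw [RingHom.map_det, RingHom.mapMatrix_apply, map_comb]
      rfl)
    (fun q hq => hne q.1 hq.1 q.2 (by
      intro h0
      have := hq.2
      simp [h0] at this)) hc hcd hR
  have hcB : Continuous fun q : (X × (κ → ℂ)) × (ι → ℂ) => ‖eval q.2 (δ q.1.1)‖ *
      ∑ j, ∑ k, ‖(∑ i, q.1.2 i • (M q.1.1 i).map (eval q.2)).adjugate j k‖ :=
    (hδ.comp ((continuous_fst.comp continuous_fst).prodMk continuous_snd)).norm.mul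
      (continuous_finsetSum _ fun j _ => continuous_finsetSum _ fun k _ =>
        (hcA.matrix_adjugate.matrix_elem j k).norm)
  obtain ⟨B, hB⟩ := ((hTS.prod (isCompact_closedBall (0 : ι → ℂ) R)).image hcB).bddAbove
  set A : ℝ≥0∞ := ENNReal.ofReal (max B 1) with hA
  have hA0 : A ≠ 0 := by
    rw [hA, ne_eq, ENNReal.ofReal_eq_zero, not_le]; positivity
  have hAc : A ^ c ≠ ⊤ := ENNReal.rpow_ne_top_of_nonneg hc.le ENNReal.ofReal_ne_top
  refine ⟨A ^ c * C1, ENNReal.mul_ne_top hAc hC1, fun y hy Ω _ ρ u f K hu hrel hpush a ha => ?_⟩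
  have unit : ∀ a : κ → ℂ, ‖a‖ = 1 → ∫⁻ x, 1 * ‖a ⬝ᵥ f x‖ₑ ^ (-c) ∂ρ ≤ K * (A ^ c * C1) := by
    intro a ha
    have ha' : a ∈ sphere (0 : κ → ℂ) 1 := by simpa using ha
    calc _ ≤ ∫⁻ x, A ^ c * ‖eval (u x) (∑ i, a i • M y i).det‖ₑ ^ (-c) ∂ρ := by
          refine lintegral_mono_ae ?_
          filter_upwards [hu, hrel a] with x h2 h3
          rw [one_mul]
          refine rpow_neg_le_of_le_mul hc.le hA0 ENNReal.ofReal_ne_top ?_
          rw [← ofReal_norm, ← ofReal_norm, hA, ← ENNReal.ofReal_mul (by positivity)]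
          refine ENNReal.ofReal_le_ofReal ?_
          have h4 := norm_det_le_of_eigen _ _ h3
          have h5 := hB ⟨((y, a), u x), ⟨⟨hy, ha'⟩, by simpa using h2⟩, rfl⟩
          rw [RingHom.map_det, RingHom.mapMatrix_apply]
          refine h4.trans ?_
          rw [norm_mul, mul_right_comm, map_comb]
          exact mul_le_mul_of_nonneg_right (h5.trans (le_max_left _ _)) (norm_nonneg _)
      _ ≤ _ := by
          rw [lintegral_const_mul' _ _ hAc, mul_left_comm]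
          gcongr
          refine (hpush _ ((measurable_eval _).enorm.pow_const _)).trans ?_
          gcongr
          exact h1 (y, a) ⟨hy, ha'⟩
  simpa using lint_neg_of_unit f (fun _ => 1) unit ha

/-- The condition used by the determinant estimates: `τ` takes the values of a frame, the finite
measure is `‖τ‖ ^ p ν`. -/
def Lct {Ω : Type*} [MeasurableSpace Ω] (ν : Measure Ω) (τ : Ω → κ → ℂ) (p c : ℝ) (C : ℝ≥0∞) :
    Prop :=
  ∀ a : κ → ℂ, a ≠ 0 → ∫⁻ x, ‖τ x‖ₑ ^ (p + c) * ‖a ⬝ᵥ τ x‖ₑ ^ (-c) ∂ν ≤ C * ‖a‖ₑ ^ (-c)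

/-- from finitely many charts: on `A l` the frame is `J l • f l` with `f l` bounded -/
theorem Lct.of_charts {Ω : Type*} [MeasurableSpace Ω] {ν : Measure Ω} {τ : Ω → κ → ℂ} {p c : ℝ}
    (hp : 0 < p) (hc : 0 < c) {L : Type*} [Fintype L] (A : L → Set Ω)
    (hA : ∀ᵐ x ∂ν, ∃ l, x ∈ A l) (hAm : ∀ l, MeasurableSet (A l)) (J : L → Ω → ℂ)
    (hJ : ∀ l, Measurable (J l)) (f : L → Ω → κ → ℂ) (hf : ∀ l, Measurable (f l))
    (hτ : ∀ l, ∀ᵐ x ∂ν, x ∈ A l → τ x = J l x • f l x) {B : ℝ≥0∞} (hBt : B ≠ ⊤)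
    (hB : ∀ l, ∀ᵐ x ∂ν, x ∈ A l → ‖f l x‖ₑ ≤ B) (C : L → ℝ≥0∞)
    (h : ∀ l, ∀ a : κ → ℂ, a ≠ 0 → ∫⁻ x, ‖a ⬝ᵥ f l x‖ₑ ^ (-c)
      ∂((ν.restrict (A l)).withDensity fun x => ‖J l x‖ₑ ^ p) ≤ C l * ‖a‖ₑ ^ (-c)) :
    Lct ν τ p c (B ^ (p + c) * ∑ l, C l) := by
  intro a ha
  have hU : ∀ᵐ x ∂ν, x ∈ ⋃ l, A l := by simpa using hA
  rw [← Measure.restrict_eq_self_of_ae_mem hU]
  refine (lintegral_iUnion_le _ _).trans ?_
  rw [tsum_fintype, mul_assoc, Finset.sum_mul, Finset.mul_sum]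
  refine Finset.sum_le_sum fun l _ => ?_
  have hBp : B ^ (p + c) ≠ ⊤ := ENNReal.rpow_ne_top_of_nonneg (by positivity) hBt
  have hm : Measurable fun x => ‖a ⬝ᵥ f l x‖ₑ ^ (-c) := by
    refine (Measurable.enorm ?_).pow_const _
    exact Finset.measurable_sum _ fun i _ => ((measurable_pi_apply i).comp (hf l)).const_mul _
  have h1 := h l a ha
  rw [lintegral_withDensity_eq_lintegral_mul _ ((hJ l).enorm.pow_const _) hm] at h1
  refine le_trans ?_ (mul_le_mul_right h1 _)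
  rw [← lintegral_const_mul' _ _ hBp]
  refine lintegral_mono_ae ((ae_restrict_iff' (hAm l)).2 ?_)
  filter_upwards [hτ l, hB l] with x h2 h3 hx
  rw [h2 hx, dotProduct_smul, enorm_smul, enorm_smul, Pi.mul_apply]
  by_cases h0 : J l x = 0
  · simp [h0, ENNReal.zero_rpow_of_pos (add_pos hp hc)]
  have h4 : ‖J l x‖ₑ ≠ 0 := by simpa using h0
  rw [ENNReal.mul_rpow_of_ne_top enorm_ne_top enorm_ne_top,
    ENNReal.mul_rpow_of_ne_top enorm_ne_top enorm_ne_top]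
  have h5 : ‖J l x‖ₑ ^ p = ‖J l x‖ₑ ^ (p + c) * ‖J l x‖ₑ ^ (-c) := by
    rw [← ENNReal.rpow_add _ _ h4 enorm_ne_top]; congr 1; ring
  rw [h5]
  calc _ = ‖f l x‖ₑ ^ (p + c) * (‖J l x‖ₑ ^ (p + c) * ‖J l x‖ₑ ^ (-c) *
        ‖a ⬝ᵥ f l x‖ₑ ^ (-c)) := by ring
    _ ≤ _ := by
      gcongr
      exact h3 hx

end Pool.Agent.Lib.MP_5c318e_ag.N
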