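import Pool.Agent.Lib.MP_5c318e_ag.N.Auer

/-! The form `u ↦ ∫ |u|² |s|^(-(2-p))` on the cone: lower bounds and local integrability in `s`. -/

set_option autoImplicit false

namespace Pool.Agent.Lib.MP_5c318e_ag.N

open MeasureTheory Set Matrix Metric
open scoped ENNReal

variable {Ω : Type*} [MeasurableSpace Ω] {ν : Measure Ω} {p : ℝ}

section General

variable {κ : Type*} [Fintype κ] {τ : Ω → κ → ℂ}

/-- the square norm of `u / s_a ^ (1 - p / 2)` -/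
noncomputable def h3 (ν : Measure Ω) (τ : Ω → κ → ℂ) (p : ℝ) (a u : κ → ℂ) : ℝ≥0∞ :=
  ∫⁻ x, ‖u ⬝ᵥ τ x‖ₑ ^ 2 * ‖a ⬝ᵥ τ x‖ₑ ^ (-(2 - p)) ∂ν

theorem nN_le_h3 (hτ : Measurable τ) (hp : 0 < p) (hp2 : p ≤ 2) {a : κ → ℂ}
    (ha : nN ν τ p a ≠ 0) (u : κ → ℂ) :
    nN ν τ p u ^ (2 / p) ≤ nN ν τ p a ^ (2 / p - 1) * h3 ν τ p a u := by
  have := holder_neg' (ν := ν) (measurable_dot hτ u).enorm.aemeasurable
    (measurable_dot hτ a).enorm.aemeasurable (fun _ => enorm_ne_top) hp hp2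
    (Filter.Eventually.of_forall fun _ _ => Or.inr ha)
  simp only [ENNReal.rpow_two] at this
  rw [mul_comm]
  exact this

lemma h3_self (hp : 0 < p) (a : κ → ℂ) : h3 ν τ p a a = nN ν τ p a := by
  refine lintegral_congr fun x => ?_
  by_cases h : a ⬝ᵥ τ x = 0
  · simp [h, ENNReal.zero_rpow_of_pos hp]
  rw [← ENNReal.rpow_two, ← ENNReal.rpow_add _ _ (by simpa using h) enorm_ne_top]
  congr 1
  ring

/-- negative powers of linear forms on balls -/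
lemma lint_dot_neg {c R : ℝ} (hc : 0 < c) (hc2 : c < 2) (hR : 0 ≤ R) :
    ∃ C : ℝ≥0∞, C ≠ ⊤ ∧ ∀ v : κ → ℂ, v ≠ 0 →
      ∫⁻ a in closedBall (0 : κ → ℂ) R, ‖a ⬝ᵥ v‖ₑ ^ (-c) ≤ C * ‖v‖ₑ ^ (-c) := by
  classical
  obtain ⟨C, hC, h⟩ := pol_val (ι := κ) (d := 1) hc (by simpa using hc2) hR
  refine ⟨C, hC, fun v hv => ?_⟩
  have : Nonempty κ := by
    by_contra h0
    rw [not_nonempty_iff] at h0
    exact hv (Subsingleton.elim _ _)
  obtain ⟨i, hi⟩ := Finite.exists_max fun i => ‖v i‖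
  have h1 := h (∑ j, MvPolynomial.C (v j) * MvPolynomial.X j)
    (MvPolynomial.totalDegree_finsetSum_le fun j _ => (MvPolynomial.totalDegree_mul _ _).trans
      (by simp)) (Pi.single i 1) (by simp [Pi.norm_single])
  have e : ∀ a : κ → ℂ,
      MvPolynomial.eval a (∑ j, MvPolynomial.C (v j) * MvPolynomial.X j) = a ⬝ᵥ v := fun a => by
    simp [dotProduct, mul_comm]
  simp only [e, single_one_dotProduct] at h1
  refine h1.trans (mul_le_mul_right (rpow_neg_anti hc.le ?_) _)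
  rw [← ofReal_norm, ← ofReal_norm]
  exact ENNReal.ofReal_le_ofReal ((pi_norm_le_iff_of_nonneg (norm_nonneg _)).2 hi)

omit [MeasurableSpace Ω] in
lemma sq_mul_rpow_neg (hp : 0 < p) (v : κ → ℂ) : ‖v‖ₑ ^ 2 * ‖v‖ₑ ^ (-(2 - p)) = ‖v‖ₑ ^ p := by
  by_cases h : v = 0
  · simp [h, ENNReal.zero_rpow_of_pos hp]
  rw [← ENNReal.rpow_two, ← ENNReal.rpow_add _ _ (by simpa using h) enorm_ne_top]
  congr 1
  ring

lemma measurable_h3_integrand (hτ : Measurable τ) (u : κ → ℂ) :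
    Measurable fun q : (κ → ℂ) × Ω => ‖u ⬝ᵥ τ q.2‖ₑ ^ 2 * ‖q.1 ⬝ᵥ τ q.2‖ₑ ^ (-(2 - p)) :=
  (((measurable_dot hτ u).comp measurable_snd).enorm.pow_const _).mul
    ((Finset.measurable_sum _ fun i _ => ((measurable_pi_apply i).comp measurable_fst).mul
      ((measurable_pi_apply i).comp (hτ.comp measurable_snd))).enorm.pow_const _)

lemma measurable_h3 [SFinite ν] (hτ : Measurable τ) (u : κ → ℂ) :
    Measurable fun a => h3 ν τ p a u := (measurable_h3_integrand hτ u).lintegral_prod_right'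

universe v in
/-- local integrability in the parameter, with a constant that is free of the space -/
theorem lint_h3 (κ : Type*) [Fintype κ] {R : ℝ} (hp : 0 < p) (hp2 : p < 2) (hR : 0 ≤ R) :
    ∃ C : ℝ≥0∞, C ≠ ⊤ ∧ ∀ (Ω : Type v) [MeasurableSpace Ω] (ν : Measure Ω) [SFinite ν]
      (τ : Ω → κ → ℂ), Measurable τ → ∀ u : κ → ℂ,
      ∫⁻ a in closedBall (0 : κ → ℂ) R, h3 ν τ p a u ≤ C * ‖u‖ₑ ^ 2 * nB ν τ p := by
  obtain ⟨C, hC, h⟩ := lint_dot_neg (κ := κ) (c := 2 - p) (by linarith) (by linarith) hR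
  refine ⟨C * (Fintype.card κ : ℝ≥0∞) ^ 2, ENNReal.mul_ne_top hC (by simp),
    fun Ω _ ν _ τ hτ u => ?_⟩
  simp only [h3]
  rw [lintegral_lintegral_swap (measurable_h3_integrand hτ u).aemeasurable, nB,
    ← lintegral_const_mul _ (hτ.enorm.pow_const _)]
  refine lintegral_mono fun x => ?_
  rw [lintegral_const_mul' _ _ (by simp)]
  by_cases h0 : τ x = 0
  · simp [h0]
  refine (mul_le_mul' (pow_le_pow_left' (enorm_dot_le u (τ x)) 2) (h _ h0)).trans (le_of_eq ?_)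
  rw [← sq_mul_rpow_neg hp]
  ring

/-- for almost every parameter the form is finite -/
theorem ae_h3_ne_top [SFinite ν] (hτ : Measurable τ) (hp : 0 < p) (hp2 : p < 2)
    (hB : nB ν τ p ≠ ⊤) (u : κ → ℂ) : ∀ᵐ a : κ → ℂ, h3 ν τ p a u ≠ ⊤ := by
  have h1 : ∀ n : ℕ, ∀ᵐ a : κ → ℂ, a ∈ closedBall (0 : κ → ℂ) n → h3 ν τ p a u ≠ ⊤ := by
    intro n
    obtain ⟨C, hC, h⟩ := lint_h3 κ hp hp2 (Nat.cast_nonneg n)
    have h2 := ae_lt_top (measurable_h3 hτ u) (ne_top_of_le_ne_top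
      (ENNReal.mul_ne_top (ENNReal.mul_ne_top hC (by simp)) hB) (h Ω ν τ hτ u))
    filter_upwards [(ae_restrict_iff' measurableSet_closedBall).1 h2] with a ha hm using (ha hm).ne
  filter_upwards [ae_all_iff.2 h1] with a ha
  obtain ⟨n, hn⟩ := exists_nat_ge ‖a‖
  exact ha n (by simpa using hn)

end General

variable {r : ℕ} {τ : Ω → Fin r → ℂ} [SigmaFinite ν]

/-- `det H ≥ c D^m N(a)^(-r(m-1))`, `m = 2 / p` -/
theorem nD_le_det_h3 (hτ : Measurable τ) (hp : 0 < p) (hp2 : p ≤ 2) (hB : nB ν τ p ≠ ⊤)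
    (hN : ∀ a, a ≠ 0 → nN ν τ p a ≠ 0) {a : Fin r → ℂ} (ha : a ≠ 0)
    {G : Matrix (Fin r) (Fin r) ℂ} (hG : G.IsHermitian)
    (h : ∀ u, h3 ν τ p a u ≤ ENNReal.ofReal (star u ⬝ᵥ G *ᵥ u).re) :
    nD ν τ p ^ (2 / p) ≤ cD r p ^ (2 / p) * (r * nN ν τ p a ^ (2 / p - 1)) ^ r *
      ENNReal.ofReal G.det.re := by
  have hat := nN_ne_top hp.le hB a
  refine nD_le_det hτ hp hB hN hG (ENNReal.rpow_pos (pos_iff_ne_zero.2 (hN a ha)) hat).ne'
    (ENNReal.rpow_ne_top_of_ne_zero (hN a ha) hat) fun u => ?_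
  exact (nN_le_h3 hτ hp hp2 (hN a ha) u).trans (mul_le_mul_right (h u) _)

end Pool.Agent.Lib.MP_5c318e_ag.N
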