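import Pool.Agent.Lib.MP_5c318e_ag.N.T3

/-! The form on `E` given by one point and `J` blocks of `r` points: finiteness. -/

set_option autoImplicit false

namespace Pool.Agent.Lib.MP_5c318e_ag.N

open MeasureTheory Set Matrix Function
open scoped ENNReal

variable {Ω : Type*} [MeasurableSpace Ω] {ν : Measure Ω} [SigmaFinite ν]

section Tonelli

lemma lintegral_pi_option {α : Type*} [Fintype α] {F : (Option α → Ω) → ℝ≥0∞}
    (hF : Measurable F) : ∫⁻ x, F x ∂(Measure.pi fun _ => ν) =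
      ∫⁻ y, ∫⁻ z : α → Ω, F (fun o => o.elim y z) ∂(Measure.pi fun _ => ν) ∂ν := by
  have hm : Measurable fun (q : Ω × (α → Ω)) (o : Option α) => o.elim q.1 q.2 :=
    measurable_pi_iff.2 fun o => by
      cases o with
      | none => exact measurable_fst
      | some a => exact (measurable_pi_apply a).comp measurable_snd
  have h : (Measure.pi fun _ : Option α => ν) = (ν.prod (Measure.pi fun _ : α => ν)).map
      fun (q : Ω × (α → Ω)) (o : Option α) => o.elim q.1 q.2 := by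
    refine Measure.pi_eq fun s hs => ?_
    rw [Measure.map_apply hm (MeasurableSet.univ_pi hs), Fintype.prod_option,
      ← Measure.pi_pi, ← Measure.prod_prod]
    congr 1
    ext q
    simp [Option.forall]
  rw [h, lintegral_map hF hm]
  exact lintegral_prod _ (hF.comp hm).aemeasurable

lemma lintegral_pi_curry {α β : Type*} [Fintype α] [Fintype β] {F : (α × β → Ω) → ℝ≥0∞}
    (hF : Measurable F) : ∫⁻ x, F x ∂(Measure.pi fun _ => ν) =
      ∫⁻ z : α → β → Ω, F (fun q => z q.1 q.2)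
        ∂(Measure.pi fun _ => Measure.pi fun _ => ν) := by
  have hm : Measurable fun (z : α → β → Ω) (q : α × β) => z q.1 q.2 :=
    measurable_pi_iff.2 fun q => (measurable_pi_apply q.2).comp (measurable_pi_apply q.1)
  have h : (Measure.pi fun _ : α × β => ν) =
      (Measure.pi fun _ : α => Measure.pi fun _ : β => ν).map
        fun (z : α → β → Ω) (q : α × β) => z q.1 q.2 := by
    refine Measure.pi_eq fun s hs => ?_
    have : (fun (z : α → β → Ω) (q : α × β) => z q.1 q.2) ⁻¹' Set.univ.pi s =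
        Set.univ.pi fun a => Set.univ.pi fun b => s (a, b) := by
      ext z; simp
    rw [Measure.map_apply hm (MeasurableSet.univ_pi hs), Fintype.prod_prod_type, this]
    simp only [Measure.pi_pi]
  rw [h, lintegral_map hF hm]

lemma lintegral_pi_succAbove {n : ℕ} (q : Fin (n + 1)) {F : (Fin (n + 1) → Ω) → ℝ≥0∞}
    (hF : Measurable F) : ∫⁻ z, F z ∂(Measure.pi fun _ => ν) =
      ∫⁻ s, ∫⁻ y, F (q.insertNth y s) ∂ν ∂(Measure.pi fun _ : Fin n => ν) := by
  have hme := (measurePreserving_piFinSuccAbove (fun _ : Fin (n + 1) => ν) q).symm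
  rw [← hme.lintegral_comp hF]
  exact lintegral_prod_symm _ (hF.comp hme.measurable).aemeasurable

end Tonelli

lemma prod_le_sum_pow {k : ℕ} (a : Fin (k + 1) → ℝ≥0∞) : ∏ q, a q ≤ ∑ q, a q ^ (k + 1) := by
  obtain ⟨i, hi⟩ := Finite.exists_max a
  refine le_trans ?_ (Finset.single_le_sum (f := fun q => a q ^ (k + 1)) (fun _ _ => zero_le)
    (Finset.mem_univ i))
  simpa using Finset.prod_le_pow_card Finset.univ a (a i) fun q _ => hi q

lemma prod_prod_succAbove {M : Type*} [CommMonoid M] {k : ℕ} (b : Fin (k + 1) → M) :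
    ∏ q : Fin (k + 1), ∏ i : Fin k, b (q.succAbove i) = (∏ i, b i) ^ k := by
  have h : ∀ q : Fin (k + 1), ∏ i : Fin k, b (q.succAbove i) = ∏ i ∈ ({q} : Finset _)ᶜ, b i :=
    fun q => by
      rw [← Fin.image_succAbove_univ, Finset.prod_image fun _ _ _ _ h => Fin.succAbove_right_injective h]
  simp only [h]
  rw [Finset.prod_comm' (t' := Finset.univ) (s' := fun i => ({i} : Finset _)ᶜ)
    (by simp [eq_comm]), ← Finset.prod_pow]
  simp [Finset.card_compl]

variable {k : ℕ} {τ : Ω → Fin (k + 1) → ℂ} {p dl : ℝ}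

/-- the weight of one block -/
noncomputable def w2 (τ : Ω → Fin (k + 1) → ℂ) (p dl : ℝ) (x0 : Ω) (y : Fin (k + 1) → Ω) : ℝ≥0∞ :=
  ‖dt τ y‖ₑ ^ (p + k * dl) * ∏ q, ‖dt τ (update y q x0)‖ₑ ^ (-dl)

/-- the square norm of `t(x_0) ∏_j sig(I_j)^(p/2 + k dl/2) ∏_q sig(x_0, I_j - q)^(-dl/2)` -/
noncomputable def h2 (ν : Measure Ω) (τ : Ω → Fin (k + 1) → ℂ) (p dl : ℝ) (J : Type*) [Fintype J]
    (t : Fin (k + 1) → ℂ) : ℝ≥0∞ :=
  ∫⁻ x : Option (J × Fin (k + 1)) → Ω, ‖t ⬝ᵥ τ (x none)‖ₑ ^ 2 *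
    ∏ j, w2 τ p dl (x none) (fun i => x (some (j, i))) ∂(Measure.pi fun _ => ν)

omit [SigmaFinite ν] in
lemma measurable_w2 {α : Type*} [MeasurableSpace α] (hτ : Measurable τ) {f : α → Ω}
    {g : α → Fin (k + 1) → Ω} (hf : Measurable f) (hg : Measurable g) :
    Measurable fun a => w2 τ p dl (f a) (g a) :=
  (((measurable_dt hτ).comp hg).enorm.pow_const _).mul (Finset.measurable_prod _ fun _ _ =>
    ((measurable_dt hτ).comp (measurable_update'.comp (hg.prodMk hf))).enorm.pow_const _)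

lemma h2_eq (hτ : Measurable τ) (J : Type*) [Fintype J] (t : Fin (k + 1) → ℂ) :
    h2 ν τ p dl J t = ∫⁻ x0, ‖t ⬝ᵥ τ x0‖ₑ ^ 2 *
      (∫⁻ y, w2 τ p dl x0 y ∂(Measure.pi fun _ => ν)) ^ Fintype.card J ∂ν := by
  have hm : Measurable fun x : Option (J × Fin (k + 1)) → Ω => ‖t ⬝ᵥ τ (x none)‖ₑ ^ 2 *
      ∏ j, w2 τ p dl (x none) (fun i => x (some (j, i))) :=
    (((measurable_dot hτ t).comp (measurable_pi_apply none)).enorm.pow_const _).mul
      (Finset.measurable_prod _ fun _ _ => measurable_w2 hτ (measurable_pi_apply none)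
        (measurable_pi_iff.2 fun _ => measurable_pi_apply _))
  rw [h2, lintegral_pi_option hm]
  refine lintegral_congr fun x0 => ?_
  have hm2 : Measurable fun z : J × Fin (k + 1) → Ω => ∏ j, w2 τ p dl x0 fun i => z (j, i) :=
    Finset.measurable_prod _ fun _ _ =>
      measurable_w2 hτ measurable_const (measurable_pi_iff.2 fun _ => measurable_pi_apply _)
  simp only [Option.elim_none, Option.elim_some]
  rw [lintegral_const_mul _ hm2, lintegral_pi_curry hm2,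
    lintegral_pi_prod (fun _ y => w2 τ p dl x0 y) fun _ =>
      measurable_w2 hτ measurable_const measurable_id]
  simp

omit [MeasurableSpace Ω] in
lemma enorm_dt_update (y : Fin (k + 1) → Ω) (q : Fin (k + 1)) (x0 : Ω) :
    ‖dt τ (update y q x0)‖ₑ = ‖(Matrix.of (Fin.cons (τ x0) fun j => τ (y (q.succAbove j)) :
      Fin (k + 1) → Fin (k + 1) → ℂ)).det‖ₑ := by
  rw [dt, ← mm_top, ← mm_top, ← mm_perm (Fin.cons (τ x0) fun j => τ (y (q.succAbove j)))
    q.cycleRange]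
  congr 1
  ext1 i
  have h1 := congrFun (Fin.cons_comp_cycleRange (τ x0) (fun j => τ (y (q.succAbove j))) q) i
  rw [Function.comp_apply] at h1
  rw [h1]
  refine q.succAboveCases ?_ (fun j => ?_) i
  · simp
  · simp

omit [MeasurableSpace Ω] in
lemma enorm_dt_le {r : ℕ} (τ : Ω → Fin r → ℂ) (y : Fin r → Ω) :
    ‖dt τ y‖ₑ ≤ r.factorial * ∏ i, ‖τ (y i)‖ₑ := by
  simpa [dt] using enorm_det_le fun j => τ (y j)

omit [MeasurableSpace Ω] in
lemma enorm_dt_update_le (y : Fin (k + 1) → Ω) (q : Fin (k + 1)) (x0 : Ω) :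
    ‖dt τ (update y q x0)‖ₑ ≤ (k + 1).factorial * ‖τ x0‖ₑ * ∏ i, ‖τ (y (q.succAbove i))‖ₑ := by
  refine (enorm_dt_le τ _).trans (le_of_eq ?_)
  rw [Fin.prod_univ_succAbove _ q, mul_assoc]
  simp

/-- one block, upper bound -/
lemma lint_w2_le (hτ : Measurable τ) (hp : 0 < p) (hdl : 0 < dl) {C : ℝ≥0∞} (hC : C ≠ 0)
    (h : Lct ν τ p ((k + 1 : ℕ) * dl) C) (x0 : Ω) :
    ∫⁻ y, w2 τ p dl x0 y ∂(Measure.pi fun _ => ν) ≤
      ((k + 1).factorial : ℝ≥0∞) ^ (p + k * dl) * ((k + 1 : ℕ) * (nB ν τ p * C ^ k)) *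
        ‖τ x0‖ₑ ^ (-((k + 1 : ℕ) * dl)) := by
  set c : ℝ := (k + 1 : ℕ) * dl with hc
  have hc0 : 0 < c := by positivity
  have he : 0 ≤ p + k * dl := by positivity
  have hm : ∀ q : Fin (k + 1), Measurable fun y : Fin (k + 1) → Ω => ‖τ (y q)‖ₑ ^ p *
      ((∏ i, ‖τ (y (q.succAbove i))‖ₑ ^ (p + c)) * ‖dt τ (update y q x0)‖ₑ ^ (-c)) := fun q =>
    ((hτ.comp (measurable_pi_apply q)).enorm.pow_const _).mul ((Finset.measurable_prod _ fun i _ =>
      (hτ.comp (measurable_pi_apply _)).enorm.pow_const _).mul (((measurable_dt hτ).comp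
        (measurable_update'.comp (measurable_id.prodMk measurable_const))).enorm.pow_const _))
  have hpt : ∀ y, w2 τ p dl x0 y ≤ ((k + 1).factorial : ℝ≥0∞) ^ (p + k * dl) * ∑ q, ‖τ (y q)‖ₑ ^ p *
      ((∏ i, ‖τ (y (q.succAbove i))‖ₑ ^ (p + c)) * ‖dt τ (update y q x0)‖ₑ ^ (-c)) := by
    intro y
    have h1 : (∏ i, ‖τ (y i)‖ₑ) ^ (p + k * dl) = (∏ i, ‖τ (y i)‖ₑ ^ p) *
        ∏ q : Fin (k + 1), ∏ i : Fin k, ‖τ (y (q.succAbove i))‖ₑ ^ dl := by
      rw [prod_prod_succAbove fun i => ‖τ (y i)‖ₑ ^ dl, ENNReal.prod_rpow_of_nonneg hp.le,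
        ENNReal.prod_rpow_of_nonneg hdl.le, ENNReal.rpow_add_of_nonneg _ _ hp.le (by positivity),
        mul_comm (k : ℝ), ENNReal.rpow_mul_natCast]
    calc w2 τ p dl x0 y ≤ ((k + 1).factorial : ℝ≥0∞) ^ (p + k * dl) * ((∏ i, ‖τ (y i)‖ₑ ^ p) *
          ∏ q : Fin (k + 1), ((∏ i : Fin k, ‖τ (y (q.succAbove i))‖ₑ ^ dl) *
            ‖dt τ (update y q x0)‖ₑ ^ (-dl))) := by
          rw [Finset.prod_mul_distrib, ← mul_assoc (∏ i, ‖τ (y i)‖ₑ ^ p), ← h1, ← mul_assoc,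
            ← ENNReal.mul_rpow_of_nonneg _ _ he]
          exact mul_le_mul_left (ENNReal.rpow_le_rpow (enorm_dt_le τ y) he) _
      _ ≤ _ := by
          refine mul_le_mul_right ((mul_le_mul_right (prod_le_sum_pow _) _).trans
            (le_of_eq ?_)) _
          rw [Finset.mul_sum]
          refine Finset.sum_congr rfl fun q _ => ?_
          rw [Fin.prod_univ_succAbove _ q, mul_pow, ← Finset.prod_pow, ← ENNReal.rpow_mul_natCast,
            mul_assoc, ← mul_assoc (∏ i, ‖τ (y (q.succAbove i))‖ₑ ^ p), ← Finset.prod_mul_distrib]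
          congr 2
          · refine Finset.prod_congr rfl fun i _ => ?_
            rw [← ENNReal.rpow_mul_natCast, ← ENNReal.rpow_add_of_nonneg _ _ hp.le (by positivity),
              hc, mul_comm dl]
          · rw [hc]; congr 1; ring
  refine (lintegral_mono hpt).trans ?_
  rw [lintegral_const_mul _ (Finset.measurable_sum _ fun q _ => hm q),
    lintegral_finsetSum _ fun q _ => hm q, mul_assoc, mul_assoc]
  refine mul_le_mul_right ((Finset.sum_le_card_nsmul _ _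
    (nB ν τ p * C ^ k * ‖τ x0‖ₑ ^ (-c)) fun q _ => ?_).trans (le_of_eq (by simp))) _
  rw [lintegral_pi_succAbove q (hm q), mul_assoc]
  refine le_trans (le_of_eq ?_) (mul_le_mul_right (h.det_cons hτ hc0 hC (τ x0)) _)
  have hm2 : Measurable fun x : Fin k → Ω => (∏ j, ‖τ (x j)‖ₑ ^ (p + c)) *
      ‖(Matrix.of (Fin.cons (τ x0) fun j => τ (x j) : Fin (k + 1) → Fin (k + 1) → ℂ)).det‖ₑ ^ (-c) :=
    (Finset.measurable_prod _ fun i _ => (hτ.comp (measurable_pi_apply _)).enorm.pow_const _).mul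
      ((measurable_det (A := fun x : Fin k → Ω =>
        (Fin.cons (τ x0) fun j => τ (x j) : Fin (k + 1) → Fin (k + 1) → ℂ)) fun a b => by
          refine Fin.cases measurable_const (fun a => ?_) a
          exact (measurable_pi_apply b).comp (hτ.comp (measurable_pi_apply a))).enorm.pow_const _)
  rw [← lintegral_const_mul _ hm2]
  refine lintegral_congr fun s => ?_
  simp only [enorm_dt_update, Fin.insertNth_apply_same, Fin.insertNth_apply_succAbove]
  rw [lintegral_mul_const _ (hτ.enorm.pow_const _), nB]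

/-- finiteness -/
theorem h2_le (hτ : Measurable τ) (hp : 0 < p) (hdl : 0 < dl) {J : Type*} [Fintype J]
    (hJ : Fintype.card J * ((k + 1 : ℕ) * dl) = 2 - p) {C : ℝ≥0∞} (hC : C ≠ 0)
    (h : Lct ν τ p ((k + 1 : ℕ) * dl) C) (t : Fin (k + 1) → ℂ) :
    h2 ν τ p dl J t ≤ (((k + 1).factorial : ℝ≥0∞) ^ (p + k * dl) *
      ((k + 1 : ℕ) * (nB ν τ p * C ^ k))) ^ Fintype.card J *
      (((k + 1 : ℕ) * ‖t‖ₑ) ^ 2 * nB ν τ p) := by
  rw [h2_eq hτ]
  set A := ((k + 1).factorial : ℝ≥0∞) ^ (p + k * dl) * ((k + 1 : ℕ) * (nB ν τ p * C ^ k)) with hA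
  rw [nB, ← mul_assoc, ← lintegral_const_mul _ (hτ.enorm.pow_const _)]
  refine lintegral_mono fun x => ?_
  refine (mul_le_mul' (pow_le_pow_left' (enorm_dot_le t (τ x)) 2)
    (pow_le_pow_left' (lint_w2_le hτ hp hdl hC h x) _)).trans (le_of_eq ?_)
  rw [← hA, mul_pow A, ← ENNReal.rpow_mul_natCast, ← sq_mul_rpow_neg hp, ← hJ, Fintype.card_fin]
  have e : -((k + 1 : ℕ) * dl) * (Fintype.card J : ℝ) = -(Fintype.card J * ((k + 1 : ℕ) * dl)) := by
    ring
  rw [e]
  ring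

theorem h2_ne_top (hτ : Measurable τ) (hp : 0 < p) (hdl : 0 < dl) {J : Type*} [Fintype J]
    (hJ : Fintype.card J * ((k + 1 : ℕ) * dl) = 2 - p) {C : ℝ≥0∞} (hC : C ≠ ⊤)
    (h : Lct ν τ p ((k + 1 : ℕ) * dl) C) (hB : nB ν τ p ≠ ⊤) (t : Fin (k + 1) → ℂ) :
    h2 ν τ p dl J t ≠ ⊤ := by
  have h1 : Lct ν τ p ((k + 1 : ℕ) * dl) (C + 1) := fun a ha =>
    (h a ha).trans (mul_le_mul_left le_self_add _)
  refine ne_top_of_le_ne_top ?_ (h2_le hτ hp hdl hJ (by simp) h1 t)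
  have h3 : ((k + 1).factorial : ℝ≥0∞) ^ (p + k * dl) ≠ ⊤ :=
    ENNReal.rpow_ne_top_of_nonneg (by positivity) (by simp)
  have h4 : (C + 1) ^ k ≠ ⊤ := ENNReal.pow_ne_top (by simp [hC])
  exact ENNReal.mul_ne_top (ENNReal.pow_ne_top (ENNReal.mul_ne_top h3 (ENNReal.mul_ne_top (by simp)
    (ENNReal.mul_ne_top hB h4)))) (ENNReal.mul_ne_top (ENNReal.pow_ne_top
      (ENNReal.mul_ne_top (by simp) enorm_ne_top)) hB)

end Pool.Agent.Lib.MP_5c318e_ag.N
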