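import Pool.Agent.Lib.MP_5c318e_ag.N.Pol

/-! Negative powers of the members of a linear family of algebraic functions are uniformly
integrable on a bounded chart. -/

set_option autoImplicit false

namespace Pool.Agent.Lib.MP_5c318e_ag.N

open MeasureTheory Set Metric MvPolynomial
open scoped ENNReal

variable {ι : Type*} [Fintype ι]

lemma exists_coeff_ge {d : ℕ} (P : MvPolynomial ι ℂ) (hP : P.totalDegree ≤ d) {z : ι → ℂ}
    (hz : ‖z‖ ≤ 1) : ∃ m, ‖eval z P‖ ≤ ((d : ℝ) + 1) ^ Fintype.card ι * ‖coeff m P‖ := by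
  classical
  rcases P.support.eq_empty_or_nonempty with h | h
  · exact ⟨0, by rw [eval_eq', h]; simp; positivity⟩
  obtain ⟨m, -, hm⟩ := Finset.exists_max_image P.support (fun m => ‖coeff m P‖) h
  refine ⟨m, ?_⟩
  have hcard : P.support.card ≤ (d + 1) ^ Fintype.card ι := by
    have := Finset.card_le_card_of_injOn (s := P.support)
      (t := Fintype.piFinset fun _ : ι => Finset.range (d + 1)) (fun m => (m : ι → ℕ))
      (fun m hm => by
        simp only [Finset.mem_coe, Fintype.mem_piFinset, Finset.mem_range]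
        exact fun i => Nat.lt_succ_of_le ((monomial_le_degreeOf i hm).trans
          ((degreeOf_le_totalDegree P i).trans hP)))
      (fun _ _ _ _ h => DFunLike.coe_injective h)
    simpa using this
  rw [eval_eq']
  refine (norm_sum_le _ _).trans ((Finset.sum_le_card_nsmul _ _ ‖coeff m P‖ fun k hk => ?_).trans ?_)
  · rw [norm_mul]
    refine (mul_le_of_le_one_right (norm_nonneg _) ?_).trans (hm k hk)
    rw [norm_prod]
    refine Finset.prod_le_one (fun _ _ => norm_nonneg _) fun i _ => ?_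
    rw [norm_pow]
    exact pow_le_one₀ (norm_nonneg _) ((norm_le_pi_norm z i).trans hz)
  · rw [nsmul_eq_mul]
    gcongr
    exact_mod_cast hcard

/-- bound by one value in the unit polydisc -/
theorem pol_val {c R : ℝ} {d : ℕ} (hc : 0 < c) (hcd : c * d < 2) (hR : 0 ≤ R) :
    ∃ C : ℝ≥0∞, C ≠ ⊤ ∧ ∀ P : MvPolynomial ι ℂ, P.totalDegree ≤ d → ∀ z0 : ι → ℂ, ‖z0‖ ≤ 1 →
      ∫⁻ z in closedBall (0 : ι → ℂ) R, ‖eval z P‖ₑ ^ (-c) ≤ C * ‖eval z0 P‖ₑ ^ (-c) := by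
  obtain ⟨C, hC, h⟩ := pol (ι := ι) hc hcd hR
  set A : ℝ≥0∞ := ENNReal.ofReal (((d : ℝ) + 1) ^ Fintype.card ι) with hA
  have hA0 : A ≠ 0 := by
    rw [hA, ne_eq, ENNReal.ofReal_eq_zero, not_le]; positivity
  refine ⟨C * A ^ c, ENNReal.mul_ne_top hC
    (ENNReal.rpow_ne_top_of_nonneg hc.le ENNReal.ofReal_ne_top), fun P hP z0 hz => ?_⟩
  obtain ⟨m, hm⟩ := exists_coeff_ge P hP hz
  refine (h P hP m).trans ?_
  rw [mul_assoc]
  gcongr
  refine rpow_neg_le_of_le_mul hc.le hA0 ENNReal.ofReal_ne_top ?_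
  rw [← ofReal_norm, ← ofReal_norm, hA, ← ENNReal.ofReal_mul (by positivity)]
  exact ENNReal.ofReal_le_ofReal hm

lemma exists_eval_ne {P : MvPolynomial ι ℂ} (hP : P ≠ 0) : ∃ z : ι → ℂ, ‖z‖ ≤ 1 ∧ eval z P ≠ 0 := by
  by_contra h
  push Not at h
  refine hP (funext_set (fun _ => closedBall (0 : ℂ) 1) (fun _ => ?_) fun x hx => ?_)
  · exact infinite_of_mem_nhds (0 : ℂ) (closedBall_mem_nhds _ one_pos)
  · rw [h x ((pi_norm_le_iff_of_nonneg zero_le_one).2 fun i => by simpa using hx i trivial)]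
    simp

/-- compact families of nonzero polynomials -/
theorem pol_family {X : Type*} [TopologicalSpace X] {K : Set X} (hK : IsCompact K)
    (P : X → MvPolynomial ι ℂ) {d : ℕ} (hd : ∀ a ∈ K, (P a).totalDegree ≤ d)
    (hcont : ∀ z, ContinuousOn (fun a => eval z (P a)) K) (hne : ∀ a ∈ K, P a ≠ 0)
    {c R : ℝ} (hc : 0 < c) (hcd : c * d < 2) (hR : 0 ≤ R) :
    ∃ C : ℝ≥0∞, C ≠ ⊤ ∧ ∀ a ∈ K,
      ∫⁻ z in closedBall (0 : ι → ℂ) R, ‖eval z (P a)‖ₑ ^ (-c) ≤ C := by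
  obtain ⟨C, hC, h⟩ := pol_val (ι := ι) hc hcd hR
  have key : ∃ ε : ℝ, 0 < ε ∧ ∀ a ∈ K, ∃ z : ι → ℂ, ‖z‖ ≤ 1 ∧ ε ≤ ‖eval z (P a)‖ := by
    refine hK.induction_on (p := fun s => ∃ ε : ℝ, 0 < ε ∧ ∀ a ∈ s, ∃ z : ι → ℂ, ‖z‖ ≤ 1 ∧
      ε ≤ ‖eval z (P a)‖) ⟨1, one_pos, by simp⟩ ?_ ?_ ?_
    · rintro s t hst ⟨ε, h0, h1⟩
      exact ⟨ε, h0, fun a ha => h1 a (hst ha)⟩
    · rintro s t ⟨ε, h0, h1⟩ ⟨ε', h0', h1'⟩
      refine ⟨min ε ε', lt_min h0 h0', ?_⟩
      rintro a (ha | ha)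
      · obtain ⟨z, h2, h3⟩ := h1 a ha
        exact ⟨z, h2, (min_le_left _ _).trans h3⟩
      · obtain ⟨z, h2, h3⟩ := h1' a ha
        exact ⟨z, h2, (min_le_right _ _).trans h3⟩
    · intro a ha
      obtain ⟨z, h2, h3⟩ := exists_eval_ne (hne a ha)
      have h4 : 0 < ‖eval z (P a)‖ := norm_pos_iff.2 h3
      refine ⟨{b | ‖eval z (P a)‖ / 2 < ‖eval z (P b)‖}, ?_, ‖eval z (P a)‖ / 2, by positivity,
        fun b hb => ⟨z, h2, le_of_lt hb⟩⟩
      exact ((hcont z a ha).norm).eventually (lt_mem_nhds (half_lt_self h4))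
  obtain ⟨ε, h0, h1⟩ := key
  refine ⟨C * ENNReal.ofReal ε ^ (-c), ENNReal.mul_ne_top hC
    (ENNReal.rpow_ne_top_of_ne_zero (by simpa using h0) ENNReal.ofReal_ne_top), fun a ha => ?_⟩
  obtain ⟨z, h2, h3⟩ := h1 a ha
  refine (h _ (hd a ha) z h2).trans (mul_le_mul_right (rpow_neg_anti hc.le ?_) _)
  rw [← ofReal_norm]
  exact ENNReal.ofReal_le_ofReal h3

section Matrix

variable {d : Type*} [Fintype d] [DecidableEq d]

lemma norm_det_le_of_eigen (A : Matrix d d ℂ) (t : ℂ) (h : (t • (1 : Matrix d d ℂ) - A).det = 0) :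
    ‖A.det‖ ≤ ‖t‖ * ∑ i, ∑ j, ‖A.adjugate i j‖ := by
  obtain ⟨v, hv0, hv⟩ := Matrix.exists_mulVec_eq_zero_iff.2 h
  have h1 : A.mulVec v = t • v := by
    rw [Matrix.sub_mulVec, Matrix.smul_mulVec, Matrix.one_mulVec, sub_eq_zero] at hv
    exact hv.symm
  have h2 : A.det • v = t • A.adjugate.mulVec v := by
    rw [← Matrix.mulVec_smul, ← h1, Matrix.mulVec_mulVec, Matrix.adjugate_mul,
      Matrix.smul_mulVec, Matrix.one_mulVec]
  have hne : (Finset.univ : Finset d).Nonempty := by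
    by_contra h3
    rw [Finset.not_nonempty_iff_eq_empty, Finset.univ_eq_empty_iff] at h3
    exact hv0 (Subsingleton.elim _ _)
  obtain ⟨i, -, hi⟩ := Finset.exists_max_image Finset.univ (fun i => ‖v i‖) hne
  have hi0 : 0 < ‖v i‖ := by
    by_contra h3
    refine hv0 (funext fun j => norm_le_zero_iff.1 ((hi j (Finset.mem_univ _)).trans ?_))
    exact not_lt.1 h3
  have h3 : ‖A.det‖ * ‖v i‖ ≤ ‖t‖ * (∑ j, ‖A.adjugate i j‖) * ‖v i‖ := by
    have h4 := congrArg (fun w => ‖w i‖) h2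
    simp only [Pi.smul_apply, smul_eq_mul, norm_mul] at h4
    rw [h4, mul_assoc, Finset.sum_mul]
    gcongr
    refine (norm_sum_le _ _).trans (Finset.sum_le_sum fun j _ => ?_)
    rw [norm_mul]
    exact mul_le_mul_of_nonneg_left (hi j (Finset.mem_univ _)) (norm_nonneg _)
  refine (le_of_mul_le_mul_right h3 hi0).trans (mul_le_mul_of_nonneg_left ?_ (norm_nonneg _))
  exact Finset.single_le_sum (f := fun i => ∑ j, ‖A.adjugate i j‖)
    (fun _ _ => Finset.sum_nonneg fun _ _ => norm_nonneg _) (Finset.mem_univ i)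

omit [Fintype ι] in
lemma totalDegree_det_le {A : Matrix d d (MvPolynomial ι ℂ)} {D : ℕ}
    (h : ∀ j k, (A j k).totalDegree ≤ D) : A.det.totalDegree ≤ Fintype.card d * D := by
  rw [Matrix.det_apply]
  refine totalDegree_finsetSum_le fun σ _ => ?_
  refine (totalDegree_smul_le (S := ℂ) _ _).trans ((totalDegree_finsetProd _ _).trans ?_)
  simpa using Finset.sum_le_card_nsmul Finset.univ (fun i => (A (σ i) i).totalDegree) D
    fun i _ => h _ _

variable {κ : Type*} [Fintype κ]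

omit [Fintype ι] [Fintype d] [DecidableEq d] in
lemma map_comb (M : κ → Matrix d d (MvPolynomial ι ℂ)) (a : κ → ℂ) (z : ι → ℂ) :
    (∑ i, a i • M i).map (eval z) = ∑ i, a i • (M i).map (eval z) := by
  ext j k
  simp [Matrix.sum_apply, smul_eval]

/-- the chart form: `u` are the coordinates, `ρ` is a measure that is pushed below a multiple of
Lebesgue measure, and `δ * ∑ a i * f i` is an eigenvalue of `∑ a i • M i` -/
theorem lct_chart {Ω : Type*} [MeasurableSpace Ω] {ρ : Measure Ω} (u : Ω → ι → ℂ) (f : Ω → κ → ℂ)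
    (M : κ → Matrix d d (MvPolynomial ι ℂ)) (δ : MvPolynomial ι ℂ) {D : ℕ}
    (hD : ∀ i j k, (M i j k).totalDegree ≤ D)
    (hne : ∀ a : κ → ℂ, a ≠ 0 → (∑ i, a i • M i).det ≠ 0) {R : ℝ} (hR : 0 ≤ R)
    (hu : ∀ᵐ x ∂ρ, ‖u x‖ ≤ R)
    (hrel : ∀ a : κ → ℂ, ∀ᵐ x ∂ρ, ((eval (u x) δ * (a ⬝ᵥ f x)) • (1 : Matrix d d ℂ) -
      (∑ i, a i • M i).map (eval (u x))).det = 0)
    {K : ℝ≥0∞} (hK : K ≠ ⊤) (hpush : ∀ F : (ι → ℂ) → ℝ≥0∞, Measurable F →
      ∫⁻ x, F (u x) ∂ρ ≤ K * ∫⁻ z in closedBall (0 : ι → ℂ) R, F z)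
    {c : ℝ} (hc : 0 < c) (hcd : c * (Fintype.card d * D : ℕ) < 2) :
    ∃ C : ℝ≥0∞, C ≠ ⊤ ∧ ∀ a : κ → ℂ, ∫⁻ x, ‖a ⬝ᵥ f x‖ₑ ^ (-c) ∂ρ ≤ C * ‖a‖ₑ ^ (-c) := by
  have hcA : Continuous fun q : (κ → ℂ) × (ι → ℂ) => ∑ i, q.1 i • (M i).map (eval q.2) := by
    refine continuous_finsetSum _ fun i _ => ((continuous_apply i).comp continuous_fst).smul ?_
    exact continuous_matrix fun j k => (continuous_eval (M i j k)).comp continuous_snd
  obtain ⟨C1, hC1, h1⟩ := pol_family (isCompact_sphere (0 : κ → ℂ) 1)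
    (fun a => (∑ i, a i • M i).det) (d := Fintype.card d * D)
    (fun a _ => totalDegree_det_le fun j k => by
      rw [Matrix.sum_apply]
      exact totalDegree_finsetSum_le fun i _ => (totalDegree_smul_le _ _).trans (hD i j k))
    (fun z => by
      have := (hcA.comp (continuous_id.prodMk (continuous_const (y := z)))).matrix_det
      refine (this.congr fun a => ?_).continuousOn
      rw [RingHom.map_det, RingHom.mapMatrix_apply, map_comb]
      rfl)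
    (fun a ha => hne a (by rintro rfl; simp at ha)) hc hcd hR
  have hcB : Continuous fun q : (κ → ℂ) × (ι → ℂ) => ‖eval q.2 δ‖ *
      ∑ j, ∑ k, ‖(∑ i, q.1 i • (M i).map (eval q.2)).adjugate j k‖ :=
    ((continuous_eval δ).comp continuous_snd).norm.mul (continuous_finsetSum _ fun j _ =>
      continuous_finsetSum _ fun k _ => (hcA.matrix_adjugate.matrix_elem j k).norm)
  obtain ⟨B, hB⟩ := (((isCompact_sphere (0 : κ → ℂ) 1).prod
    (isCompact_closedBall (0 : ι → ℂ) R)).image hcB).bddAbove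
  set A : ℝ≥0∞ := ENNReal.ofReal (max B 1) with hA
  have hA0 : A ≠ 0 := by
    rw [hA, ne_eq, ENNReal.ofReal_eq_zero, not_le]; positivity
  have hAc : A ^ c ≠ ⊤ := ENNReal.rpow_ne_top_of_nonneg hc.le ENNReal.ofReal_ne_top
  have unit : ∀ a : κ → ℂ, ‖a‖ = 1 → ∫⁻ x, ‖a ⬝ᵥ f x‖ₑ ^ (-c) ∂ρ ≤ A ^ c * (K * C1) := by
    intro a ha
    have ha' : a ∈ sphere (0 : κ → ℂ) 1 := by simpa using ha
    calc _ ≤ ∫⁻ x, A ^ c * ‖eval (u x) (∑ i, a i • M i).det‖ₑ ^ (-c) ∂ρ := by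
          refine lintegral_mono_ae ?_
          filter_upwards [hu, hrel a] with x h2 h3
          refine rpow_neg_le_of_le_mul hc.le hA0 ENNReal.ofReal_ne_top ?_
          rw [← ofReal_norm, ← ofReal_norm, hA, ← ENNReal.ofReal_mul (by positivity)]
          refine ENNReal.ofReal_le_ofReal ?_
          have h4 := norm_det_le_of_eigen _ _ h3
          have h5 := hB ⟨(a, u x), ⟨ha', by simpa using h2⟩, rfl⟩
          rw [RingHom.map_det, RingHom.mapMatrix_apply]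
          refine h4.trans ?_
          rw [norm_mul, mul_right_comm, map_comb]
          exact mul_le_mul_of_nonneg_right (h5.trans (le_max_left _ _)) (norm_nonneg _)
      _ ≤ _ := by
          rw [lintegral_const_mul' _ _ hAc]
          gcongr
          refine (hpush _ ((measurable_eval _).enorm.pow_const _)).trans ?_
          gcongr
          exact h1 a ha'
  refine ⟨A ^ c * (K * C1) + 1, ENNReal.add_ne_top.2
    ⟨ENNReal.mul_ne_top hAc (ENNReal.mul_ne_top hK hC1), ENNReal.one_ne_top⟩, fun a => ?_⟩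
  by_cases ha : a = 0
  · simp [ha, ENNReal.zero_rpow_of_neg (neg_lt_zero.2 hc)]
  have hn : 0 < ‖a‖ := norm_pos_iff.2 ha
  have h2 := unit (((‖a‖ : ℂ))⁻¹ • a) (by
    rw [norm_smul, norm_inv, Complex.norm_real, norm_norm, inv_mul_cancel₀ hn.ne'])
  have h3 : ∀ x, ‖a ⬝ᵥ f x‖ₑ ^ (-c) = ‖a‖ₑ ^ (-c) * ‖(((‖a‖ : ℂ))⁻¹ • a) ⬝ᵥ f x‖ₑ ^ (-c) := by
    intro x
    rw [← ENNReal.mul_rpow_of_ne_top enorm_ne_top enorm_ne_top]
    congr 1
    rw [← ofReal_norm, ← ofReal_norm, ← ofReal_norm, ← ENNReal.ofReal_mul hn.le, smul_dotProduct,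
      norm_smul, norm_inv, Complex.norm_real, norm_norm, mul_inv_cancel_left₀ hn.ne']
  simp_rw [h3]
  rw [lintegral_const_mul' _ _ (ENNReal.rpow_ne_top_of_ne_zero (by simpa using ha) enorm_ne_top),
    mul_comm]
  gcongr
  exact h2.trans le_self_add

end Matrix

end Pool.Agent.Lib.MP_5c318e_ag.N
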