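import Pool.Agent.Lib.MP_5c318e_ag.N.T2L

/-! The Gram matrix of a quadratic form given as a function, and the Gram matrices of `h2`, `h3`. -/

set_option autoImplicit false

namespace Pool.Agent.Lib.MP_5c318e_ag.N

open MeasureTheory Set Matrix Complex
open scoped ENNReal ComplexConjugate

section Pz

variable {ι : Type*} [Fintype ι] [DecidableEq ι]

/-- polarisation -/
noncomputable def pz (h : (ι → ℂ) → ℝ≥0∞) : Matrix ι ι ℂ := Matrix.of fun i j =>
  (((h (Pi.single i 1 + Pi.single j 1)).toReal - (h (Pi.single i 1 + Pi.single j (-1))).toReal) -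
    I * ((h (Pi.single i 1 + Pi.single j I)).toReal -
      (h (Pi.single i 1 + Pi.single j (-I))).toReal)) / 4

theorem pz_eq {h : (ι → ℂ) → ℝ≥0∞} {G : Matrix ι ι ℂ}
    (H : ∀ u, star u ⬝ᵥ G *ᵥ u = ((h u).toReal : ℂ)) : pz h = G := by
  ext i j
  have e : ∀ s : ℂ, ((h (Pi.single i 1 + Pi.single j s)).toReal : ℂ) =
      G i i + s * G i j + conj s * G j i + conj s * s * G j j := fun s => by
    rw [← H, star_add, mulVec_add, Pi.star_single, Pi.star_single, add_dotProduct,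
      single_dotProduct, single_dotProduct]
    simp only [Pi.add_apply, mulVec_single, star_one, star_def, Pi.smul_apply, col_apply,
      MulOpposite.smul_eq_mul_unop, MulOpposite.unop_op]
    ring
  simp only [pz, of_apply, e, map_neg, map_one, conj_I]
  linear_combination (-(G i j) / 2 + G j i / 2) * I_sq

theorem isHermitian_of_form {h : (ι → ℂ) → ℝ≥0∞} {G : Matrix ι ι ℂ}
    (H : ∀ u, star u ⬝ᵥ G *ᵥ u = ((h u).toReal : ℂ)) : G.IsHermitian := by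
  rw [IsHermitian, ← pz_eq (G := Gᴴ) (h := h) fun u => ?_, pz_eq H]
  rw [← conj_ofReal, ← H, ← star_def, ← star_dotProduct_star, star_star, star_mulVec,
    dotProduct_mulVec]

variable {Ω : Type*} [MeasurableSpace Ω] {ν : Measure Ω} {F : Ω → ι → ℂ} {w : Ω → ℝ≥0∞}

/-- weighted square norms are hermitian forms -/
theorem pz_form (hF : Measurable F) (hw : Measurable w)
    (hfin : ∀ u, ∫⁻ x, ‖u ⬝ᵥ F x‖ₑ ^ 2 * w x ∂ν ≠ ⊤) (u : ι → ℂ) :
    star u ⬝ᵥ (pz fun u => ∫⁻ x, ‖u ⬝ᵥ F x‖ₑ ^ 2 * w x ∂ν) *ᵥ u =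
      ((∫⁻ x, ‖u ⬝ᵥ F x‖ₑ ^ 2 * w x ∂ν).toReal : ℂ) := by
  have e : ∀ u, ∫⁻ x, ‖u ⬝ᵥ F x‖ₑ ^ 2 * w x ∂ν = ∫⁻ x, ‖u ⬝ᵥ F x‖ₑ ^ 2 ∂ν.withDensity w := fun u => by
    rw [lintegral_withDensity_eq_lintegral_mul _ hw ((measurable_dot hF u).enorm.pow_const _)]
    simp [mul_comm]
  simp only [e] at hfin ⊢
  generalize ν.withDensity w = μ at *
  have hm : ∀ u, MemLp (fun x => u ⬝ᵥ F x) 2 μ := fun u =>
    ⟨(measurable_dot hF u).aestronglyMeasurable, by
      rw [eLpNorm_lt_top_iff_lintegral_rpow_enorm_lt_top (by simp) (by simp)]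
      simpa [lt_top_iff_ne_top] using hfin u⟩
  have hi : ∀ i j, Integrable (fun x => conj (F x i) * F x j) μ := fun i j => by
    have h1 := hm (Pi.single i 1)
    have h2 := hm (Pi.single j 1)
    simp only [single_one_dotProduct] at h1 h2
    exact h1.star.integrable_mul h2
  have key : ∀ u : ι → ℂ, star u ⬝ᵥ (Matrix.of fun i j => ∫ x, conj (F x i) * F x j ∂μ) *ᵥ u =
      ((∫⁻ x, ‖u ⬝ᵥ F x‖ₑ ^ 2 ∂μ).toReal : ℂ) := fun u => by
    have e2 : (∫⁻ x, ‖u ⬝ᵥ F x‖ₑ ^ 2 ∂μ).toReal = ∫ x, ‖u ⬝ᵥ F x‖ ^ 2 ∂μ := by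
      rw [integral_eq_lintegral_of_nonneg_ae (Filter.Eventually.of_forall fun _ => by positivity)
        ((measurable_dot hF u).norm.pow_const _).aestronglyMeasurable]
      simp only [ENNReal.ofReal_pow (norm_nonneg _), ofReal_norm]
    rw [e2, ← integral_complex_ofReal]
    simp only [dotProduct, mulVec, of_apply, Finset.mul_sum, ← integral_mul_const,
      ← integral_const_mul]
    simp only [← integral_finsetSum _ fun j _ => ((hi _ j).mul_const _).const_mul _]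
    rw [← integral_finsetSum _ fun i _ => integrable_finsetSum _
      fun j _ => ((hi i j).mul_const _).const_mul _]
    refine integral_congr_ae (Filter.Eventually.of_forall fun x => ?_)
    simp only [ofReal_pow, ← conj_mul', map_sum, Finset.sum_mul_sum, map_mul, Pi.star_apply,
      star_def]
    exact Finset.sum_congr rfl fun i _ => Finset.sum_congr rfl fun j _ => by ring
  rw [pz_eq key, key]

end Pz

variable {Ω : Type*} [MeasurableSpace Ω] {ν : Measure Ω} [SigmaFinite ν] {p dl : ℝ}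

section Two

variable {k : ℕ} {τ : Ω → Fin (k + 1) → ℂ} {J : Type*} [Fintype J]

omit [SigmaFinite ν] in
theorem pz_h2 (hτ : Measurable τ) (hfin : ∀ u, h2 ν τ p dl J u ≠ ⊤) (u : Fin (k + 1) → ℂ) :
    star u ⬝ᵥ pz (h2 ν τ p dl J) *ᵥ u = ((h2 ν τ p dl J u).toReal : ℂ) :=
  pz_form (F := fun x : Option (J × Fin (k + 1)) → Ω => τ (x none))
    (hτ.comp (measurable_pi_apply none)) (Finset.measurable_prod _ fun _ _ =>
      measurable_w2 hτ (measurable_pi_apply none)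
        (measurable_pi_iff.2 fun _ => measurable_pi_apply _)) hfin u

theorem nD_le_det_pz_h2 (hτ : Measurable τ) (hp : 0 < p) (hdl : 0 ≤ dl)
    (hJ : Fintype.card J * ((k + 1 : ℕ) * dl) = 2 - p) (hB : nB ν τ p ≠ ⊤)
    (hN : ∀ a, a ≠ 0 → nN ν τ p a ≠ 0) (hfin : ∀ u, h2 ν τ p dl J u ≠ ⊤) :
    nD ν τ p ^ (1 + (k + 1) * Fintype.card J) ≤ cD (k + 1) p ^ (2 / p) *
      ((k + 1 : ℕ) * c2 k (Fintype.card J) p dl) ^ (k + 1) *
        ENNReal.ofReal (pz (h2 ν τ p dl J)).det.re :=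
  nD_le_det_h2 hτ hp hdl hJ hB hN (isHermitian_of_form (pz_h2 hτ hfin)) fun u => by
    rw [pz_h2 hτ hfin, ofReal_re, ENNReal.ofReal_toReal (hfin u)]

end Two

section Three

omit [SigmaFinite ν] in
theorem pz_h3 {κ : Type*} [Fintype κ] [DecidableEq κ] {τ : Ω → κ → ℂ} (hτ : Measurable τ)
    {a : κ → ℂ} (hfin : ∀ u, h3 ν τ p a u ≠ ⊤) (u : κ → ℂ) :
    star u ⬝ᵥ pz (h3 ν τ p a) *ᵥ u = ((h3 ν τ p a u).toReal : ℂ) :=
  pz_form hτ ((measurable_dot hτ a).enorm.pow_const _) hfin u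

theorem nD_le_det_pz_h3 {r : ℕ} {τ : Ω → Fin r → ℂ} (hτ : Measurable τ) (hp : 0 < p) (hp2 : p ≤ 2)
    (hB : nB ν τ p ≠ ⊤) (hN : ∀ a, a ≠ 0 → nN ν τ p a ≠ 0) {a : Fin r → ℂ} (ha : a ≠ 0)
    (hfin : ∀ u, h3 ν τ p a u ≠ ⊤) :
    nD ν τ p ^ (2 / p) ≤ cD r p ^ (2 / p) * (r * nN ν τ p a ^ (2 / p - 1)) ^ r *
      ENNReal.ofReal (pz (h3 ν τ p a)).det.re :=
  nD_le_det_h3 hτ hp hp2 hB hN ha (isHermitian_of_form (pz_h3 hτ hfin)) fun u => by
    rw [pz_h3 hτ hfin, ofReal_re, ENNReal.ofReal_toReal (hfin u)]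

end Three

end Pool.Agent.Lib.MP_5c318e_ag.N
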