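import Pool.Agent.Lib.MP_5c318e_ag.N.T2L

/-! One point and blocks of points: permutations inside the blocks, antisymmetrisation, weights. -/

set_option autoImplicit false

namespace Pool.Agent.Lib.MP_5c318e_ag.N

open Set Matrix Function
open scoped ENNReal

/-- the permutations of the slots that fix a function -/
def stab {κ X Y : Type*} (F : (κ → X) → Y) : Subgroup (Equiv.Perm κ) where
  carrier := {σ | ∀ p, F (fun k => p (σ k)) = F p}
  one_mem' := fun _ => rfl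
  mul_mem' := fun {a b} ha hb p => (hb fun k => p (a k)).trans (ha p)
  inv_mem' := fun {a} ha p => by simpa using (ha fun k => p (a⁻¹ k)).symm

variable {X J : Type*} [Fintype J] {k : ℕ} (τ : X → Fin (k + 1) → ℂ)

/-- permutations inside the blocks -/
def bp (g : J → Equiv.Perm (Fin (k + 1))) : Equiv.Perm (Option (J × Fin (k + 1))) :=
  Equiv.optionCongr (Equiv.prodCongrRight g)

/-- the sign -/
def sn (g : J → Equiv.Perm (Fin (k + 1))) : ℂ := ∏ j, ((Equiv.Perm.sign (g j) : ℤ) : ℂ)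

/-- the product of the determinants of the blocks -/
noncomputable def sg (x : Option (J × Fin (k + 1)) → X) : ℂ := ∏ j, dt τ fun i => x (some (j, i))

/-- the product of the determinants with one point replaced by the first point -/
noncomputable def su (x : Option (J × Fin (k + 1)) → X) : ℂ :=
  ∏ j, ∏ q, dt τ (update (fun i => x (some (j, i))) q (x none))

lemma sn_sq (g : J → Equiv.Perm (Fin (k + 1))) : sn g ^ 2 = 1 := by
  rw [sn, ← Finset.prod_pow]
  refine Finset.prod_eq_one fun j _ => ?_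
  rcases Int.units_eq_one_or (Equiv.Perm.sign (g j)) with h | h <;> simp [h]

lemma norm_sn (g : J → Equiv.Perm (Fin (k + 1))) : ‖sn g‖ = 1 := by
  have := congrArg norm (sn_sq g)
  rwa [norm_pow, norm_one, pow_eq_one_iff_of_nonneg (norm_nonneg _) two_ne_zero] at this

lemma dt_perm {r : ℕ} (τ : X → Fin r → ℂ) (y : Fin r → X) (s : Equiv.Perm (Fin r)) :
    dt τ (fun i => y (s i)) = ((Equiv.Perm.sign s : ℤ) : ℂ) * dt τ y :=
  det_permute s (Matrix.of fun j => τ (y j))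

lemma sg_bp (g : J → Equiv.Perm (Fin (k + 1))) (x : Option (J × Fin (k + 1)) → X) :
    sg τ (fun a => x (bp g a)) = sn g * sg τ x := by
  rw [sg, sg, sn, ← Finset.prod_mul_distrib]
  exact Finset.prod_congr rfl fun j _ => dt_perm τ (fun i => x (some (j, i))) (g j)

lemma su_bp (g : J → Equiv.Perm (Fin (k + 1))) (x : Option (J × Fin (k + 1)) → X) :
    su τ (fun a => x (bp g a)) = sn g ^ (k + 1) * su τ x := by
  rw [su, su, sn, ← Finset.prod_pow, ← Finset.prod_mul_distrib]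
  refine Finset.prod_congr rfl fun j _ => ?_
  rw [← Equiv.prod_comp (g j) fun q => dt τ (update (fun i => x (some (j, i))) q (x none)),
    ← Fin.prod_const, ← Finset.prod_mul_distrib]
  refine Finset.prod_congr rfl fun q _ => ?_
  rw [← dt_perm]
  congr 1
  exact (update_comp_eq_of_injective (fun i => x (some (j, i))) (g j).injective q (x none)).symm

lemma su_sq_bp (g : J → Equiv.Perm (Fin (k + 1))) (x : Option (J × Fin (k + 1)) → X) :
    su τ (fun a => x (bp g a)) ^ 2 = su τ x ^ 2 := by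
  rw [su_bp, mul_pow, ← pow_mul, mul_comm (k + 1), pow_mul, sn_sq, one_pow, one_mul]

/-- tensors that are antisymmetric in every block -/
theorem exists_of_anti [DecidableEq J] (t : (Option (J × Fin (k + 1)) → Fin (k + 1)) → ℂ) :
    ∃ c : Fin (k + 1) → ℂ, ∀ (x : Option (J × Fin (k + 1)) → X) (z : ℂ),
      (∀ g, sn g * z = ∑ I, t I * ∏ a, τ (x (bp g a)) (I a)) → z = sg τ x * (c ⬝ᵥ τ (x none)) := by
  set e : (Option (J × Fin (k + 1)) → Fin (k + 1)) → ℂ := fun I =>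
    ∏ j, ((1 : Matrix _ _ ℂ).submatrix id fun i => I (some (j, i))).det with he
  set n : ℂ := (Fintype.card (J → Equiv.Perm (Fin (k + 1))) : ℂ) with hn
  have hn0 : n ≠ 0 := Nat.cast_ne_zero.2 Fintype.card_ne_zero
  refine ⟨n⁻¹ • ∑ I, (t I * e I) • Pi.single (I none) 1, fun x z h => ?_⟩
  have key : ∀ I : Option (J × Fin (k + 1)) → Fin (k + 1),
      ∑ g, sn g * ∏ a, τ (x (bp g a)) (I a) = τ (x none) (I none) * (sg τ x * e I) := fun I => by
    have h1 : ∀ j, (dt τ fun i => x (some (j, i))) *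
        ((1 : Matrix _ _ ℂ).submatrix id fun i => I (some (j, i))).det =
        ∑ s : Equiv.Perm (Fin (k + 1)), ((Equiv.Perm.sign s : ℤ) : ℂ) *
          ∏ i, τ (x (some (j, s i))) (I (some (j, i))) := fun j => by
      rw [dt, ← det_mul, det_apply']
      simp [mul_apply, one_apply]
    rw [sg, he, ← Finset.prod_mul_distrib]
    simp only [h1]
    rw [Finset.prod_univ_sum, Fintype.piFinset_univ, Finset.mul_sum]
    refine Finset.sum_congr rfl fun g _ => ?_
    rw [Fintype.prod_option, Fintype.prod_prod_type, Finset.prod_mul_distrib, sn, mul_left_comm]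
    rfl
  have h2 : n * z = ∑ g : J → Equiv.Perm (Fin (k + 1)), sn g * (sn g * z) := by
    simp only [← mul_assoc, ← sq, sn_sq, one_mul]
    rw [Finset.sum_const, Finset.card_univ, nsmul_eq_mul]
  simp only [h, Finset.mul_sum] at h2
  rw [Finset.sum_comm] at h2
  simp only [mul_left_comm (sn _), ← Finset.mul_sum, key] at h2
  rw [smul_dotProduct, sum_dotProduct, smul_eq_mul, mul_left_comm, eq_inv_mul_iff_mul_eq₀ hn0, h2,
    Finset.mul_sum]
  refine Finset.sum_congr rfl fun I _ => ?_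
  rw [smul_dotProduct, single_one_dotProduct, smul_eq_mul]
  ring

variable {p dl : ℝ}

lemma prod_w2 (x : Option (J × Fin (k + 1)) → X) :
    ∏ j, w2 τ p dl (x none) (fun i => x (some (j, i))) =
      ‖sg τ x‖ₑ ^ (p + k * dl) * ‖su τ x‖ₑ ^ (-dl) := by
  have e : ∀ {ι : Type _} [Fintype ι] (a : ι → ℂ), ‖∏ i, a i‖ₑ = ∏ i, ‖a i‖ₑ := fun a => by
    rw [← ofReal_norm, norm_prod, ENNReal.ofReal_prod_of_nonneg fun _ _ => norm_nonneg _]
    simp only [ofReal_norm]
  have e' : ∀ a : Fin (k + 1) → ℂ, ‖∏ i, a i‖ₑ = ∏ i, ‖a i‖ₑ := fun a => by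
    rw [← ofReal_norm, norm_prod, ENNReal.ofReal_prod_of_nonneg fun _ _ => norm_nonneg _]
    simp only [ofReal_norm]
  simp only [w2, sg, su, Finset.prod_mul_distrib]
  rw [e, e, ← ENNReal.prod_rpow_of_ne_top fun _ _ => enorm_ne_top,
    ← ENNReal.prod_rpow_of_ne_top fun _ _ => enorm_ne_top]
  simp only [e', ← ENNReal.prod_rpow_of_ne_top fun _ _ => enorm_ne_top]

/-- the weight as a root -/
lemma enorm_root {a b M : ℕ} (ha : (a : ℝ) * (2 / M) = p + k * dl) (hb : (b : ℝ) * (2 / M) = 4 - dl)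
    {x : Option (J × Fin (k + 1)) → X} (h : su τ x ≠ 0) :
    ‖sg τ x ^ a * su τ x ^ b‖ₑ ^ (2 / M : ℝ) =
      ‖su τ x ^ 2‖ₑ ^ 2 * ∏ j, w2 τ p dl (x none) (fun i => x (some (j, i))) := by
  rw [prod_w2, enorm_mul, enorm_pow, enorm_pow, enorm_pow,
    ENNReal.mul_rpow_of_nonneg _ _ (by positivity), ← ENNReal.rpow_natCast_mul,
    ← ENNReal.rpow_natCast_mul, ha, hb, mul_left_comm, ← pow_mul, ← ENNReal.rpow_natCast,
    ← ENNReal.rpow_add _ _ (by simpa using h) enorm_ne_top]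
  congr 2

lemma sq_le_w2 (hp : 0 < p) (hdl : 0 ≤ dl) (h2 : p + k * dl ≤ 2) (x0 : X) (y : Fin (k + 1) → X) :
    ((k + 1).factorial * ‖τ x0‖ₑ) ^ (-((k + 1 : ℕ) * dl)) *
      (‖dt τ y‖ₑ ^ 2 * ∏ i, ‖τ (y i)‖ₑ ^ (-(2 - p))) ≤
      ((k + 1).factorial : ℝ≥0∞) ^ (2 - (p + k * dl)) * w2 τ p dl x0 y := by
  refine le_trans ?_ (mul_le_mul_right (le_w2 hdl x0 y) _)
  rw [mul_left_comm (((k + 1).factorial : ℝ≥0∞) ^ _)]
  refine mul_le_mul_right ?_ _
  by_cases h0 : dt τ y = 0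
  · simp [h0]
  have hP : ∏ i, ‖τ (y i)‖ₑ ≠ 0 := fun h => h0 (by simpa [h] using enorm_dt_le τ y)
  have hPt : ∏ i, ‖τ (y i)‖ₑ ≠ ⊤ := ENNReal.prod_ne_top fun _ _ => enorm_ne_top
  have e1 : ‖dt τ y‖ₑ ^ 2 = ‖dt τ y‖ₑ ^ (p + k * dl) * ‖dt τ y‖ₑ ^ (2 - (p + k * dl)) := by
    rw [← ENNReal.rpow_add_of_nonneg _ _ (by positivity) (by linarith), add_sub_cancel,
      ENNReal.rpow_two]
  rw [ENNReal.prod_rpow_of_ne_top fun _ _ => enorm_ne_top, e1, mul_assoc, mul_left_comm]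
  rw [mul_left_comm, mul_left_comm (((k + 1).factorial : ℝ≥0∞) ^ _)]
  refine mul_le_mul_right ((mul_le_mul_left (ENNReal.rpow_le_rpow (enorm_dt_le τ y)
    (by linarith)) _).trans (le_of_eq ?_)) _
  rw [ENNReal.mul_rpow_of_nonneg _ _ (by linarith), mul_assoc, ← ENNReal.rpow_add _ _ hP hPt]
  congr 2
  ring

lemma sum_sq_rpow_le {ι : Type*} [Fintype ι] (v : ι → ℂ) {c : ℝ} (hc : 0 ≤ c) :
    ENNReal.ofReal (∑ i, ‖v i‖ ^ 2) ^ (-c) ≤ ‖v‖ₑ ^ (-(2 * c)) := by
  have h1 : ‖v‖ₑ ^ (2 : ℝ) ≤ ENNReal.ofReal (∑ i, ‖v i‖ ^ 2) := by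
    rw [ENNReal.rpow_two, ← ofReal_norm, ← ENNReal.ofReal_pow (norm_nonneg _)]
    refine ENNReal.ofReal_le_ofReal ((Real.le_sqrt (norm_nonneg _) (by positivity)).1
      ((pi_norm_le_iff_of_nonneg (Real.sqrt_nonneg _)).2 fun i => Real.le_sqrt_of_sq_le ?_))
    exact Finset.single_le_sum (f := fun i => ‖v i‖ ^ 2) (fun _ _ => by positivity)
      (Finset.mem_univ i)
  rw [← mul_neg, ENNReal.rpow_mul]
  exact rpow_neg_anti hc h1

/-- comparison with the weight of the saturation -/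
theorem sat_le_w2 (hp : 0 < p) (hdl : 0 ≤ dl) [Nonempty J]
    (hJ : Fintype.card J * ((k + 1 : ℕ) * dl) = 2 - p) :
    ∃ C : ℝ≥0∞, C ≠ ⊤ ∧ ∀ x : Option (J × Fin (k + 1)) → X,
      ‖sg τ x‖ₑ ^ 2 * ∏ a, ENNReal.ofReal (∑ i, ‖τ (x a) i‖ ^ 2) ^ (-(1 - p / 2)) ≤
        C * ∏ j, w2 τ p dl (x none) (fun i => x (some (j, i))) := by
  have hp2 : 0 ≤ 2 - p := by rw [← hJ]; positivity
  have h2 : p + k * dl ≤ 2 := by
    have h1 : (1 : ℝ) ≤ Fintype.card J := Nat.one_le_cast.2 Fintype.card_pos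
    have h3 : 0 ≤ ((k + 1 : ℕ) : ℝ) * dl := by positivity
    have h4 := mul_le_mul_of_nonneg_right h1 h3
    push_cast at h4 hJ
    linarith
  have hf0 : ((k + 1).factorial : ℝ≥0∞) ≠ 0 := by simp [Nat.factorial_ne_zero]
  refine ⟨((k + 1).factorial : ℝ≥0∞) ^ (2 - p) *
    (((k + 1).factorial : ℝ≥0∞) ^ (2 - (p + k * dl))) ^ Fintype.card J,
    ENNReal.mul_ne_top (ENNReal.rpow_ne_top_of_ne_zero hf0 (by simp))
      (ENNReal.pow_ne_top (ENNReal.rpow_ne_top_of_ne_zero hf0 (by simp))), fun x => ?_⟩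
  have h1 := Finset.prod_le_prod' fun j (_ : j ∈ Finset.univ) =>
    sq_le_w2 τ hp hdl h2 (x none) fun i => x (some (j, i))
  have e : -((k + 1 : ℕ) * dl) * (Fintype.card J : ℝ) = -(2 - p) := by rw [← hJ]; ring
  rw [Finset.prod_mul_distrib, Finset.prod_mul_distrib, Finset.prod_mul_distrib, Finset.prod_const,
    Finset.prod_const, Finset.card_univ, ← ENNReal.rpow_mul_natCast, e,
    ENNReal.mul_rpow_of_ne_top (by simp) enorm_ne_top] at h1
  have h3 : ((k + 1).factorial : ℝ≥0∞) ^ (2 - p) * ((k + 1).factorial : ℝ≥0∞) ^ (-(2 - p)) = 1 := by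
    rw [← ENNReal.rpow_add _ _ hf0 (by simp), add_neg_cancel, ENNReal.rpow_zero]
  have e2 : ‖sg τ x‖ₑ ^ 2 = ∏ j, ‖dt τ fun i => x (some (j, i))‖ₑ ^ 2 := by
    rw [Finset.prod_pow, sg, ← ofReal_norm, norm_prod,
      ENNReal.ofReal_prod_of_nonneg fun _ _ => norm_nonneg _]
    simp only [ofReal_norm]
  rw [mul_assoc]
  refine le_trans ?_ (mul_le_mul_right h1 _)
  rw [mul_assoc, ← mul_assoc (_ ^ (2 - p)), h3, one_mul, e2, mul_left_comm]
  refine mul_le_mul_right ((Finset.prod_le_prod' fun a _ =>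
    sum_sq_rpow_le (τ (x a)) (by linarith)).trans (le_of_eq ?_)) _
  rw [Fintype.prod_option, Fintype.prod_prod_type, show 2 * (1 - p / 2) = 2 - p by ring]

end Pool.Agent.Lib.MP_5c318e_ag.N
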