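import Pool.Agent.Lib.MP_5c318e_ag.N.T2L
import Pool.Agent.Lib.MP_5c318e_ag.O.KOrth
import Pool.Agent.Lib.MP_5c318e_ag.Ku.KFam

/-! The invariant square integrable functions for the weight of `h2` are the `t (x_0) / E`. -/

set_option autoImplicit false
set_option linter.unusedSectionVars false

namespace Pool.Agent.Lib.MP_5c318e_ag.Ku

open MeasureTheory Set Matrix Function Equiv
open Pool.Agent.Lib.MP_5c318e_ag.V Pool.Agent.Lib.MP_5c318e_ag.N
open scoped ENNReal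

noncomputable section

section blk

variable {J X : Type} {r : ℕ}

/-- the points of one block -/
def blk (x : Option (J × Fin r) → X) (j : J) : Fin r → X := fun i => x (some (j, i))

/-- a permutation of each block -/
def bp (σ : J → Perm (Fin r)) : Perm (Option (J × Fin r)) := optionCongr (prodCongrRight σ)

@[simp] theorem bp_none (σ : J → Perm (Fin r)) : bp σ none = none := rfl

@[simp] theorem bp_some (σ : J → Perm (Fin r)) (j : J) (i : Fin r) :
    bp σ (some (j, i)) = some (j, σ j i) := rfl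

/-- block permutations as a homomorphism -/
def bpHom (J : Type) (r : ℕ) : (J → Perm (Fin r)) →* Perm (Option (J × Fin r)) :=
  MonoidHom.mk' bp fun _ _ => Equiv.ext fun k => by rcases k with _ | ⟨j, i⟩ <;> rfl

/-- the group of block permutations -/
def BG (J : Type) (r : ℕ) : Subgroup (Perm (Option (J × Fin r))) := (bpHom J r).range

theorem bp_mem (σ : J → Perm (Fin r)) : bp σ ∈ BG J r := ⟨σ, rfl⟩

theorem BG_none {s : Perm (Option (J × Fin r))} (hs : s ∈ BG J r) : s none = none := by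
  obtain ⟨σ, rfl⟩ := hs
  rfl

theorem dt_perm (τ : X → Fin r → ℂ) (y : Fin r → X) (σ : Perm (Fin r)) :
    dt τ (fun i => y (σ i)) = ((Perm.sign σ : ℤ) : ℂ) * dt τ y :=
  det_permute σ (Matrix.of fun j => τ (y j))

theorem dt_update_perm (τ : X → Fin r → ℂ) (y : Fin r → X) (σ : Perm (Fin r)) (q : Fin r) (x0 : X) :
    dt τ (update (fun i => y (σ i)) q x0) = ((Perm.sign σ : ℤ) : ℂ) * dt τ (update y (σ q) x0) := by
  rw [← dt_perm]
  exact congrArg _ (update_comp_eq_of_injective y σ.injective q x0).symm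

theorem sign_sq (σ : Perm (Fin r)) : ((Perm.sign σ : ℤ) : ℂ) * ((Perm.sign σ : ℤ) : ℂ) = 1 := by
  rw [← Int.cast_mul, ← Units.val_mul, Int.units_mul_self, Units.val_one, Int.cast_one]

theorem norm_sign (σ : Perm (Fin r)) : ‖((Perm.sign σ : ℤ) : ℂ)‖ = 1 := by
  rcases Int.units_eq_one_or (Perm.sign σ) with h | h <;> simp [h]

variable [Fintype J]

/-- an invariant denominator -/
def den (τ : X → Fin r → ℂ) (x : Option (J × Fin r) → X) : ℂ :=
  ∏ j, ∏ q, dt τ (blk x j) * dt τ (update (blk x j) q (x none))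

theorem den_perm (τ : X → Fin r → ℂ) {s : Perm (Option (J × Fin r))} (hs : s ∈ BG J r)
    (x : Option (J × Fin r) → X) : den τ (fun k => x (s k)) = den τ x := by
  obtain ⟨σ, rfl⟩ := hs
  refine Finset.prod_congr rfl fun j _ => ?_
  rw [← Equiv.prod_comp (σ j) fun q => dt τ (blk x j) * dt τ (update (blk x j) q (x none))]
  refine Finset.prod_congr rfl fun q _ => ?_
  refine (congrArg₂ (· * ·) (dt_perm τ (blk x j) (σ j))
    (dt_update_perm τ (blk x j) (σ j) q (x none))).trans ?_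
  rw [mul_mul_mul_comm, sign_sq, one_mul]

/-- the absolute values of the determinants are permuted -/
theorem norm_perm (τ : X → Fin r → ℂ) {s : Perm (Option (J × Fin r))} (hs : s ∈ BG J r)
    (x : Option (J × Fin r) → X) (j : J) :
    ‖dt τ (blk (fun k => x (s k)) j)‖ = ‖dt τ (blk x j)‖ ∧
      ‖∏ q, dt τ (update (blk (fun k => x (s k)) j) q (x (s none)))‖ =
        ‖∏ q, dt τ (update (blk x j) q (x none))‖ := by
  obtain ⟨σ, rfl⟩ := hs
  refine ⟨(congrArg norm (dt_perm τ (blk x j) (σ j))).trans (by rw [norm_mul, norm_sign, one_mul]),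
    ?_⟩
  rw [norm_prod, norm_prod,
    ← Equiv.prod_comp (σ j) fun q => ‖dt τ (update (blk x j) q (x none))‖]
  exact Finset.prod_congr rfl fun q _ =>
    (congrArg norm (dt_update_perm τ (blk x j) (σ j) q (x none))).trans
      (by rw [norm_mul, norm_sign, one_mul])

theorem det_cols (τ : X → Fin r → ℂ) (y : Fin r → X) (f : Fin r → Fin r) :
    ∑ σ : Perm (Fin r), ((Perm.sign σ : ℤ) : ℂ) * ∏ i, τ (y (σ i)) (f i) =
      dt τ y * ((1 : Matrix (Fin r) (Fin r) ℂ).submatrix id f).det := by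
  rw [dt, ← det_mul, det_apply']
  refine Finset.sum_congr rfl fun σ _ => congrArg _ (Finset.prod_congr rfl fun i _ => ?_)
  simp [mul_apply, one_apply]

variable [DecidableEq J]

/-- antisymmetric tensors -/
theorem antisym (t : (Option (J × Fin r) → Fin r) → ℂ) : ∃ c : Fin r → ℂ,
    ∀ (τ : X → Fin r → ℂ) (x : Option (J × Fin r) → X) (u : ℂ),
      (∀ σ : J → Perm (Fin r), (∏ j, ((Perm.sign (σ j) : ℤ) : ℂ)) * u =
        ∑ I, t I * ∏ k, τ (x (bp σ k)) (I k)) →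
      u = (∑ i, c i * τ (x none) i) * ∏ j, dt τ (blk x j) := by
  let e : (Option (J × Fin r) → Fin r) → ℂ := fun I =>
    t I * ∏ j, ((1 : Matrix (Fin r) (Fin r) ℂ).submatrix id (blk I j)).det
  have n0 : (Fintype.card (J → Perm (Fin r)) : ℂ) ≠ 0 := Nat.cast_ne_zero.2 Fintype.card_ne_zero
  refine ⟨fun i => (∑ I with I none = i, e I) / Fintype.card (J → Perm (Fin r)),
    fun τ x u h => mul_left_cancel₀ n0 ?_⟩
  have h1 : ∀ σ : J → Perm (Fin r), u = ∑ I, t I * τ (x none) (I none) *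
      ∏ j, ((Perm.sign (σ j) : ℤ) : ℂ) * ∏ i, τ (blk x j (σ j i)) (blk I j i) := fun σ => by
    have : (∏ j, ((Perm.sign (σ j) : ℤ) : ℂ)) * ∏ j, ((Perm.sign (σ j) : ℤ) : ℂ) = 1 := by
      rw [← Finset.prod_mul_distrib]
      exact Finset.prod_eq_one fun j _ => sign_sq _
    rw [← one_mul u, ← this, mul_assoc, h σ, Finset.mul_sum]
    refine Finset.sum_congr rfl fun I _ => ?_
    rw [Fintype.prod_option, Fintype.prod_prod_type, Finset.prod_mul_distrib]
    simp only [bp_none, bp_some, blk]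
    ring
  calc (Fintype.card (J → Perm (Fin r)) : ℂ) * u = ∑ _σ : J → Perm (Fin r), u := by simp
    _ = ∑ I, t I * τ (x none) (I none) * ∑ σ : J → Perm (Fin r),
        ∏ j, ((Perm.sign (σ j) : ℤ) : ℂ) * ∏ i, τ (blk x j (σ j i)) (blk I j i) := by
      rw [Finset.sum_congr rfl fun σ _ => h1 σ, Finset.sum_comm]
      exact Finset.sum_congr rfl fun I _ => (Finset.mul_sum _ _ _).symm
    _ = ∑ I, e I * τ (x none) (I none) * ∏ j, dt τ (blk x j) := by
      refine Finset.sum_congr rfl fun I _ => ?_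
      rw [← Fintype.piFinset_univ, ← Finset.prod_univ_sum (fun _ : J => Finset.univ)
        fun j (s : Perm (Fin r)) => ((Perm.sign s : ℤ) : ℂ) * ∏ i, τ (blk x j (s i)) (blk I j i)]
      simp only [det_cols, Finset.prod_mul_distrib, e]
      ring
    _ = _ := by
      rw [← Finset.sum_mul, ← mul_assoc, Finset.mul_sum,
        ← Finset.sum_fiberwise Finset.univ fun I : Option (J × Fin r) → Fin r => I none]
      refine congrArg (· * _) (Finset.sum_congr rfl fun i _ => ?_)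
      rw [← mul_assoc, mul_div_cancel₀ _ n0, Finset.sum_mul]
      exact Finset.sum_congr rfl fun I hI => by rw [(Finset.mem_filter.1 hI).2]

end blk

section ineq

variable {X J : Type} [Fintype J] {k : ℕ} {τ : X → Fin (k + 1) → ℂ} {p dl c : ℝ}

theorem bs_le (hc : 0 ≤ c) (v : Fin (k + 1) → ℂ) :
    ENNReal.ofReal (∑ i, ‖v i‖ ^ 2) ^ (-c) ≤ ‖v‖ₑ ^ (-(2 * c)) := by
  have h : ‖v‖ₑ ^ (2 : ℝ) ≤ ENNReal.ofReal (∑ i, ‖v i‖ ^ 2) := by
    rw [← ofReal_norm, ENNReal.ofReal_rpow_of_nonneg (norm_nonneg _) zero_le_two,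
      Real.rpow_two]
    refine ENNReal.ofReal_le_ofReal ?_
    refine (Real.le_sqrt (norm_nonneg _) (by positivity)).1 ((pi_norm_le_iff_of_nonneg
      (Real.sqrt_nonneg _)).2 fun i => (Real.le_sqrt (norm_nonneg _) (by positivity)).2 ?_)
    exact Finset.single_le_sum (f := fun i => ‖v i‖ ^ 2) (fun _ _ => sq_nonneg _) (Finset.mem_univ i)
  rw [← mul_neg, ENNReal.rpow_mul]
  exact rpow_neg_anti hc h

theorem one_block (hdl : 0 ≤ dl) (h2 : 0 ≤ 2 - p - k * dl) (x0 : X) {y : Fin (k + 1) → X}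
    (hy : dt τ y ≠ 0) :
    ((k + 1).factorial * ‖τ x0‖ₑ) ^ (-((k + 1 : ℕ) * dl)) *
      (‖dt τ y‖ₑ ^ 2 * ∏ i, ‖τ (y i)‖ₑ ^ (-(2 - p))) ≤
      ((k + 1).factorial : ℝ≥0∞) ^ (2 - p - k * dl) * w2 τ p dl x0 y := by
  have hd : ‖dt τ y‖ₑ ≤ (k + 1).factorial * ∏ i, ‖τ (y i)‖ₑ := by
    simpa only [Fintype.card_fin, dt] using enorm_det_le fun i => τ (y i)
  have d0 : ‖dt τ y‖ₑ ≠ 0 := enorm_ne_zero.2 hy
  have pt : ∏ i, ‖τ (y i)‖ₑ ≠ ⊤ := ENNReal.prod_ne_top fun _ _ => enorm_ne_top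
  have p0 : ∏ i, ‖τ (y i)‖ₑ ≠ 0 := fun e => d0 (by simpa [e] using hd)
  refine le_trans ?_ (mul_le_mul_right (le_w2 hdl x0 y) _)
  rw [mul_left_comm (((k + 1).factorial : ℝ≥0∞) ^ _)]
  refine mul_le_mul_right ?_ _
  rw [ENNReal.prod_rpow_of_ne_top fun _ _ => enorm_ne_top, ← ENNReal.rpow_two,
    show (2 : ℝ) = (p + k * dl) + (2 - p - k * dl) by ring, ENNReal.rpow_add _ _ d0 enorm_ne_top,
    mul_assoc, mul_left_comm (((k + 1).factorial : ℝ≥0∞) ^ _)]
  refine mul_le_mul_right ((mul_le_mul_left (ENNReal.rpow_le_rpow hd (by linarith)) _).trans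
    (le_of_eq ?_)) _
  rw [ENNReal.mul_rpow_of_ne_top (by simp) pt, mul_assoc, ← ENNReal.rpow_add _ _ p0 pt]
  congr 2 <;> ring

theorem all_blocks (hdl : 0 ≤ dl) (hJ : Fintype.card J * ((k + 1 : ℕ) * dl) = 2 - p)
    (hc : 2 * c = 2 - p) : ∃ B : ℝ≥0∞, B ≠ ⊤ ∧ ∀ x : Option (J × Fin (k + 1)) → X,
      (∀ j, dt τ (blk x j) ≠ 0) →
      ‖∏ j, dt τ (blk x j)‖ₑ ^ 2 * ∏ s, ENNReal.ofReal (∑ i, ‖τ (x s) i‖ ^ 2) ^ (-c) ≤
        B * ∏ j, w2 τ p dl (x none) (blk x j) := by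
  have hp : 0 ≤ 2 - p := by rw [← hJ]; positivity
  have f0 : ((k + 1).factorial : ℝ≥0∞) ≠ 0 := by simp [Nat.factorial_ne_zero]
  have ft : ((k + 1).factorial : ℝ≥0∞) ≠ ⊤ := by simp
  refine ⟨((k + 1).factorial : ℝ≥0∞) ^ (2 - p) *
    (((k + 1).factorial : ℝ≥0∞) ^ (2 - p - k * dl)) ^ Fintype.card J, ENNReal.mul_ne_top
    (ENNReal.rpow_ne_top_of_ne_zero f0 ft)
    (ENNReal.pow_ne_top (ENNReal.rpow_ne_top_of_ne_zero f0 ft)), fun x hx => ?_⟩
  have h1 := Finset.prod_le_prod' (s := Finset.univ) fun (j : J) _ =>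
    one_block (p := p) hdl (by
      have : (1 : ℝ) ≤ Fintype.card J := Nat.one_le_cast.2 (Fintype.card_pos_iff.2 ⟨j⟩)
      have h3 : (0 : ℝ) ≤ k * dl := by positivity
      rw [← hJ]; push_cast; nlinarith) (x none) (hx j)
  rw [Finset.prod_mul_distrib, Finset.prod_mul_distrib, Finset.prod_mul_distrib, Finset.prod_const,
    Finset.prod_const, Finset.card_univ, ← ENNReal.rpow_mul_natCast, neg_mul, mul_comm _ (_ : ℝ), hJ,
    ENNReal.mul_rpow_of_ne_top ft enorm_ne_top] at h1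
  rw [mul_assoc]
  refine le_trans ?_ (mul_le_mul_right h1 _)
  rw [← mul_assoc, ← mul_assoc (_ ^ (2 - p)), ← ENNReal.rpow_add _ _ f0 ft, add_neg_cancel,
    ENNReal.rpow_zero, one_mul, mul_left_comm, Finset.prod_pow, Fintype.prod_option,
    Fintype.prod_prod_type, ← hc, show ‖∏ j, dt τ (blk x j)‖ₑ = ∏ j, ‖dt τ (blk x j)‖ₑ by
      simp only [enorm_eq_nnnorm, nnnorm_prod, ENNReal.ofNNReal_finsetProd]]
  exact mul_le_mul_right (mul_le_mul' (bs_le (by linarith) _) (Finset.prod_le_prod' fun j _ =>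
    Finset.prod_le_prod' fun i _ => bs_le (by linarith) _)) _

end ineq

theorem HolAt.prod {Y : Type} [NormedAddCommGroup Y] [NormedSpace ℂ Y] {U : Set Y} {y : Y}
    {ι : Type} (s : Finset ι) {φ : ι → Y → ℂ} (h : ∀ i ∈ s, HolAt U (φ i) y) :
    HolAt U (fun x => ∏ i ∈ s, φ i x) y := fun E _ _ γ e h1 h2 =>
  Finset.analyticAt_fun_prod _ fun i hi => h i hi E γ e h1 h2

theorem HolAt.dt {Y X : Type} [NormedAddCommGroup Y] [NormedSpace ℂ Y] {U : Set Y} {y : Y} {r : ℕ}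
    {τ : X → Fin r → ℂ} {s : Y → Fin r → X} (h : ∀ i j, HolAt U (fun x => τ (s x i) j) y) :
    HolAt U (fun x => dt τ (s x)) y := by
  simp only [N.dt, det_apply']
  exact HolAt.sum _ fun σ _ => (HolAt.of_analyticAt analyticAt_const).mul
    (HolAt.prod _ fun i _ => h _ _)

variable {A R ν J : Type} [NormedAddCommGroup A] [NormedSpace ℂ A] [CommRing R] [Fintype ν]
  [Fintype J] [DecidableEq J] {k : ℕ} {C : FC A R ν} {a : A}

/-- the functions `t (x_0) / E` are all invariant functions of finite norm -/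
theorem full2 (ha : a ∈ C.S0) {τ : Vp ν → Fin (k + 1) → ℂ} {p dl c : ℝ}
    (hs : C.Sat (Option (J × Fin (k + 1))) τ c a) (hc : 2 * c = 2 - p) (hdl : 0 ≤ dl)
    (hJ : Fintype.card J * ((k + 1 : ℕ) * dl) = 2 - p)
    (hol : ∀ s i, ∀ x ∈ C.Fk a,
      HolAt (C.Fk a) (fun x : Option (J × Fin (k + 1)) → Vp ν => τ (x s) i) x)
    {q : MvPolynomial (Option (J × Fin (k + 1)) × Option ν) R} {M : ℕ}
    {E : (Option (J × Fin (k + 1)) → Vp ν) → ℂ} (hE : ∀ x ∈ C.Fk a, HolAt (C.Fk a) E x)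
    (inv : ∀ s ∈ BG J (k + 1), ∀ x ∈ C.Fk a, E (fun l => x (s l)) = E x)
    {g : MvPolynomial (Option (J × Fin (k + 1)) × ν) ℂ} (hg : g ≠ 0)
    (hw : ∀ x ∈ C.Fk a, MvPolynomial.eval (xs x) g ≠ 0 → E x ≠ 0 ∧ (∀ j, dt τ (blk x j) ≠ 0) ∧
      ‖E x‖ₑ ^ 2 * ∏ j, w2 τ p dl (x none) (blk x j) ≤ ENNReal.ofReal (C.wt q M a x)) :
    Full C q M (BG J (k + 1)) a fun i x => τ (x none) i / E x := by
  classical
  intro h ψ h0 hψ hinv hint
  obtain ⟨B, hB, hle⟩ := all_blocks (τ := τ) hdl hJ hc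
  obtain ⟨t, ht⟩ := hs h (fun x => ψ x * E x * ∏ j, dt τ (blk x j)) h0 (fun x hx hne =>
    ((hψ x hx hne).mul (hE x hx)).mul (HolAt.prod _ fun j _ =>
      HolAt.dt fun i l => hol (some (j, i)) l x hx)) (by
    refine lt_of_le_of_lt (lintegral_mono_ae ((C.ae ha hg).mono fun x hx => ?_))
      ((lintegral_const_mul' B _ hB).trans_lt (ENNReal.mul_lt_top hB.lt_top hint))
    obtain ⟨-, w1, w2⟩ := hw x hx.1 hx.2
    rw [ENNReal.ofReal_mul (sq_nonneg _), ENNReal.ofReal_pow (norm_nonneg _),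
      ENNReal.ofReal_pow (norm_nonneg _), ofReal_norm, ofReal_norm, enorm_mul,
      enorm_mul, mul_pow, mul_pow, mul_assoc, mul_assoc, mul_left_comm B]
    refine mul_le_mul_right ((mul_le_mul_right (hle x w1) _).trans ?_) _
    rw [mul_left_comm]
    exact mul_le_mul_right w2 _)
  obtain ⟨c', hc'⟩ := antisym (X := Vp ν) t
  refine ⟨c', gp (BG J (k + 1)) h * g, mul_ne_zero (gp_ne _ h0) hg, fun x hx hne => ?_⟩
  rw [map_mul] at hne
  obtain ⟨w0, w1, -⟩ := hw x hx (right_ne_zero_of_mul hne)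
  have key := hc' τ x (ψ x * E x * ∏ j, dt τ (blk x j)) fun σ => by
    rw [← ht (fun l => x (bp σ l)) (fun _ => hx _)
      ((eval_gp _).1 (left_ne_zero_of_mul hne) ⟨bp σ, bp_mem σ⟩), hinv _ (bp_mem σ),
      inv _ (bp_mem σ) x hx, mul_left_comm, ← Finset.prod_mul_distrib]
    exact congrArg _ (Finset.prod_congr rfl fun j _ => (dt_perm τ (blk x j) (σ j)).symm)
  rw [eq_div_of_mul_eq w0 (mul_right_cancel₀ (Finset.prod_ne_zero_iff.2 fun j _ => w1 j) key),
    Finset.sum_div]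
  exact Finset.sum_congr rfl fun i _ => mul_div_assoc _ _ _

end

end Pool.Agent.Lib.MP_5c318e_ag.Ku
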