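import Pool.Agent.Lib.MP_5c318e_ag.N.T2F
import Pool.Agent.Lib.MP_5c318e_ag.Ku.KGen

/-! The form `h2` is the Hodge metric of a parallel frame, in the concrete model. -/

set_option autoImplicit false
set_option linter.unusedSectionVars false

namespace Pool.Agent.Lib.MP_5c318e_ag.Ku

open MeasureTheory Set Matrix Function Equiv Filter Topology
open Pool.Agent.Lib.MP_5c318e_ag.V Pool.Agent.Lib.MP_5c318e_ag.N
open scoped ENNReal

noncomputable section

section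

variable {J X : Type} [Fintype J] {k : ℕ}

/-- the function whose root is taken -/
def f2 (τ : X → Fin (k + 1) → ℂ) (α β : ℕ) (x : Option (J × Fin (k + 1)) → X) : ℂ :=
  ∏ j, dt τ (blk x j) ^ (α + 1) * (∏ q, dt τ (update (blk x j) q (x none))) ^ (β + 1)

variable {τ : X → Fin (k + 1) → ℂ} {α β : ℕ} {x : Option (J × Fin (k + 1)) → X}

theorem f2_ne : f2 τ α β x ≠ 0 ↔
    ∀ j, dt τ (blk x j) ≠ 0 ∧ ∀ q, dt τ (update (blk x j) q (x none)) ≠ 0 := by
  simp [f2, Finset.prod_ne_zero_iff]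

theorem den_ne : den τ x ≠ 0 ↔
    ∀ j, dt τ (blk x j) ≠ 0 ∧ ∀ q, dt τ (update (blk x j) q (x none)) ≠ 0 := by
  simp [den, Finset.prod_ne_zero_iff, forall_and]

theorem f2_perm {s : Perm (Option (J × Fin (k + 1)))} (hs : s ∈ BG J (k + 1)) :
    ‖f2 τ α β fun l => x (s l)‖ = ‖f2 τ α β x‖ := by
  rw [f2, f2, norm_prod, norm_prod]
  refine Finset.prod_congr rfl fun j _ => ?_
  rw [norm_mul, norm_mul, norm_pow, norm_pow, norm_pow, norm_pow, (norm_perm τ hs x j).1,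
    (norm_perm τ hs x j).2]

theorem enorm_prod' {ι : Type} (s : Finset ι) (g : ι → ℂ) : ‖∏ i ∈ s, g i‖ₑ = ∏ i ∈ s, ‖g i‖ₑ := by
  simp only [enorm_eq_nnnorm, nnnorm_prod, ENNReal.ofNNReal_finsetProd]

theorem f2_wt {p dl e : ℝ} (he : 0 ≤ e) (hα : (α + 1 : ℕ) * e = (k + 1 : ℕ) * 2 + (p + k * dl))
    (hβ : (β + 1 : ℕ) * e = 2 + -dl) (h : f2 τ α β x ≠ 0) :
    ‖f2 τ α β x‖ₑ ^ e = ‖den τ x‖ₑ ^ 2 * ∏ j, w2 τ p dl (x none) (blk x j) := by
  rw [f2, den, enorm_prod', enorm_prod', ← ENNReal.prod_rpow_of_nonneg he, ← Finset.prod_pow,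
    ← Finset.prod_mul_distrib]
  refine Finset.prod_congr rfl fun j _ => ?_
  obtain ⟨h1, h2⟩ := f2_ne.1 h j
  rw [enorm_mul, enorm_pow, enorm_pow, ENNReal.mul_rpow_of_nonneg _ _ he, ← ENNReal.rpow_natCast_mul,
    ← ENNReal.rpow_natCast_mul, hα, hβ, ENNReal.rpow_add _ _ (enorm_ne_zero.2 h1) enorm_ne_top,
    ENNReal.rpow_add _ _ (enorm_ne_zero.2 (Finset.prod_ne_zero_iff.2 fun q _ => h2 q)) enorm_ne_top,
    w2, Finset.prod_mul_distrib, Finset.prod_const, Finset.card_fin, enorm_mul, enorm_pow, mul_pow,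
    ENNReal.rpow_natCast_mul, ENNReal.rpow_two, ENNReal.rpow_two,
    ENNReal.prod_rpow_of_ne_top fun _ _ => enorm_ne_top, ← enorm_prod']
  ring

/-- the slots of a block with one point replaced by `x_0` -/
theorem update_blk (x : Option (J × Fin (k + 1)) → X) (j : J) (q : Fin (k + 1)) :
    update (blk x j) q (x none) = fun i => x (update (fun i => some (j, i)) q none i) :=
  (comp_update x (fun i => some (j, i)) q none).symm

theorem update_inj (j : J) (q : Fin (k + 1)) :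
    Injective (update (fun i : Fin (k + 1) => (some (j, i) : Option (J × Fin (k + 1)))) q none) := by
  intro a b h
  by_cases ha : a = q <;> by_cases hb : b = q
  · rw [ha, hb]
  · simp [ha, hb] at h
  · simp [ha, hb] at h
  · simpa [ha, hb] using h

end

variable {A R ν J : Type} [NormedAddCommGroup A] [NormedSpace ℂ A] [CommRing R] [Fintype ν]
  [Fintype J] [DecidableEq J] {k : ℕ} {C : FC A R ν} {a : A}

theorem fullF2 {τ : Vp ν → Fin (k + 1) → ℂ} {p dl c : ℝ}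
    (hs : C.Sat (Option (J × Fin (k + 1))) τ c a) (hc : 2 * c = 2 - p) (hdl : 0 ≤ dl)
    (hJ : Fintype.card J * ((k + 1 : ℕ) * dl) = 2 - p)
    (hol : ∀ s i, ∀ x ∈ C.Fk a,
      HolAt (C.Fk a) (fun x : Option (J × Fin (k + 1)) → Vp ν => τ (x s) i) x)
    {α β M : ℕ} (hα : (α + 1 : ℕ) * (2 / M : ℝ) = (k + 1 : ℕ) * 2 + (p + k * dl))
    (hβ : (β + 1 : ℕ) * (2 / M : ℝ) = 2 + -dl) :
    FullF C (f2 τ α β) M (BG J (k + 1)) a fun i x => τ (x none) i / den τ x := by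
  classical
  intro h ψ h0 hψ hinv hint
  obtain ⟨B, hB, hle⟩ := all_blocks (τ := τ) hdl hJ hc
  obtain ⟨t, ht⟩ := hs h (fun x => ψ x * den τ x * ∏ j, dt τ (blk x j)) h0 (fun x hx hne =>
    ((hψ x hx hne).mul (HolAt.prod _ fun j _ => HolAt.prod _ fun q _ =>
      (HolAt.dt fun i l => hol (some (j, i)) l x hx).mul (by
        simp only [update_blk]
        exact HolAt.dt fun i l => hol _ l x hx))).mul (HolAt.prod _ fun j _ =>
      HolAt.dt fun i l => hol (some (j, i)) l x hx)) (by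
    refine lt_of_le_of_lt (lintegral_mono fun x => ?_)
      ((lintegral_const_mul' B _ hB).trans_lt (ENNReal.mul_lt_top hB.lt_top hint))
    by_cases hx : f2 τ α β x = 0
    · have : den τ x = 0 := by_contra fun e => f2_ne.2 (den_ne.1 e) hx
      simp [this]
    rw [f2_wt (by positivity) hα hβ hx, ENNReal.ofReal_pow (norm_nonneg _), ofReal_norm, enorm_mul,
      enorm_mul, mul_pow, mul_pow, mul_assoc, mul_assoc, mul_left_comm B, mul_left_comm B]
    exact mul_le_mul_right (mul_le_mul_right (hle x fun j => (f2_ne.1 hx j).1) _) _)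
  obtain ⟨c', hc'⟩ := antisym (X := Vp ν) t
  refine ⟨c', gp (BG J (k + 1)) h, gp_ne _ h0, fun x hx hne hf => ?_⟩
  have key := hc' τ x (ψ x * den τ x * ∏ j, dt τ (blk x j)) fun σ => by
    rw [← ht (fun l => x (bp σ l)) (fun _ => hx _) ((eval_gp _).1 hne ⟨bp σ, bp_mem σ⟩),
      hinv _ (bp_mem σ), den_perm τ (bp_mem σ), mul_left_comm, ← Finset.prod_mul_distrib]
    exact congrArg _ (Finset.prod_congr rfl fun j _ => (dt_perm τ (blk x j) (σ j)).symm)
  rw [eq_div_of_mul_eq (den_ne.2 (f2_ne.1 hf)) (mul_right_cancel₀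
    (Finset.prod_ne_zero_iff.2 fun j _ => (f2_ne.1 hf j).1) key), Finset.sum_div]
  exact Finset.sum_congr rfl fun i _ => mul_div_assoc _ _ _

theorem exps {m n : ℕ} (k : ℕ) (hm : 0 < m) (hn : 0 < n) {dl : ℝ}
    (hJ : n * ((k + 1 : ℕ) * dl) = 2 - 2 / m) : ∃ α β M : ℕ, 0 < M ∧
      (α + 1 : ℕ) * (2 / M : ℝ) = (k + 1 : ℕ) * 2 + (2 / m + k * dl) ∧
      (β + 1 : ℕ) * (2 / M : ℝ) = 2 + -dl := by
  obtain ⟨m, rfl⟩ := Nat.exists_eq_add_one_of_ne_zero hm.ne'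
  obtain ⟨n, rfl⟩ := Nat.exists_eq_add_one_of_ne_zero hn.ne'
  have e : dl = 2 * m / ((m + 1) * (k + 1) * (n + 1)) := by
    push_cast at hJ
    field_simp at hJ ⊢
    linarith
  refine ⟨(k + 1) * ((m + 1) * (k + 1) * (n + 1)) + (k * n + k + n) + k * m,
    (m + 1) * (k * n + k + n), (m + 1) * (k + 1) * (n + 1), by positivity, ?_, ?_⟩
  all_goals
    rw [e]
    push_cast
    field_simp
    ring

/-- T2 in the model -/
theorem kum2 [FiniteDimensional ℂ A] [IsDomain R] [CharZero R] [Nonempty J] (C : FC A R ν)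
    {τ : A → Vp ν → Fin (k + 1) → ℂ}
    (hτ : ∀ s i, (fun a (x : Option (J × Fin (k + 1)) → Vp ν) => τ a (x s) i) ∈ C.Rg _)
    (hi : ∀ a ∈ C.S0, C.Ind (τ a) a) {m : ℕ} (hm : 0 < m) {dl c : ℝ} (hdl : 0 ≤ dl)
    (hJ : Fintype.card J * ((k + 1 : ℕ) * dl) = 2 - 2 / m) (hc : 2 * c = 2 - 2 / m) :
    ∃ δ : R, δ ≠ 0 ∧ ∀ S ⊆ C.S0, (∀ a ∈ S, C.ev a δ ≠ 0) → Charted S → IsPreconnected S →
      ∃ (n : ℕ) (K : ℝ), ∀ (E : Type) [NormedAddCommGroup E] [NormedSpace ℂ E]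
        [FiniteDimensional ℂ E] [MeasurableSpace E] [BorelSpace E] (μ : Measure E)
        [μ.IsAddHaarMeasure] (φ : E → A) (O : Set E), IsOpen O → (∀ e ∈ O, Plot S φ e) →
        (∀ i, ∀ e ∈ O, ∃ N ∈ 𝓝 e,
          ∫⁻ e' in N, h2 (C.μ (φ e')) (τ (φ e')) (2 / m) dl J (Pi.single i 1) ∂μ < ⊤) →
        (∀ e ∈ O, ∀ t, t ≠ 0 → h2 (C.μ (φ e)) (τ (φ e)) (2 / m) dl J t ≠ 0) →
        O ⊆ closure {e | e ∈ O ∧ C.Sat (Option (J × Fin (k + 1))) (τ (φ e)) c (φ e)} →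
        ∀ e ∈ O, (∀ t, h2 (C.μ (φ e)) (τ (φ e)) (2 / m) dl J t ≠ ⊤) ∧
          TopAt (Fin n) K (fun e => pz (h2 (C.μ (φ e)) (τ (φ e)) (2 / m) dl J)) e := by
  obtain ⟨α, β, M, hM, hα, hβ⟩ := exps k hm Fintype.card_pos hJ
  have d1 : ∀ j : J, (fun a (x : Option (J × Fin (k + 1)) → Vp ν) => dt (τ a) (blk x j)) ∈
      C.Rd _ := fun j => FC.dt_mem_Rd hτ hi (s := fun i => some (j, i)) fun _ _ e => by simpa using e
  have d2 : ∀ (j : J) q, (fun a (x : Option (J × Fin (k + 1)) → Vp ν) =>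
      dt (τ a) (update (blk x j) q (x none))) ∈ C.Rd _ := fun j q => by
    simp only [update_blk]
    exact FC.dt_mem_Rd hτ hi (update_inj j q)
  have hf : (fun a x => f2 (τ a) α β x) ∈ C.Rd (Option (J × Fin (k + 1))) := by
    convert Submonoid.prod_mem _ fun j (_ : j ∈ Finset.univ) => mul_mem (pow_mem (d1 j) (α + 1))
      (pow_mem (Submonoid.prod_mem _ fun q (_ : q ∈ Finset.univ) => d2 j q) (β + 1)) using 1
    ext a x
    simp only [f2, Finset.prod_apply, Pi.mul_apply, Pi.pow_apply]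
  have hH : (fun a x => den (τ a) x) ∈ C.Rd (Option (J × Fin (k + 1))) := by
    convert Submonoid.prod_mem _ fun j (_ : j ∈ Finset.univ) =>
      Submonoid.prod_mem _ fun q (_ : q ∈ Finset.univ) => mul_mem (d1 j) (d2 j q) using 1
    ext a x
    simp only [den, Finset.prod_apply, Pi.mul_apply]
  obtain ⟨δ, hδ, H⟩ := kum_top C hf hH.1 (U := fun i a x => τ a (x none) i) (hτ none)
    (fun _ _ _ h => den_ne.2 (f2_ne.1 h)) hM (BG J (k + 1)) (fun _ hs _ _ => f2_perm hs)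
    (fun i s hs a x => by simp only [den_perm _ hs, BG_none hs])
    (F := fun a t x => ‖t ⬝ᵥ τ a (x none)‖ₑ ^ 2 * ∏ j, w2 (τ a) (2 / m) dl (x none) (blk x j))
    fun a t x _ h => by
      rw [f2_wt (by positivity) hα hβ h, ← mul_assoc, ← mul_pow, ← enorm_mul, Finset.sum_mul]
      congr 3
      exact Finset.sum_congr rfl fun i _ => by
        rw [mul_assoc, div_mul_cancel₀ _ (den_ne.2 (f2_ne.1 h))]
  refine ⟨δ, hδ, fun S hS h1 h2 h3 => ?_⟩
  obtain ⟨n, K, H⟩ := H S hS h1 h2 h3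
  refine ⟨n, K, fun E _ _ _ _ _ μ _ φ O hO hφ loc ind sat => H E μ φ O hO hφ loc ind
    (sat.trans (closure_mono fun e he => ⟨he.1, ?_⟩))⟩
  have ha := hS (hφ e he.1).2.self_of_nhds
  exact fullF2 he.2 hc hdl hJ (fun s i x hx => FC.rg_hol1 (hτ s i) ha hx) hα hβ

end

end Pool.Agent.Lib.MP_5c318e_ag.Ku
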