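import Pool.Agent.Lib.MP_5c318e_ag.Z.KDefs
import Pool.Agent.Lib.MP_5c318e_ag.N.T2Q
import Pool.Agent.Lib.MP_5c318e_ag.Ku.KOff
import Pool.Agent.Lib.MP_5c318e_ag.D.Bas
import Pool.Agent.Lib.MP_5c318e_ag.D.ExA
import Pool.Agent.Lib.MP_5c318e_ag.S.Sat

/-! The Hodge metric on `E ⊗ det ^ j` of a set-up. -/

set_option autoImplicit false
set_option linter.unusedSectionVars false

namespace Pool.Agent.Lib.MP_5c318e_ag

open MeasureTheory Set Filter Topology Matrix Function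
open Pool.Agent.Lib.MP_5c318e_ag.V Pool.Agent.Lib.MP_5c318e_ag.Ku Pool.Agent.Lib.MP_5c318e_ag.N
open scoped ENNReal

noncomputable section

/-- a property of almost all points holds on a dense part of a chart -/
theorem RD.ae_dense {ι S : Type} [Fintype ι] [TopologicalSpace S] [MeasurableSpace S]
    [BorelSpace S] (D : RD ι S) {P : S → Prop} (h : ∀ᵐ p ∂D.μ, P p) (x : S) {O : Set (ι → ℂ)}
    (hO : IsOpen O) (hs : O ⊆ (D.ch x).target) : O ⊆ closure {z | z ∈ O ∧ P (D.sec x z)} := by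
  have h1 := ae_restrict_of_ae (s := (D.ch x).source) h
  rw [D.restrict_src x] at h1
  have h2 := (ae_restrict_iff' (D.ch x).open_target.measurableSet).1 (ae_of_ae_map (D.sec_aem x) h1)
  exact ((Measure.dense_of_ae h2).open_subset_closure_inter hO).trans
    (closure_mono fun z hz => ⟨hz.1, hz.2 (hs hz.1)⟩)

theorem N.w2_comp {X Y : Type} {k : ℕ} (τ : Y → Fin (k + 1) → ℂ) (g : X → Y) (p dl : ℝ) (x0 : X)
    (y : Fin (k + 1) → X) :
    w2 τ p dl (g x0) (fun i => g (y i)) = w2 (fun x => τ (g x)) p dl x0 y := by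
  have e : ∀ q, update (fun i => g (y i)) q (g x0) = fun i => g (update y q x0 i) := fun q =>
    (comp_update g y q x0).symm
  simp only [w2, e]
  rfl

theorem N.real_le {x C A : ℝ≥0∞} {y : ℝ} (h : x ≤ C * ENNReal.ofReal y) (hC : C ≤ A) (hA : A ≠ ⊤)
    (hy : 0 ≤ y) : (A.toReal + 1)⁻¹ * x.toReal ≤ y := by
  have h1 := ENNReal.toReal_mono (ENNReal.mul_ne_top hA ENNReal.ofReal_ne_top)
    (h.trans (mul_le_mul_left hC _))
  rw [ENNReal.toReal_mul, ENNReal.toReal_ofReal hy] at h1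
  rw [inv_mul_le_iff₀ (by positivity)]
  linarith

/-- the two lower bounds, with one constant -/
theorem N.t2_real (k : ℕ) {m : ℕ} (hm : 0 < m) {dl : ℝ} (hdl : 0 ≤ dl) {J : Type} [Fintype J]
    (hJ : Fintype.card J * ((k + 1 : ℕ) * dl) = 2 - 2 / m) : ∃ s c : ℝ, 0 < c ∧
      ∀ (Ω : Type) [MeasurableSpace Ω] (ν : Measure Ω) [SigmaFinite ν] (τ : Ω → Fin (k + 1) → ℂ),
        Measurable τ → nB ν τ (2 / m) ≠ ⊤ → (∀ a, a ≠ 0 → nN ν τ (2 / m) a ≠ 0) →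
        (∀ u, h2 ν τ (2 / m) dl J u ≠ ⊤) →
        (∀ a, c * ((nN ν τ (2 / m) a).toReal ^ m * (nD ν τ (2 / m)).toReal ^ s) ≤
          (star a ⬝ᵥ pz (h2 ν τ (2 / m) dl J) *ᵥ a).re) ∧
        c * (nD ν τ (2 / m)).toReal ^ (m + (k + 1 : ℕ) * s) ≤ (pz (h2 ν τ (2 / m) dl J)).det.re := by
  have m0 : (0 : ℝ) < m := Nat.cast_pos.2 hm
  have hp : (0 : ℝ) < 2 / m := by positivity
  have c1 := c2_ne_top k (Fintype.card J) (2 / m) dl
  set A := c2 k (Fintype.card J) (2 / m) dl + cD (k + 1) (2 / m) ^ (2 / (2 / m) : ℝ) *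
    ((k + 1 : ℕ) * c2 k (Fintype.card J) (2 / m) dl) ^ (k + 1)
  have hA : A ≠ ⊤ :=
    ENNReal.add_ne_top.2 ⟨c1, ENNReal.mul_ne_top (ENNReal.rpow_ne_top_of_nonneg (by positivity)
      (cD_ne_top hp.le)) (ENNReal.pow_ne_top (ENNReal.mul_ne_top (by simp) c1))⟩
  refine ⟨(2 / m - dl) * Fintype.card J / (2 / m), (A.toReal + 1)⁻¹, by positivity,
    fun Ω _ ν _ τ hτ hB hN hf => ⟨fun a => ?_, ?_⟩⟩
  · have h := le_h2 hτ hp hdl hJ hB hN a
    rw [← ENNReal.ofReal_toReal (hf a), show (2 / (2 / m) : ℝ) = m by field_simp,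
      ENNReal.rpow_natCast] at h
    rw [pz_h2 hτ hf, Complex.ofReal_re, ← ENNReal.toReal_pow, ENNReal.toReal_rpow,
      ← ENNReal.toReal_mul]
    exact real_le h le_self_add hA ENNReal.toReal_nonneg
  · have h := nD_le_det_pz_h2 hτ hp hdl hJ hB hN hf
    have e : (m + (k + 1 : ℕ) * ((2 / m - dl) * Fintype.card J / (2 / m)) : ℝ) =
        (1 + (k + 1) * Fintype.card J : ℕ) := by
      push_cast at hJ ⊢
      field_simp at hJ ⊢
      linarith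
    rw [e, Real.rpow_natCast, ← ENNReal.toReal_pow]
    refine real_le h le_add_self hA (le_of_not_gt fun hy => ?_)
    rw [ENNReal.ofReal_of_nonpos hy.le, mul_zero, nonpos_iff_eq_zero] at h
    exact pow_ne_zero _ (nD_ne_zero hτ hp hB hN) h

variable {δ ν K M : Type} [Fintype δ] [DecidableEq δ] [Fintype ν] [DecidableEq ν]
  [Field K] [Algebra ℂ K] [Field M] [Algebra ℂ M] [Algebra K M] [IsScalarTower ℂ K M]
  {B : Cht δ K}

/-- independence on the fibre, in the model -/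
theorem Fam.Par.ind' {A R : Type} [NormedAddCommGroup A] [NormedSpace ℂ A] [CommRing R]
    {T : Fam B ν M} (P : T.Par A R) {a : A} {b : Pt B.O} (ha : a ∈ P.S0) (e : P.b a = b) {r : ℕ}
    {τ : Fin r → T.X.O} {τ' : Vp ν → Fin r → ℂ} (hτ : ∀ p : T.Fib b, τ' (T.emb p.1) = T.fr τ b p)
    (hi : ∀ U : Set (T.Fib b), IsOpen U → U.Nonempty → ∀ t : Fin r → ℂ,
      (∀ p ∈ U, t ⬝ᵥ T.fr τ b p = 0) → t = 0) : P.fc.Ind τ' a := by
  subst e
  intro U hU ⟨u, h1, h2⟩ t ht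
  obtain ⟨p, rfl⟩ := (P.range_emb ha).ge h2
  exact hi _ (hU.preimage (P.emb_emb ha).ind.continuous) ⟨p, h1⟩ t fun q hq =>
    hτ q ▸ ht _ ⟨hq, (P.range_emb ha).le (mem_range_self q)⟩

/-- the chart at `b`, off `e = 0` -/
theorem Fam.off_chart (T : Fam B ν M) (e : B.O) (b : Pt B.O) :
    IsOpen {z | z ∈ (B.D.ch b).target ∧ B.D.sec b z e ≠ 0} ∧
    ∀ z ∈ {z | z ∈ (B.D.ch b).target ∧ B.D.sec b z e ≠ 0},
      Plot (T.embB '' {b | b e ≠ 0}) (fun z => T.embB (B.D.sec b z)) z := by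
  have ho : IsOpen {b : Pt B.O | b e ≠ 0} := isOpen_ne_fun (Pt.continuous_apply e) continuous_const
  refine ⟨(B.D.sec_contOn b).isOpen_inter_preimage (B.D.ch b).open_target ho, fun z hz => ?_⟩
  have h := T.embB_emb.plot (ho.mem_nhds hz.2)
  rw [RD.π_sec hz.1] at h
  exact ⟨h.1.congr (RD.germ_f _ hz.1).symm, by
    filter_upwards [h.2, RD.germ hz.1] with w h1 h2 using h2 ▸ h1⟩

theorem Fam.t2 (T : Fam B ν M) {k m : ℕ} (hm : 3 ≤ m) {τ : Fin (k + 1) → T.X.O}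
    (span : ∀ φ, Plu T.dx m φ ↔ φ ∈ Submodule.span K (range fun i => (τ i : M)))
    (cov : ∀ b : Pt B.O, MvPolynomial.map (b.hom : B.O →+* ℂ) T.finX.Δ ≠ 0)
    (indF : ∀ (b : Pt B.O) (U : Set (T.Fib b)), IsOpen U → U.Nonempty → ∀ a : Fin (k + 1) → ℂ,
      (∀ p ∈ U, a ⬝ᵥ T.fr τ b p = 0) → a = 0)
    {u : Pt B.O → ℝ} (hu : Md B.siz u)
    (up : ∀ b, nB (T.fib b).μ (T.fr τ b) (2 / m) ≤ ENNReal.ofReal (u b))
    (hN : ∀ b a, a ≠ 0 → nN (T.fib b).μ (T.fr τ b) (2 / m) a ≠ 0)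
    (sf : ∀ b, SigmaFinite (T.fib b).μ) (mf : ∀ b, Measurable (T.fr τ b)) {c0 : ℝ} (hc0 : 0 < c0)
    (lct : ∀ c, 0 < c → c ≤ c0 → ∀ Q : Set (Pt B.O), IsCompact Q →
      ∃ C : ℝ≥0∞, C ≠ ⊤ ∧ ∀ b ∈ Q, Lct (T.fib b).μ (T.fr τ b) (2 / m) c C) :
    ∃ e : B.O, e ≠ 0 ∧ ∃ (s c : ℝ) (H : Pt B.O → Matrix (Fin (k + 1)) (Fin (k + 1)) ℂ), 0 < c ∧
      ∀ b : Pt B.O, b e ≠ 0 →
      (∃ (n : ℕ) (κ : ℝ), TopAt (Fin n) κ (fun z => H (B.D.sec b z)) (B.D.π b)) ∧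
      (∀ a, c * ((nN (T.fib b).μ (T.fr τ b) (2 / m) a).toReal ^ m *
        (nD (T.fib b).μ (T.fr τ b) (2 / m)).toReal ^ s) ≤ (star a ⬝ᵥ H b *ᵥ a).re) ∧
      c * (nD (T.fib b).μ (T.fr τ b) (2 / m)).toReal ^ (m + (k + 1 : ℕ) * s) ≤ (H b).det.re := by
  have m3 : (3 : ℝ) ≤ m := by exact_mod_cast hm
  have m0 : 0 < m := by omega
  have hp : (0 : ℝ) < 2 / m := by positivity
  have hp2 : (0 : ℝ) < 2 - 2 / m := sub_pos.2 (div_lt_self two_pos (by linarith))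
  obtain ⟨n, hn⟩ := exists_nat_gt (2 / c0)
  obtain ⟨dl, hdl, hJ, hle⟩ : ∃ dl : ℝ, 0 < dl ∧
      Fintype.card (Fin (n + 1)) * ((k + 1 : ℕ) * dl) = 2 - 2 / m ∧ (k + 1 : ℕ) * dl ≤ c0 := by
    refine ⟨(2 - 2 / m) / (n + 1) / (k + 1 : ℕ), by positivity, ?_, ?_⟩
    · rw [Fintype.card_fin, mul_div_cancel₀ _ (by positivity), Nat.cast_succ,
        mul_div_cancel₀ _ (by positivity)]
    · rw [mul_div_cancel₀ _ (by positivity), div_le_iff₀ (by positivity)]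
      rw [div_lt_iff₀ hc0] at hn
      linarith
  have hB : ∀ b, nB (T.fib b).μ (T.fr τ b) (2 / m) ≠ ⊤ := fun b =>
    ne_top_of_le_ne_top ENNReal.ofReal_ne_top (up b)
  obtain ⟨Q, j, hQ⟩ := (T.par cov).exists_frac' τ
  obtain ⟨τ', hτ, hR⟩ : ∃ τ' : Vp δ → Vp ν → Fin (k + 1) → ℂ,
      (∀ b (p : T.Fib b), τ' (T.embB b) (T.emb p.1) = T.fr τ b p) ∧
      ∀ s i, (fun a (x : Option (Fin (n + 1) × Fin (k + 1)) → Vp ν) => τ' a (x s) i) ∈
        (T.par cov).fc.Rg _ :=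
    ⟨fun a u i => (T.par cov).fc.frac (Q i) j a u, fun b p => funext fun i =>
      hQ _ (T.par_mem cov b) b (T.par_b cov b) p i, fun s i => FC.div_mem _ (Q i) j s⟩
  have tr : ∀ b, h2 ((T.par cov).fc.μ (T.embB b)) (τ' (T.embB b)) (2 / m) dl (Fin (n + 1)) =
      h2 (T.fib b).μ (T.fr τ b) (2 / m) dl (Fin (n + 1)) := fun b => funext fun t => by
    refine (T.par_lintegral cov b _).trans (lintegral_congr fun x => ?_)
    simp only [Fam.embk, w2_comp (τ' (T.embB b)) fun p : T.Fib b => T.emb p.1, hτ]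
  obtain ⟨e, he, H⟩ := kum2 (J := Fin (n + 1)) (T.par cov).fc hR (by
    rintro _ ⟨b, rfl⟩
    exact (T.par cov).ind' (T.par_mem cov b) (T.par_b cov b) (hτ b) (indF b)) m0 hdl.le hJ
    (c := (m - 1) / m) (by field_simp)
  obtain ⟨o1, o2, -⟩ := (T.par cov).off (T.par_inj cov) T.charted T.isPreconnected he
  obtain ⟨n', κ, H⟩ := H _ (fun _ h => h.1) (fun _ h => h.2) o1 o2
  obtain ⟨s, c, hc, hr⟩ := t2_real k m0 hdl.le hJ
  refine ⟨e, he, s, c, fun b => pz (h2 (T.fib b).μ (T.fr τ b) (2 / m) dl (Fin (n + 1))), hc,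
    fun b hb => ?_⟩
  obtain ⟨hO, hP⟩ := T.off_chart e b
  rw [← T.par_off cov e] at hP
  have key := H (δ → ℂ) volume (fun z => T.embB (B.D.sec b z)) _ hO hP ?_ ?_ ?_ (B.D.π b)
    ⟨B.D.mem_tgt b, by rwa [B.D.sec_self]⟩
  · simp only [tr, B.D.sec_self] at key
    exact ⟨⟨n', κ, key.2⟩, hr _ _ _ (mf b) (hB b) (hN b) key.1⟩
  · intro i z hz
    obtain ⟨N, n1, n2, n3⟩ := local_compact_nhds ((B.D.ch b).open_target.mem_nhds hz.1)
    obtain ⟨C, c1, c2⟩ := lct _ (by positivity) hle _ (RD.sec_cpt n3 n2)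
    obtain ⟨U, hU⟩ := hu.bdd (RD.sec_cpt n3 n2)
    refine ⟨N, n1, lt_of_le_of_lt (setLIntegral_mono' n3.measurableSet fun w hw => ?_)
      (setLIntegral_const N ((((k + 1).factorial : ℝ≥0∞) ^ (2 / m + k * dl) *
        ((k + 1 : ℕ) * (ENNReal.ofReal U * (C + 1) ^ k))) ^ Fintype.card (Fin (n + 1)) *
        (((k + 1 : ℕ) * ‖(Pi.single i 1 : Fin (k + 1) → ℂ)‖ₑ) ^ 2 * ENNReal.ofReal U)) ▸
        ENNReal.mul_lt_top (lt_top_iff_ne_top.2 ?_) n3.measure_lt_top)⟩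
    · have h1 := (up _).trans (ENNReal.ofReal_le_ofReal (hU _ (mem_image_of_mem _ hw)))
      rw [tr]
      refine (h2_le (mf _) hp hdl hJ (C := C + 1) (by simp) (fun a ha =>
        (c2 _ (mem_image_of_mem _ hw) a ha).trans (mul_le_mul_left le_self_add _)) _).trans ?_
      gcongr
    · have h3 : ((k + 1).factorial : ℝ≥0∞) ^ (2 / m + k * dl) ≠ ⊤ :=
        ENNReal.rpow_ne_top_of_nonneg (by positivity) (by simp)
      finiteness
  · intro z _ t ht h0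
    have h := le_h2 (mf (B.D.sec b z)) hp hdl.le hJ (hB _) (hN _) t
    rw [← tr, h0, mul_zero, nonpos_iff_eq_zero] at h
    exact mul_ne_zero (ENNReal.rpow_pos (pos_iff_ne_zero.2 (hN _ t ht))
      (nN_ne_top hp.le (hB _) t)).ne' (ENNReal.rpow_pos (pos_iff_ne_zero.2
      (nD_ne_zero (mf _) hp (hB _) (hN _))) (nD_ne_top (mf _) hp.le (hB _))).ne' h
  · refine (B.D.ae_dense (T.sat m0 span) b hO fun _ h => h.1).trans
      (closure_mono fun z hz => ⟨hz.1, ?_⟩)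
    exact (T.par cov).sat' (T.par_mem cov _) (T.par_b cov _) (fun p i => congrFun (hτ _ p) i)
      (div_nonneg (by linarith) (by linarith)) hz.2 (indF _)

theorem Dat.t2 (d : Dat δ K ν M) : ∃ e : d.B.O, e ≠ 0 ∧ d.T2On e := by
  have sf := d.bas_sf
  have mf := d.bas_mf
  have hN : ∀ b a, a ≠ 0 → nN (d.μ b) (d.f b) (2 / d.m) a ≠ 0 := fun b a ha h0 => by
    obtain ⟨u, -, h⟩ := d.low
    have h1 := h b a
    rw [h0, mul_zero, nonpos_iff_eq_zero] at h1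
    exact (ENNReal.rpow_pos (enorm_pos.2 ha) enorm_ne_top).ne' h1
  obtain ⟨k, hk⟩ := Nat.exists_eq_add_one_of_ne_zero d.hr.ne'
  obtain ⟨_, _, B, T, m, hm, r, _, τ, span, _, _, _, _, _, _, cov, indF, ⟨u, hu, up⟩, _,
    ⟨c0, hc0, lct⟩, _, _, _⟩ := d
  obtain rfl : r = k + 1 := hk
  exact T.t2 hm span cov indF hu up hN sf mf hc0 lct

end

end Pool.Agent.Lib.MP_5c318e_ag
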