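import Pool.Agent.Lib.MP_5c318e_ag.N.T2

/-! Lower bounds for the form `h2` and for its determinant, with constants free of the space. -/

set_option autoImplicit false

namespace Pool.Agent.Lib.MP_5c318e_ag.N

open MeasureTheory Set Matrix Function
open scoped ENNReal

variable {Ω : Type*} [MeasurableSpace Ω] {ν : Measure Ω} [SigmaFinite ν]
variable {k : ℕ} {τ : Ω → Fin (k + 1) → ℂ} {p dl : ℝ}

omit [MeasurableSpace Ω] in
lemma le_w2 (hdl : 0 ≤ dl) (x0 : Ω) (y : Fin (k + 1) → Ω) :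
    ((k + 1).factorial * ‖τ x0‖ₑ) ^ (-((k + 1 : ℕ) * dl)) *
      (‖dt τ y‖ₑ ^ (p + k * dl) * (∏ i, ‖τ (y i)‖ₑ) ^ (-(p + k * dl - p))) ≤ w2 τ p dl x0 y := by
  have h1 : ((k + 1).factorial * ‖τ x0‖ₑ : ℝ≥0∞) ≠ ⊤ := ENNReal.mul_ne_top (by simp) enorm_ne_top
  have h2 : ∀ q : Fin (k + 1), ∏ i, ‖τ (y (q.succAbove i))‖ₑ ≠ ⊤ := fun q =>
    ENNReal.prod_ne_top fun _ _ => enorm_ne_top
  rw [w2, mul_left_comm]
  refine mul_le_mul_right (le_trans (le_of_eq ?_) (Finset.prod_le_prod' fun q _ =>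
    rpow_neg_anti hdl (enorm_dt_update_le y q x0))) _
  simp only [ENNReal.mul_rpow_of_ne_top h1 (h2 _)]
  rw [Finset.prod_mul_distrib, ENNReal.prod_rpow_of_ne_top fun q _ => h2 q,
    prod_prod_succAbove fun i => ‖τ (y i)‖ₑ, Finset.prod_const, Finset.card_fin,
    ← ENNReal.rpow_mul_natCast, ← ENNReal.rpow_natCast_mul]
  congr 2 <;> ring

/-- one block, lower bound -/
lemma le_lint_w2 (hτ : Measurable τ) (hp : 0 < p) (hdl : 0 ≤ dl) (x0 : Ω) :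
    ((k + 1).factorial * ‖τ x0‖ₑ) ^ (-((k + 1 : ℕ) * dl)) * nD ν τ p ^ ((p + k * dl) / p) ≤
      (nB ν τ p ^ (k + 1)) ^ (k * dl / p) * ∫⁻ y, w2 τ p dl x0 y ∂(Measure.pi fun _ => ν) := by
  have hW : Measurable fun y : Fin (k + 1) → Ω => ∏ i, ‖τ (y i)‖ₑ :=
    Finset.measurable_prod _ fun i _ => (hτ.comp (measurable_pi_apply i)).enorm
  have h := holder_neg' (ν := Measure.pi fun _ : Fin (k + 1) => ν) (q := p + k * dl)
    (measurable_dt hτ).enorm.aemeasurable hW.aemeasurable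
    (fun _ => ENNReal.prod_ne_top fun _ _ => enorm_ne_top) hp (by
      have : 0 ≤ k * dl := by positivity
      linarith) (Filter.Eventually.of_forall fun y hy => Or.inl
        (le_antisymm ((enorm_dt_le τ y).trans (by rw [hy, mul_zero])) zero_le))
  have e1 : ∫⁻ y : Fin (k + 1) → Ω, (∏ i, ‖τ (y i)‖ₑ) ^ p ∂(Measure.pi fun _ => ν) =
      nB ν τ p ^ (k + 1) := by
    simp only [← ENNReal.prod_rpow_of_nonneg hp.le]
    rw [lintegral_pi_prod (fun _ y => ‖τ y‖ₑ ^ p) fun _ => hτ.enorm.pow_const _]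
    simp [nB]
  have e2 : (p + k * dl) / p - 1 = k * dl / p := by field_simp; ring
  rw [e1, e2] at h
  refine (mul_le_mul_right h _).trans ?_
  rw [← mul_assoc, mul_comm]
  refine mul_le_mul_right ?_ _
  exact (lintegral_const_mul_le _ _).trans (lintegral_mono fun y => le_w2 hdl x0 y)

lemma le_h2_frame (hτ : Measurable τ) (hp : 0 < p) (hdl : 0 ≤ dl) {J : Type*} [Fintype J]
    (hJ : Fintype.card J * ((k + 1 : ℕ) * dl) = 2 - p) (hB : nB ν τ p ≠ ⊤) (t : Fin (k + 1) → ℂ) :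
    nN ν τ p t ^ (2 / p) * (nD ν τ p ^ ((p + k * dl) / p)) ^ Fintype.card J ≤
      ((k + 1).factorial : ℝ≥0∞) ^ (2 - p) * nB ν τ p ^ (2 / p - 1) *
        ((nB ν τ p ^ (k + 1)) ^ (k * dl / p)) ^ Fintype.card J * h2 ν τ p dl J t := by
  have hp2 : 0 ≤ 2 - p := by rw [← hJ]; positivity
  have h := holder_neg' (ν := ν) (q := 2) (measurable_dot hτ t).enorm.aemeasurable
    hτ.enorm.aemeasurable (fun _ => enorm_ne_top) hp (by linarith)
    (Filter.Eventually.of_forall fun y hy => Or.inl (by simp [enorm_eq_zero.1 hy]))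
  simp only [ENNReal.rpow_two] at h
  set A := (nB ν τ p ^ (k + 1)) ^ (k * dl / p) with hA
  have hAt : A ^ Fintype.card J ≠ ⊤ := ENNReal.pow_ne_top
    (ENNReal.rpow_ne_top_of_nonneg (by positivity) (ENNReal.pow_ne_top hB))
  have hf0 : ((k + 1).factorial : ℝ≥0∞) ≠ 0 := by simp [Nat.factorial_ne_zero]
  have key : (∫⁻ x, ‖t ⬝ᵥ τ x‖ₑ ^ 2 * ‖τ x‖ₑ ^ (-(2 - p)) ∂ν) *
      (nD ν τ p ^ ((p + k * dl) / p)) ^ Fintype.card J ≤
      ((k + 1).factorial : ℝ≥0∞) ^ (2 - p) * (A ^ Fintype.card J * h2 ν τ p dl J t) := by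
    rw [h2_eq hτ, ← lintegral_const_mul' _ _ hAt, ← lintegral_const_mul' _ _
      (ENNReal.rpow_ne_top_of_nonneg hp2 (by simp))]
    refine (lintegral_mul_const_le _ _).trans (lintegral_mono fun x => ?_)
    have h1 := pow_le_pow_left' (le_lint_w2 (ν := ν) hτ hp hdl x) (Fintype.card J)
    have e : -((k + 1 : ℕ) * dl) * (Fintype.card J : ℝ) = -(2 - p) := by rw [← hJ]; ring
    rw [mul_pow, mul_pow, ← ENNReal.rpow_mul_natCast, e,
      ENNReal.mul_rpow_of_ne_top (by simp) enorm_ne_top, ← hA] at h1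
    have h3 : ((k + 1).factorial : ℝ≥0∞) ^ (2 - p) * ((k + 1).factorial : ℝ≥0∞) ^ (-(2 - p)) = 1 := by
      rw [← ENNReal.rpow_add _ _ hf0 (by simp), add_neg_cancel, ENNReal.rpow_zero]
    calc _ = ((k + 1).factorial : ℝ≥0∞) ^ (2 - p) * (‖t ⬝ᵥ τ x‖ₑ ^ 2 *
          (((k + 1).factorial : ℝ≥0∞) ^ (-(2 - p)) * ‖τ x‖ₑ ^ (-(2 - p)) *
            (nD ν τ p ^ ((p + k * dl) / p)) ^ Fintype.card J)) := by
          rw [← one_mul (_ * _ * _), ← h3]; ring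
      _ ≤ _ := mul_le_mul_right ((mul_le_mul_right h1 _).trans (le_of_eq (by ring))) _
  calc _ ≤ (∫⁻ x, ‖t ⬝ᵥ τ x‖ₑ ^ 2 * ‖τ x‖ₑ ^ (-(2 - p)) ∂ν) * nB ν τ p ^ (2 / p - 1) *
        (nD ν τ p ^ ((p + k * dl) / p)) ^ Fintype.card J := mul_le_mul_left h _
    _ ≤ nB ν τ p ^ (2 / p - 1) * (((k + 1).factorial : ℝ≥0∞) ^ (2 - p) *
        (A ^ Fintype.card J * h2 ν τ p dl J t)) := by
        rw [mul_right_comm, mul_comm]; exact mul_le_mul_right key _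
    _ = _ := by ring

omit [MeasurableSpace Ω] in
lemma w2_fr {g : Matrix (Fin (k + 1)) (Fin (k + 1)) ℂ} (hg : g.det ≠ 0) (x0 : Ω)
    (y : Fin (k + 1) → Ω) : w2 (fr g τ) p dl x0 y = ‖g.det‖ₑ ^ (p - dl) * w2 τ p dl x0 y := by
  have h0 : ‖g.det‖ₑ ≠ 0 := by simpa using hg
  simp only [w2, dt_fr, enorm_mul, ENNReal.mul_rpow_of_ne_top enorm_ne_top enorm_ne_top]
  rw [Finset.prod_mul_distrib, Finset.prod_const, Finset.card_fin, ← ENNReal.rpow_mul_natCast,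
    mul_mul_mul_comm, ← ENNReal.rpow_add _ _ h0 enorm_ne_top]
  congr 2
  push_cast
  ring

omit [SigmaFinite ν] in
lemma h2_fr {g : Matrix (Fin (k + 1)) (Fin (k + 1)) ℂ} (hg : g.det ≠ 0) (J : Type*) [Fintype J]
    (t : Fin (k + 1) → ℂ) : h2 ν (fr g τ) p dl J t =
      ‖g.det‖ₑ ^ ((p - dl) * Fintype.card J) * h2 ν τ p dl J (t ᵥ* g) := by
  rw [h2, h2, ← lintegral_const_mul' _ _
    (ENNReal.rpow_ne_top_of_ne_zero (by simpa using hg) enorm_ne_top)]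
  refine lintegral_congr fun x => ?_
  simp only [w2_fr hg, dot_fr]
  rw [Finset.prod_mul_distrib, Finset.prod_const, Finset.card_univ, ← ENNReal.rpow_mul_natCast,
    mul_left_comm]

/-- the constant of the lower bound -/
noncomputable def c2 (k n : ℕ) (p dl : ℝ) : ℝ≥0∞ :=
  ((k + 1).factorial : ℝ≥0∞) ^ (2 - p) * ((k + 1 : ℕ) : ℝ≥0∞) ^ (2 / p - 1) *
    ((((k + 1 : ℕ) : ℝ≥0∞) ^ (k + 1)) ^ (k * dl / p)) ^ n

lemma c2_ne_top (k n : ℕ) (p dl : ℝ) : c2 k n p dl ≠ ⊤ :=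
  ENNReal.mul_ne_top (ENNReal.mul_ne_top
    (ENNReal.rpow_ne_top_of_ne_zero (by simp [Nat.factorial_ne_zero]) (by simp))
    (ENNReal.rpow_ne_top_of_ne_zero (by simp) (by simp)))
    (ENNReal.pow_ne_top (ENNReal.rpow_ne_top_of_ne_zero (by simp) (by simp)))

lemma c2_ne_zero (k n : ℕ) (p dl : ℝ) : c2 k n p dl ≠ 0 :=
  mul_ne_zero (mul_ne_zero
    (ENNReal.rpow_pos (by simp [Nat.factorial_pos]) (by simp)).ne'
    (ENNReal.rpow_pos (by simp) (by simp)).ne')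
    (pow_ne_zero _ (ENNReal.rpow_pos (ENNReal.pow_pos (by simp) _) (by simp)).ne')

/-- `h2(t, t) ≥ c N(t)^m D^(m j)` -/
theorem le_h2 (hτ : Measurable τ) (hp : 0 < p) (hdl : 0 ≤ dl) {J : Type*} [Fintype J]
    (hJ : Fintype.card J * ((k + 1 : ℕ) * dl) = 2 - p) (hB : nB ν τ p ≠ ⊤)
    (hN : ∀ a, a ≠ 0 → nN ν τ p a ≠ 0) (t : Fin (k + 1) → ℂ) :
    nN ν τ p t ^ (2 / p) * nD ν τ p ^ ((p - dl) * Fintype.card J / p) ≤
      c2 k (Fintype.card J) p dl * h2 ν τ p dl J t := by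
  have hp2 : 0 ≤ 2 - p := by rw [← hJ]; positivity
  obtain ⟨g, hg, -, hG⟩ := exists_good hτ hp hB hN
  have hτ' := measurable_fr hτ g
  obtain ⟨t, rfl⟩ : ∃ t', t' ᵥ* g = t :=
    ⟨t ᵥ* g⁻¹, by rw [vecMul_vecMul, nonsing_inv_mul _ (Ne.isUnit hg), vecMul_one]⟩
  have h := le_h2_frame hτ' hp hdl hJ (ne_top_of_le_ne_top (by simp) hG.le) t
  have hc : ((k + 1).factorial : ℝ≥0∞) ^ (2 - p) * nB ν (fr g τ) p ^ (2 / p - 1) *
      ((nB ν (fr g τ) p ^ (k + 1)) ^ (k * dl / p)) ^ Fintype.card J ≤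
      c2 k (Fintype.card J) p dl :=
    mul_le_mul' (mul_le_mul_right (ENNReal.rpow_le_rpow hG.le (by
      rw [sub_nonneg, le_div_iff₀ hp]; linarith)) _) (pow_le_pow_left'
        (ENNReal.rpow_le_rpow (pow_le_pow_left' hG.le _) (by positivity)) _)
  have h1 : nD ν (fr g τ) p ^ ((p - dl) * Fintype.card J / p) ≤
      (nD ν (fr g τ) p ^ ((p + k * dl) / p)) ^ Fintype.card J := by
    rw [← ENNReal.rpow_mul_natCast]
    refine ENNReal.rpow_le_rpow_of_exponent_le (hG.one_le_nD hτ' hp.le) ?_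
    rw [div_mul_eq_mul_div]
    have : 0 ≤ k * dl := by positivity
    gcongr
    linarith
  have h3 := ((mul_le_mul_right h1 _).trans h).trans (mul_le_mul_left hc _)
  have h0 : ‖g.det‖ₑ ≠ 0 := by simpa using hg
  rw [nN_fr, h2_fr hg, nD_fr hp.le, ENNReal.mul_rpow_of_ne_top
    (ENNReal.rpow_ne_top_of_ne_zero h0 enorm_ne_top) (nD_ne_top hτ hp.le hB), ← ENNReal.rpow_mul,
    mul_div_cancel₀ _ hp.ne', mul_left_comm, mul_left_comm (c2 _ _ _ _)] at h3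
  exact (ENNReal.mul_le_mul_iff_right (ENNReal.rpow_pos (pos_iff_ne_zero.2 h0) enorm_ne_top).ne'
    (ENNReal.rpow_ne_top_of_ne_zero h0 enorm_ne_top)).1 h3

/-- `det h2 ≥ c D^(m e)`, `m e = 1 + r J` -/
theorem nD_le_det_h2 (hτ : Measurable τ) (hp : 0 < p) (hdl : 0 ≤ dl) {J : Type*} [Fintype J]
    (hJ : Fintype.card J * ((k + 1 : ℕ) * dl) = 2 - p) (hB : nB ν τ p ≠ ⊤)
    (hN : ∀ a, a ≠ 0 → nN ν τ p a ≠ 0) {G : Matrix (Fin (k + 1)) (Fin (k + 1)) ℂ}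
    (hG : G.IsHermitian) (h : ∀ u, h2 ν τ p dl J u ≤ ENNReal.ofReal (star u ⬝ᵥ G *ᵥ u).re) :
    nD ν τ p ^ (1 + (k + 1) * Fintype.card J) ≤ cD (k + 1) p ^ (2 / p) *
      ((k + 1 : ℕ) * c2 k (Fintype.card J) p dl) ^ (k + 1) * ENNReal.ofReal G.det.re := by
  have hD0 := nD_ne_zero hτ hp hB hN
  have hDt := nD_ne_top hτ hp.le hB
  set s := (p - dl) * Fintype.card J / p with hs
  have hs0 : nD ν τ p ^ s ≠ 0 := (ENNReal.rpow_pos (pos_iff_ne_zero.2 hD0) hDt).ne'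
  have hst : nD ν τ p ^ s ≠ ⊤ := ENNReal.rpow_ne_top_of_ne_zero hD0 hDt
  have h1 := nD_le_det hτ hp hB hN hG (A := c2 k (Fintype.card J) p dl / nD ν τ p ^ s)
    (ENNReal.div_ne_zero.2 ⟨c2_ne_zero _ _ _ _, hst⟩) (ENNReal.div_ne_top (c2_ne_top _ _ _ _) hs0)
    fun u => by
      rw [← ENNReal.mul_div_right_comm, ENNReal.le_div_iff_mul_le (Or.inl hs0) (Or.inl hst)]
      exact (le_h2 hτ hp hdl hJ hB hN u).trans (mul_le_mul_right (h u) _)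
  have e : nD ν τ p ^ (1 + (k + 1) * Fintype.card J) =
      nD ν τ p ^ (2 / p) * (nD ν τ p ^ s) ^ (k + 1) := by
    rw [← ENNReal.rpow_mul_natCast, ← ENNReal.rpow_add _ _ hD0 hDt, ← ENNReal.rpow_natCast]
    congr 1
    rw [hs]
    push_cast at hJ ⊢
    field_simp
    linarith
  rw [e]
  refine (mul_le_mul_left h1 _).trans (le_of_eq ?_)
  rw [mul_right_comm, mul_assoc (cD _ _ ^ _), ← mul_pow, mul_assoc (_ : ℝ≥0∞) (_ / _),
    ENNReal.div_mul_cancel hs0 hst]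

end Pool.Agent.Lib.MP_5c318e_ag.N
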