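import Pool.Agent.Lib.MP_5c318e_ag.Ku.KTop
import Pool.Agent.Lib.MP_5c318e_ag.Ku.KOff
import Pool.Agent.Lib.MP_5c318e_ag.S.Sat
import Pool.Agent.Lib.MP_5c318e_ag.C.Siz
import Pool.Agent.Lib.MP_5c318e_ag.Z.KDefs

/-! Side lemmas for the towers over a set-up: charts of the base, the cone of sections. -/

set_option autoImplicit false
set_option linter.unusedSectionVars false

namespace Pool.Agent.Lib.MP_5c318e_ag

open MeasureTheory Set Filter Topology Matrix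
open Pool.Agent.Lib.MP_5c318e_ag.V Pool.Agent.Lib.MP_5c318e_ag.Ku
open scoped ENNReal

section model

variable {A R ν : Type} [NormedAddCommGroup A] [NormedSpace ℂ A] [CommRing R] [Fintype ν]
  {C : FC A R ν} {r : Type} [Fintype r] [DecidableEq r]

theorem Ku.cone_le {M : ℕ} (hM : 0 < M) (t v : r → ℂ) (z : ℂ) :
    ENNReal.ofReal (‖z * (t ⬝ᵥ v)‖ ^ 2) * ENNReal.ofReal (∑ i, ‖v i‖ ^ 2) ^ (-((M - 1) / M) : ℝ) ≤
      ENNReal.ofReal (∑ i, ‖t i‖ ^ 2) ^ ((M - 1) / M : ℝ) *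
        (‖z‖ₑ ^ 2 * ‖t ⬝ᵥ v‖ₑ ^ (2 / M : ℝ)) := by
  have m1 : (1 : ℝ) ≤ M := by exact_mod_cast hM
  have hc : (0 : ℝ) ≤ (M - 1) / M := div_nonneg (by linarith) (by linarith)
  have h1 : ‖t ⬝ᵥ v‖ₑ ^ (2 : ℝ) ≤
      ENNReal.ofReal (∑ i, ‖t i‖ ^ 2) * ENNReal.ofReal (∑ i, ‖v i‖ ^ 2) := by
    rw [ENNReal.rpow_two, ← ofReal_norm, ← ENNReal.ofReal_pow (norm_nonneg _),
      ← ENNReal.ofReal_mul (by positivity)]
    refine ENNReal.ofReal_le_ofReal (le_trans (pow_le_pow_left₀ (norm_nonneg _)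
      ((norm_sum_le _ _).trans (le_of_eq ?_)) 2) (Finset.sum_mul_sq_le_sq_mul_sq _ _ _))
    simp only [norm_mul]
  have h2 : ‖t ⬝ᵥ v‖ₑ ^ 2 = (‖t ⬝ᵥ v‖ₑ ^ (2 : ℝ)) ^ ((M - 1) / M : ℝ) * ‖t ⬝ᵥ v‖ₑ ^ (2 / M : ℝ) := by
    rw [← ENNReal.rpow_mul, ← ENNReal.rpow_add_of_nonneg _ _ (by positivity) (by positivity),
      ← ENNReal.rpow_two]
    congr 1
    field_simp
    ring
  have h3 := ENNReal.rpow_le_rpow h1 hc
  rw [ENNReal.mul_rpow_of_nonneg _ _ hc] at h3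
  rw [ENNReal.ofReal_pow (norm_nonneg _), ofReal_norm, enorm_mul, mul_pow, h2, ENNReal.rpow_neg]
  generalize ENNReal.ofReal (∑ i, ‖v i‖ ^ 2) ^ ((M - 1) / M : ℝ) = S at *
  calc _ ≤ ‖z‖ₑ ^ 2 * (_ * S * ‖t ⬝ᵥ v‖ₑ ^ (2 / M : ℝ)) * S⁻¹ := by gcongr
    _ = _ * (‖z‖ₑ ^ 2 * ‖t ⬝ᵥ v‖ₑ ^ (2 / M : ℝ)) * (S * S⁻¹) := by ring
    _ ≤ _ := mul_le_of_le_one_right' (ENNReal.mul_inv_le_one S)

/-- saturation gives fullness of the frame divided by one section -/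
theorem Ku.FC.full_cone {M : ℕ} (hM : 0 < M) {τ : Vp ν → r → ℂ} {a : A} (t : r → ℂ)
    (hs : C.Sat Unit τ ((M - 1) / M) a)
    (hol : ∀ p ∈ C.Fk a, HolAt (C.Fk a) (fun p : Unit → Vp ν => t ⬝ᵥ τ (p ())) p) :
    FullF C (fun p : Unit → Vp ν => t ⬝ᵥ τ (p ())) M ⊥ a
      fun i p => τ (p ()) i / (t ⬝ᵥ τ (p ())) := by
  intro h ψ hh hψ _ hi
  have m1 : (1 : ℝ) ≤ M := by exact_mod_cast hM
  have hT : ENNReal.ofReal (∑ i, ‖t i‖ ^ 2) ^ ((M - 1) / M : ℝ) ≠ ⊤ :=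
    ENNReal.rpow_ne_top_of_nonneg (div_nonneg (by linarith) (by linarith)) ENNReal.ofReal_ne_top
  obtain ⟨c, hc⟩ := hs h (fun p => ψ p * (t ⬝ᵥ τ (p ()))) hh
    (fun p hp h0 => (hψ p hp h0).mul (hol p hp)) (by
      refine lt_of_le_of_lt (lintegral_mono fun p => ?_)
        ((lintegral_const_mul' _ _ hT).trans_lt (ENNReal.mul_lt_top hT.lt_top hi))
      rw [Fintype.prod_unique]
      exact Ku.cone_le hM t _ _)
  refine ⟨fun i => c fun _ => i, h, hh, fun p hp h0 h1 => ?_⟩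
  simp only [← mul_div_assoc, ← Finset.sum_div]
  rw [eq_div_iff h1, hc p hp h0]
  exact Fintype.sum_equiv (Equiv.funUnique Unit r) _ _ fun I => by
    rw [Fintype.prod_unique]; rfl

/-- a nonzero section vanishes on no open part of the fibre -/
theorem Ku.FC.Ind.cone {τ : Vp ν → r → ℂ} {a : A} (h : C.Ind τ a) {t : r → ℂ} (ht : t ≠ 0) :
    C.Fk a ⊆ closure {p : Unit → Vp ν | p ∈ C.Fk a ∧ t ⬝ᵥ τ (p ()) ≠ 0} := fun p hp => by
  refine mem_closure_iff.2 fun U hU hpU => by_contra fun h0 => ht (h {u | (fun _ => u) ∈ U}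
    (hU.preimage (continuous_pi fun _ => continuous_id)) ⟨p (), hpU, hp ()⟩ t fun u hu => ?_)
  exact by_contra fun h1 => h0 ⟨fun _ => u, hu.1, fun _ => hu.2, h1⟩

theorem Ku.cone_eq {M : ℕ} (c v : r → ℂ) {s : ℂ} (hs : s ≠ 0) :
    ‖c ⬝ᵥ v‖ₑ ^ 2 * ‖s‖ₑ ^ (-(2 - 2 / M) : ℝ) = ‖∑ i, c i * (v i / s)‖ₑ ^ 2 * ‖s‖ₑ ^ (2 / M : ℝ) := by
  have h0 : ‖s‖ₑ ≠ 0 := by simpa using hs
  have e : c ⬝ᵥ v = (∑ i, c i * (v i / s)) * s := by
    simp only [← mul_div_assoc, ← Finset.sum_div]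
    rw [div_mul_cancel₀ _ hs]
    rfl
  rw [e, enorm_mul, mul_pow, mul_assoc, ← ENNReal.rpow_two ‖s‖ₑ,
    ← ENNReal.rpow_add _ _ h0 enorm_ne_top]
  congr 2
  ring

end model

variable {δ ν K M : Type} [Fintype δ] [DecidableEq δ] [Fintype ν] [DecidableEq ν]
  [Field K] [Algebra ℂ K] [Field M] [Algebra ℂ M] [Algebra K M] [IsScalarTower ℂ K M]

section par

variable {B : Cht δ K} {T : Fam B ν M} {A R : Type} [NormedAddCommGroup A] [NormedSpace ℂ A]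
  [CommRing R]

/-- the parameters where `r` does not vanish -/
def Fam.Par.cut (P : T.Par A R) (r : R) : T.Par A R where
  S0 := {a | a ∈ P.S0 ∧ P.ev a r ≠ 0}
  b := P.b
  ρ := P.ρ
  ev := P.ev
  an q s hs := (P.an q s hs.1).imp fun _ h => ⟨h.1, nhdsWithin_mono _ (fun _ h => h.1) h.2⟩
  hev a ha := P.hev a ha.1
  ne a ha := P.ne a ha.1

end par

theorem RD.ae_sec {ι S : Type} [Fintype ι] [TopologicalSpace S] [MeasurableSpace S] [BorelSpace S]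
    (D : RD ι S) {P : S → Prop} (h : ∀ᵐ y ∂D.μ, P y) (x : S) :
    ∀ᵐ z, z ∈ (D.ch x).target → P (D.sec x z) := by
  have h1 : ∀ᵐ y ∂D.μ.restrict (D.ch x).source, P y := ae_restrict_of_ae h
  rw [D.restrict_src] at h1
  exact (ae_restrict_iff' (D.ch x).open_target.measurableSet).1 (ae_of_ae_map (D.sec_aem x) h1)

namespace Dat

variable (d : Dat δ K ν M)

theorem meas_t3 (b : Pt d.B.O) : Measurable (d.f b) :=
  (continuous_pi fun i => (Pt.continuous_apply (d.τ i)).comp continuous_subtype_val).measurable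

theorem nB_t3 (b : Pt d.B.O) : N.nB (d.μ b) (d.f b) (2 / d.m) ≠ ⊤ :=
  ne_top_of_le_ne_top ENNReal.ofReal_ne_top (d.up.choose_spec.2 b)

theorem nN_t3 (b : Pt d.B.O) {a : Fin d.r → ℂ} (ha : a ≠ 0) :
    N.nN (d.μ b) (d.f b) (2 / d.m) a ≠ 0 := fun h => by
  have h1 := d.low.choose_spec.2 b a
  have m0 : (0 : ℝ) < d.m := by have := d.hm; positivity
  rw [h, mul_zero] at h1
  exact (ENNReal.rpow_pos (by simpa using ha) enorm_ne_top).not_ge h1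

theorem h3_t3 (b : Pt d.B.O) {a u : Fin d.r → ℂ} (ha : a ≠ 0) (hu : u ≠ 0) :
    N.h3 (d.μ b) (d.f b) (2 / d.m) a u ≠ 0 := fun h => by
  have m3 : (3 : ℝ) ≤ d.m := by exact_mod_cast d.hm
  have hp : (0 : ℝ) < 2 / d.m := by positivity
  have h1 := N.nN_le_h3 (d.meas_t3 b) hp (div_le_self zero_le_two (by linarith)) (d.nN_t3 b ha) u
  rw [h, mul_zero] at h1
  exact (ENNReal.rpow_pos (pos_iff_ne_zero.2 (d.nN_t3 b hu))
    (N.nN_ne_top hp.le (d.nB_t3 b) u)).not_ge h1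

/-- a bounded chart of the base around `b` -/
theorem chart (b : Pt d.B.O) : ∃ O : Set (δ → ℂ), IsOpen O ∧ d.B.D.π b ∈ O ∧ volume O ≠ ⊤ ∧
    O ⊆ (d.B.D.ch b).target ∧
    (∀ z ∈ O, Plot (range d.T.embB) (fun z => d.T.embB (d.B.D.sec b z)) z) ∧
    (∃ C : ℝ≥0∞, C ≠ ⊤ ∧
      ∀ z ∈ O, N.nB (d.μ (d.B.D.sec b z)) (d.f (d.B.D.sec b z)) (2 / d.m) ≤ C) ∧
    ∀ᵐ z, z ∈ O →
      (d.T.fib (d.B.D.sec b z)).Sat (fun i p => p.1 (d.τ i)) ((d.m - 1) / d.m) := by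
  obtain ⟨u, ⟨k, hk, hu⟩, h⟩ := d.up
  refine ⟨((d.B.D.ch b).target ∩ d.B.D.sec b ⁻¹' {y | d.B.siz y < d.B.siz b + 1}) ∩
    Metric.ball (d.B.D.π b) 1, ((d.B.D.sec_contOn b).isOpen_inter_preimage
      (d.B.D.ch b).open_target (isOpen_lt d.B.psh.1.cont continuous_const)).inter
        Metric.isOpen_ball, ⟨⟨d.B.D.mem_tgt b, ?_⟩, Metric.mem_ball_self one_pos⟩,
    ((measure_mono inter_subset_right).trans_lt measure_ball_lt_top).ne, fun z hz => hz.1.1,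
    fun z hz => ⟨?_, .of_forall fun _ => mem_range_self _⟩,
    ⟨ENNReal.ofReal (Real.exp (k * (d.B.siz b + 1) + k)), ENNReal.ofReal_ne_top, fun z hz =>
      (h _).trans (ENNReal.ofReal_le_ofReal ((hu _).trans ?_))⟩, ?_⟩
  · simp [d.B.D.sec_self]
  · have h1 := d.T.embB_emb.ana (d.B.D.sec b z)
    rw [RD.π_sec hz.1.1] at h1
    exact h1.congr (RD.germ_f d.T.embB hz.1.1).symm
  · have : d.B.siz (d.B.D.sec b z) < d.B.siz b + 1 := hz.1.2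
    gcongr
  · filter_upwards [d.B.D.ae_sec (d.T.sat (by have := d.hm; omega) d.span) b] with z hz h1
    exact hz h1.1.1

variable {A R : Type} [NormedAddCommGroup A] [NormedSpace ℂ A] [CommRing R] (P : d.T.Par A R)
  {a : A} {b : Pt d.B.O} {τ' : Vp ν → Fin d.r → ℂ}

theorem ind_fc (ha : a ∈ P.S0) (e : P.b a = b)
    (hτ : ∀ (p : d.T.Fib b) i, τ' (d.T.emb p.1) i = p.1 (d.τ i)) : P.fc.Ind τ' a := by
  subst e
  rintro U hU ⟨u, hu, h1⟩ t ht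
  obtain ⟨p, rfl⟩ := (P.range_emb ha).ge h1
  refine d.indF _ _ (hU.preimage (P.emb_emb ha).ind.continuous) ⟨p, hu⟩ t fun q hq => ?_
  rw [← ht _ ⟨hq, (P.range_emb ha).le ⟨q, rfl⟩⟩]
  exact congrArg _ (funext fun i => (hτ q i).symm)

theorem sat_fc (κ : Type) [Fintype κ] [DecidableEq κ] (ha : a ∈ P.S0) (e : P.b a = b)
    (hτ : ∀ (p : d.T.Fib b) i, τ' (d.T.emb p.1) i = p.1 (d.τ i))
    (hs : (d.T.fib b).Sat (fun i p => p.1 (d.τ i)) ((d.m - 1) / d.m)) :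
    P.fc.Sat κ τ' ((d.m - 1) / d.m) a := by
  have m3 : (3 : ℝ) ≤ d.m := by exact_mod_cast d.hm
  exact P.sat' ha e hτ (div_nonneg (by linarith) (by linarith)) hs
    fun U hU hn t ht => d.indF b U hU hn t ht

theorem h3_fc (ha : a ∈ P.S0) (e : P.b a = b)
    (hτ : ∀ (p : d.T.Fib b) i, τ' (d.T.emb p.1) i = p.1 (d.τ i)) (t c : Fin d.r → ℂ) :
    ∫⁻ p : Unit → Vp ν, ‖c ⬝ᵥ τ' (p ())‖ₑ ^ 2 * ‖t ⬝ᵥ τ' (p ())‖ₑ ^ (-(2 - 2 / d.m) : ℝ)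
      ∂P.fc.μk a = N.h3 (d.μ b) (d.f b) (2 / d.m) t c := by
  rw [P.lintegral' ha e, N.h3, ← (measurePreserving_funUnique (d.μ b) Unit).lintegral_comp_emb
    (MeasurableEquiv.funUnique Unit _).measurableEmbedding]
  refine lintegral_congr fun x => ?_
  rw [show τ' (d.T.embk x ()) = d.f b (x ()) from funext fun i => hτ _ i]
  rfl

/-- local integrability of the cone form in all parameters -/
theorem loc_h3 {O : Set (δ → ℂ)} (hO : MeasurableSet O) (hv : volume O ≠ ⊤)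
    {σ : (δ → ℂ) → Pt d.B.O} {C : ℝ≥0∞} (hC : C ≠ ⊤)
    (h : ∀ z ∈ O, N.nB (d.μ (σ z)) (d.f (σ z)) (2 / d.m) ≤ C) {ρ : ℝ} (hρ : 0 ≤ ρ)
    (u : Fin d.r → ℂ) :
    ∫⁻ e : (δ → ℂ) × (Fin d.r → ℂ) in O ×ˢ Metric.closedBall 0 ρ,
      N.h3 (d.μ (σ e.1)) (d.f (σ e.1)) (2 / d.m) e.2 u < ⊤ := by
  have m3 : (3 : ℝ) ≤ d.m := by exact_mod_cast d.hm
  obtain ⟨C', hC', h'⟩ := N.lint_h3 (Fin d.r) (p := 2 / d.m) (by positivity)
    (div_lt_self zero_lt_two (by linarith)) hρ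
  rw [Measure.volume_eq_prod, ← Measure.prod_restrict]
  refine (lintegral_prod_le _).trans_lt ((setLIntegral_mono' hO fun z hz =>
    (h' _ _ _ (d.meas_t3 (σ z)) u).trans (mul_le_mul_right (h z hz) _)).trans_lt ?_)
  rw [setLIntegral_const]
  exact ENNReal.mul_lt_top (ENNReal.mul_lt_top (ENNReal.mul_lt_top hC'.lt_top (by simp))
    hC.lt_top) hv.lt_top

end Dat

end Pool.Agent.Lib.MP_5c318e_ag
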