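import Pool.Agent.Lib.MP_5c318e_ag.N.T3D
import Pool.Agent.Lib.MP_5c318e_ag.Ku.KGen

/-! The Hodge metric of the cone tower. -/

set_option autoImplicit false

namespace Pool.Agent.Lib.MP_5c318e_ag

open MeasureTheory Set Filter Topology Matrix
open Pool.Agent.Lib.MP_5c318e_ag.V Pool.Agent.Lib.MP_5c318e_ag.Ku

variable {δ ν K M : Type} [Fintype δ] [DecidableEq δ] [Fintype ν] [DecidableEq ν]
  [Field K] [Algebra ℂ K] [Field M] [Algebra ℂ M] [Algebra K M] [IsScalarTower ℂ K M]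

theorem Dat.t3 (d : Dat δ K ν M) : ∃ e : d.B.O, e ≠ 0 ∧ d.T3On e := by
  have m0 : 0 < d.m := by have := d.hm; omega
  set i0 : Fin d.r := ⟨0, d.hr⟩
  set P0 := (d.T.par d.cov).ext (Fin d.r) with hP0
  set P := P0.cut (MvPolynomial.X i0) with hP
  obtain ⟨Q, j, hQ⟩ := P0.exists_frac' d.τ
  set τ' : Vp δ × (Fin d.r → ℂ) → Vp ν → Fin d.r → ℂ := fun a u i => P0.fc.frac (Q i) j a u
  have hX : ∀ (a : Vp δ × (Fin d.r → ℂ)) i, P0.ev a (MvPolynomial.X i) = a.2 i := fun a i =>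
    MvPolynomial.eval₂Hom_X' _ _ _
  have hU : ∀ i, (fun a (p : Unit → Vp ν) => τ' a (p ()) i) ∈ P.fc.Rg Unit := fun i =>
    P.fc.div_mem (Q i) j ()
  have hf : (fun a (p : Unit → Vp ν) => a.2 ⬝ᵥ τ' a (p ())) ∈ P.fc.Rg Unit := by
    have := Subring.sum_mem (P.fc.Rg Unit) (t := Finset.univ) fun i _ =>
      Subring.mul_mem _ (P.fc.ev_mem (MvPolynomial.X i)) (hU i)
    convert this using 1
    ext a p
    simp only [Finset.sum_apply, Pi.mul_apply, dotProduct]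
    exact Finset.sum_congr rfl fun i _ => congrArg (· * _) (hX a i).symm
  have h2 : ∀ a ∈ P.S0, a.2 ≠ 0 := fun a ha h => ha.2 ((hX a i0).trans (congrFun h i0))
  obtain ⟨δ0, hδ, H⟩ := kum_top P.fc ⟨hf, fun a ha =>
    (d.ind_fc P (τ' := τ' a) ha rfl (hQ a ha.1 _ rfl)).cone (h2 a ha)⟩ hf hU (fun _ _ _ h => h) m0 ⊥
    (fun σ _ a p => rfl) (fun i σ _ a p => rfl)
    (F := fun a c p => ‖c ⬝ᵥ τ' a (p ())‖ₑ ^ 2 * ‖a.2 ⬝ᵥ τ' a (p ())‖ₑ ^ (-(2 - 2 / d.m) : ℝ))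
    fun a c p _ h => Ku.cone_eq c _ h
  set Δ := MvPolynomial.X i0 * δ0
  have hΔ : Δ ≠ 0 := mul_ne_zero (MvPolynomial.X_ne_zero _) hδ
  obtain ⟨c1, c2⟩ := d.T.ext_charted d.cov (Fin d.r)
  obtain ⟨s1, s2, -⟩ := P0.off ((d.T.par_inj d.cov).ext _) c1 c2 hΔ
  have hS : {a | a ∈ P0.S0 ∧ P0.ev a Δ ≠ 0} ⊆ P.S0 := fun a ha =>
    ⟨ha.1, left_ne_zero_of_mul (map_mul (P0.ev a) _ _ ▸ ha.2)⟩
  obtain ⟨n, κ, H⟩ := H _ hS
    (fun a ha => right_ne_zero_of_mul (map_mul (P0.ev a) _ _ ▸ ha.2)) s1 s2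
  obtain ⟨I, hI⟩ := MvPolynomial.exists_coeff_ne_zero hΔ
  refine ⟨_, hI, Δ, fun b a => N.pz (N.h3 (d.μ b) (d.f b) (2 / d.m) a), fun b hb =>
    ⟨fun e => hb ?_, fun a ha => ?_⟩⟩
  · have := congrArg (MvPolynomial.coeff I) e
    rwa [MvPolynomial.coeff_map] at this
  obtain ⟨O, hO, hbO, hv, -, hpl, ⟨C, hC, hB⟩, hs⟩ := d.chart b
  set φ : (δ → ℂ) × (Fin d.r → ℂ) → Vp δ × (Fin d.r → ℂ) :=
    fun e => (d.T.embB (d.B.D.sec b e.1), e.2)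
  have hm : ∀ e, φ e ∈ P0.S0 := fun e => ⟨d.T.par_mem d.cov _, trivial⟩
  have hb' : ∀ e, P0.b (φ e) = d.B.D.sec b e.1 := fun e => d.T.par_b d.cov _
  have p0 : ∀ e, e.1 ∈ O → Plot P0.S0 φ e := fun e he =>
    ⟨((hpl _ he).1.comp analyticAt_fst).prod analyticAt_snd, .of_forall hm⟩
  have ev : ∀ e, e.1 ∈ O → P0.ev (φ e) Δ ≠ 0 → ∀ᶠ e' in 𝓝 e, P0.ev (φ e') Δ ≠ 0 := fun e he h =>
    (p0 e he).tendsto.eventually (P0.an.ev_ne (hm e) h)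
  have hO' : IsOpen {e : (δ → ℂ) × (Fin d.r → ℂ) | e.1 ∈ O ∧ P0.ev (φ e) Δ ≠ 0} :=
    isOpen_iff_mem_nhds.2 fun e he =>
      (continuous_fst.continuousAt.eventually (hO.mem_nhds he.1)).and (ev e he.1 he.2)
  have h3 : ∀ e, P0.ev (φ e) Δ ≠ 0 → ∀ c, _ = N.h3 _ _ _ e.2 c := fun e he c =>
    d.h3_fc P (τ' := τ' (φ e)) (hS ⟨hm e, he⟩) (hb' e) (hQ _ (hm e) _ (hb' e)) e.2 c
  have he0 : P0.ev (φ (d.B.D.π b, a)) Δ ≠ 0 := by
    have : (d.T.par d.cov).b (d.T.embB (d.B.D.sec b (d.B.D.π b))) = b := by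
      rw [d.B.D.sec_self, d.T.par_b]
    exact fun e => ha (this ▸ e)
  have : (volume : Measure ((δ → ℂ) × (Fin d.r → ℂ))).IsAddHaarMeasure :=
    Measure.prod.instIsAddHaarMeasure _ _
  obtain ⟨f1, f2⟩ := H ((δ → ℂ) × (Fin d.r → ℂ)) volume φ _ hO'
    (fun e he => ⟨(p0 e he.1).1, (ev e he.1 he.2).mono fun e' h => ⟨hm e', h⟩⟩)
    (fun i e he => ⟨_, inter_mem (hO'.mem_nhds he) (prod_mem_nhds (hO.mem_nhds he.1)
      (Metric.closedBall_mem_nhds_of_mem (c := 0) (ε := ‖e.2‖ + 1) (by simp))), by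
        refine lt_of_le_of_lt ?_ (d.loc_h3 hO.measurableSet hv hC hB (ρ := ‖e.2‖ + 1)
          (by positivity) (Pi.single i 1))
        rw [← Measure.restrict_restrict hO'.measurableSet]
        exact (setLIntegral_congr_fun hO'.measurableSet fun e' he' => h3 e' he'.2 _).trans_le
          (lintegral_mono' Measure.restrict_le_self le_rfl)⟩)
    (fun e he c hc => (h3 e he.2 c).trans_ne (d.h3_t3 _ (h2 _ (hS ⟨hm e, he.2⟩)) hc))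
    (((Measure.dense_of_ae ((Measure.quasiMeasurePreserving_fst (ν := volume)).ae
      hs)).open_subset_closure_inter hO').trans (closure_mono fun e he => ⟨he.1, FC.full_cone m0 e.2
        (d.sat_fc P (τ' := τ' (φ e)) Unit (hS ⟨hm e, he.1.2⟩) (hb' e) (hQ _ (hm e) _ (hb' e)) (he.2 he.1.1))
        fun p hp => FC.rg_hol1 hf (hS ⟨hm e, he.1.2⟩) hp⟩))
    (d.B.D.π b, a) ⟨hbO, he0⟩
  refine ⟨⟨n, κ, f2.congr (eventually_of_mem (hO'.mem_nhds ⟨hbO, he0⟩) fun e he =>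
    congrArg N.pz (funext fun c => (h3 e he.2 c).symm))⟩, fun u => ?_⟩
  have f3 : ∀ c, N.h3 (d.μ b) (d.f b) (2 / d.m) a c ≠ ⊤ := fun c => by
    have := (h3 _ he0 c).symm.trans_ne (f1 c)
    rwa [d.B.D.sec_self] at this
  rw [N.pz_h3 (d.meas_t3 b) f3, Complex.ofReal_re, ENNReal.ofReal_toReal (f3 u)]

end Pool.Agent.Lib.MP_5c318e_ag
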